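import Mathlib

/-!
# FAR, stage 2: fixed point bounds

A natural number `n` stands for the real number `fx n = n / 2 ^ 40`.  Every operation comes with the inequality
which it satisfies.  All functions are evaluated by the kernel.
-/

set_option autoImplicit false

namespace SokalFN

/-- the scale -/
abbrev SC : ℕ := 1099511627776

/-- the value -/
noncomputable def fx (n : ℕ) : ℝ := (n : ℝ) / 1099511627776

theorem fx_nonneg (n : ℕ) : 0 ≤ fx n := by unfold fx; positivity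

theorem fx_mono {m n : ℕ} (h : m ≤ n) : fx m ≤ fx n := by
  unfold fx
  have : (m : ℝ) ≤ n := by exact_mod_cast h
  gcongr

theorem fx_zero : fx 0 = 0 := by simp [fx]

theorem fx_one : fx SC = 1 := by unfold fx SC; norm_num

theorem fx_add (m n : ℕ) : fx (m + n) = fx m + fx n := by
  unfold fx; push_cast; ring

theorem fx_pos {n : ℕ} (h : 0 < n) : 0 < fx n := by
  unfold fx
  have : (0 : ℝ) < n := by exact_mod_cast h
  positivity

/-- upper bound of a product -/
def mU (m n : ℕ) : ℕ := m * n / SC + 1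

/-- lower bound of a product -/
def mL (m n : ℕ) : ℕ := m * n / SC

/-- upper bound of a quotient -/
def dU (m n : ℕ) : ℕ := m * SC / n + 1

/-- lower bound of a quotient -/
def dL (m n : ℕ) : ℕ := m * SC / n

theorem mL_le (m n : ℕ) : fx (mL m n) ≤ fx m * fx n := by
  unfold fx mL SC
  have h : ((m * n / 1099511627776 : ℕ) : ℝ) ≤ ((m * n : ℕ) : ℝ) / ((1099511627776 : ℕ) : ℝ) :=
    Nat.cast_div_le
  push_cast at h
  have e : (m : ℝ) / 1099511627776 * ((n : ℝ) / 1099511627776) =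
      (m * n / 1099511627776) / 1099511627776 := by ring
  rw [e]
  gcongr

theorem le_mU (m n : ℕ) : fx m * fx n ≤ fx (mU m n) := by
  unfold fx mU SC
  have h := Nat.lt_succ_floor ((m * n : ℝ) / 1099511627776)
  have h2 : ⌊((m * n : ℕ) : ℝ) / ((1099511627776 : ℕ) : ℝ)⌋₊ = m * n / 1099511627776 :=
    Nat.floor_div_eq_div _ _
  push_cast at h2
  rw [h2] at h
  have e : (m : ℝ) / 1099511627776 * ((n : ℝ) / 1099511627776) =
      (m * n / 1099511627776) / 1099511627776 := by ring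
  rw [e]
  have h3 : (m * n : ℝ) / 1099511627776 ≤ ((m * n / 1099511627776 + 1 : ℕ) : ℝ) := h.le
  gcongr

theorem dL_le (m n : ℕ) : fx (dL m n) ≤ fx m / fx n := by
  rcases Nat.eq_zero_or_pos n with rfl | hn
  · unfold dL; simp [fx_zero]
  · unfold fx dL SC
    have hn' : (0 : ℝ) < n := by exact_mod_cast hn
    have h : ((m * 1099511627776 / n : ℕ) : ℝ) ≤ ((m * 1099511627776 : ℕ) : ℝ) / (n : ℝ) :=
      Nat.cast_div_le
    push_cast at h
    have e : (m : ℝ) / 1099511627776 / ((n : ℝ) / 1099511627776) =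
        (m * 1099511627776 / n) / 1099511627776 := by field_simp
    rw [e]
    gcongr

theorem le_dU {m n : ℕ} (hn : 0 < n) : fx m / fx n ≤ fx (dU m n) := by
  unfold fx dU SC
  have hn' : (0 : ℝ) < n := by exact_mod_cast hn
  have h := Nat.lt_succ_floor ((m * 1099511627776 : ℝ) / n)
  have h2 : ⌊((m * 1099511627776 : ℕ) : ℝ) / (n : ℝ)⌋₊ = m * 1099511627776 / n :=
    Nat.floor_div_eq_div _ _
  push_cast at h2
  rw [h2] at h
  have e : (m : ℝ) / 1099511627776 / ((n : ℝ) / 1099511627776) =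
      (m * 1099511627776 / n) / 1099511627776 := by field_simp
  rw [e]
  have h3 : (m * 1099511627776 : ℝ) / n ≤ ((m * 1099511627776 / n + 1 : ℕ) : ℝ) := h.le
  gcongr

/-! ### the usable forms -/

theorem mulU {a b : ℝ} {m n : ℕ} (ha : a ≤ fx m) (hb : b ≤ fx n) (hb0 : 0 ≤ b) :
    a * b ≤ fx (mU m n) :=
  (mul_le_mul ha hb hb0 (fx_nonneg m)).trans (le_mU m n)

theorem mulL {a b : ℝ} {m n : ℕ} (ha : fx m ≤ a) (hb : fx n ≤ b) : fx (mL m n) ≤ a * b :=
  (mL_le m n).trans (mul_le_mul ha hb (fx_nonneg n) ((fx_nonneg m).trans ha))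

theorem divU {a b : ℝ} {m n : ℕ} (ha : a ≤ fx m) (hb : fx n ≤ b) (hn : 0 < n) :
    a / b ≤ fx (dU m n) := by
  refine le_trans ?_ (le_dU hn)
  have := fx_pos hn
  exact div_le_div₀ (fx_nonneg m) ha this hb

theorem divL {a b : ℝ} {m n : ℕ} (ha : fx m ≤ a) (hb : b ≤ fx n) (hb0 : 0 < b) :
    fx (dL m n) ≤ a / b := by
  refine (dL_le m n).trans ?_
  exact div_le_div₀ ((fx_nonneg m).trans ha) ha hb0 hb

theorem subU {a b : ℝ} {m n : ℕ} (ha : a ≤ fx m) (hb : fx n ≤ b) : a - b ≤ fx (m - n) := by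
  have h : fx m - fx n ≤ fx (m - n) := by
    rcases le_total n m with h | h
    · have : fx m = fx (m - n) + fx n := by rw [← fx_add]; congr 1; omega
      linarith
    · have h1 : fx m ≤ fx n := fx_mono h
      have h2 := fx_nonneg (m - n)
      linarith
  linarith

theorem subL {a b : ℝ} {m n : ℕ} (ha : fx m ≤ a) (hb : b ≤ fx n) (h : n ≤ m) :
    fx (m - n) ≤ a - b := by
  have : fx m = fx (m - n) + fx n := by rw [← fx_add]; congr 1; omega
  linarith

theorem addU {a b : ℝ} {m n : ℕ} (ha : a ≤ fx m) (hb : b ≤ fx n) : a + b ≤ fx (m + n) := by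
  rw [fx_add]; linarith

theorem addL {a b : ℝ} {m n : ℕ} (ha : fx m ≤ a) (hb : fx n ≤ b) : fx (m + n) ≤ a + b := by
  rw [fx_add]; linarith

theorem minU {a b : ℝ} {m n : ℕ} (ha : a ≤ fx m) (hb : b ≤ fx n) : min a b ≤ fx (min m n) := by
  rcases le_total m n with h | h
  · rw [min_eq_left h]; exact (min_le_left _ _).trans ha
  · rw [min_eq_right h]; exact (min_le_right _ _).trans hb

theorem minL {a b : ℝ} {m n : ℕ} (ha : fx m ≤ a) (hb : fx n ≤ b) : fx (min m n) ≤ min a b :=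
  le_min ((fx_mono (min_le_left _ _)).trans ha) ((fx_mono (min_le_right _ _)).trans hb)

theorem maxU {a b : ℝ} {m n : ℕ} (ha : a ≤ fx m) (hb : b ≤ fx n) : max a b ≤ fx (max m n) :=
  max_le (ha.trans (fx_mono (le_max_left _ _))) (hb.trans (fx_mono (le_max_right _ _)))

/-! ### square roots -/

/-- upper bound of the square root -/
def sqU (n : ℕ) : ℕ := Nat.sqrt (n * SC) + 1

/-- lower bound of the square root -/
def sqL (n : ℕ) : ℕ := Nat.sqrt (n * SC)

theorem sqrtU {a : ℝ} {n : ℕ} (ha : a ≤ fx n) : √a ≤ fx (sqU n) := by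
  refine (Real.sqrt_le_sqrt ha).trans ?_
  rw [Real.sqrt_le_left (fx_nonneg _)]
  unfold fx sqU SC
  have h : n * 1099511627776 < (Nat.sqrt (n * 1099511627776) + 1) ^ 2 := Nat.lt_succ_sqrt' _
  have h2 : ((n * 1099511627776 : ℕ) : ℝ) ≤ (((Nat.sqrt (n * 1099511627776) + 1) ^ 2 : ℕ) : ℝ) := by
    exact_mod_cast h.le
  push_cast at h2 ⊢
  rw [div_pow, div_le_div_iff₀ (by norm_num) (by norm_num)]
  nlinarith

theorem sqrtL {a : ℝ} {n : ℕ} (ha : fx n ≤ a) : fx (sqL n) ≤ √a := by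
  refine le_trans ?_ (Real.sqrt_le_sqrt ha)
  refine Real.le_sqrt_of_sq_le ?_
  unfold fx sqL SC
  have h : Nat.sqrt (n * 1099511627776) ^ 2 ≤ n * 1099511627776 := Nat.sqrt_le' _
  have h2 : (((Nat.sqrt (n * 1099511627776)) ^ 2 : ℕ) : ℝ) ≤ ((n * 1099511627776 : ℕ) : ℝ) := by
    exact_mod_cast h
  push_cast at h2
  rw [div_pow, div_le_div_iff₀ (by norm_num) (by norm_num)]
  nlinarith

/-! ### the exponential function -/

/-- `1 + z + z²/2 + z³/6 + z⁴/24`, lower bound -/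
def eT (z : ℕ) : ℕ :=
  let z2 := mL z z
  let z3 := mL z2 z
  let z4 := mL z3 z
  SC + z + z2 / 2 + z3 / 6 + z4 / 24

/-- repeated squaring, lower bound -/
def sqN : ℕ → ℕ → ℕ
  | 0, n => n
  | k + 1, n => sqN k (mL n n)

/-- lower bound of `exp (fx a)`, argument divided by `2 ^ 8` -/
def eL (a : ℕ) : ℕ := sqN 8 (eT (a / 256))

/-- upper bound of `exp (-fx a)` -/
def eN (a : ℕ) : ℕ := dU SC (eL a)

theorem fx_div (m k : ℕ) (hk : 0 < k) : fx (m / k) ≤ fx m / k := by
  unfold fx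
  have hk' : (0 : ℝ) < k := by exact_mod_cast hk
  have h : ((m / k : ℕ) : ℝ) ≤ (m : ℝ) / (k : ℝ) := Nat.cast_div_le
  rw [div_right_comm]
  gcongr

theorem eT_le (z : ℕ) : fx (eT z) ≤ Real.exp (fx z) := by
  have h0 := fx_nonneg z
  have h2 := mL_le z z
  have h3 := (mL_le (mL z z) z).trans (mul_le_mul_of_nonneg_right h2 h0)
  have h4 := (mL_le (mL (mL z z) z) z).trans (mul_le_mul_of_nonneg_right h3 h0)
  have d2 := (fx_div (mL z z) 2 (by norm_num))
  have d3 := (fx_div (mL (mL z z) z) 6 (by norm_num))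
  have d4 := (fx_div (mL (mL (mL z z) z) z) 24 (by norm_num))
  have e := Real.sum_le_exp_of_nonneg h0 5
  simp only [Finset.sum_range_succ, Finset.sum_range_zero, Nat.factorial] at e
  norm_num at e d2 d3 d4
  unfold eT
  simp only [fx_add, fx_one]
  nlinarith

theorem sqN_le (k n : ℕ) (a : ℝ) (h : fx n ≤ Real.exp a) : fx (sqN k n) ≤ Real.exp (2 ^ k * a) := by
  induction k generalizing n a with
  | zero => simpa [sqN] using h
  | succ k ih =>
    have h2 : fx (mL n n) ≤ Real.exp (2 * a) := by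
      refine (mL_le n n).trans ?_
      rw [two_mul, Real.exp_add]
      exact mul_le_mul h h (fx_nonneg n) (Real.exp_pos _).le
    have := ih (mL n n) (2 * a) h2
    rw [sqN, pow_succ, mul_assoc]
    exact this

theorem eL_le (a : ℕ) : fx (eL a) ≤ Real.exp (fx a) := by
  have h := sqN_le 8 (eT (a / 256)) (fx (a / 256)) (eT_le _)
  refine h.trans (Real.exp_le_exp.2 ?_)
  have := fx_div a 256 (by norm_num)
  norm_num at this ⊢
  linarith

/-- `exp (-y)` for `y ≥ fx a` -/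
theorem expU {y : ℝ} {a : ℕ} (h : fx a ≤ y) (hp : 0 < eL a) : Real.exp (-y) ≤ fx (eN a) := by
  have h1 : Real.exp (-y) = 1 / Real.exp y := by rw [Real.exp_neg, one_div]
  rw [h1]
  exact divU (by rw [fx_one]) ((eL_le a).trans (Real.exp_le_exp.2 h)) hp

/-- `eL` is always positive -/
theorem eT_pos (z : ℕ) : SC ≤ eT z := by unfold eT; simp only; omega

theorem sqN_ge (k n : ℕ) (h : SC ≤ n) : SC ≤ sqN k n := by
  induction k generalizing n with
  | zero => simpa [sqN] using h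
  | succ k ih =>
    refine ih _ ?_
    unfold mL
    rw [Nat.le_div_iff_mul_le (by norm_num)]
    exact Nat.mul_le_mul h h

theorem eL_pos (a : ℕ) : 0 < eL a :=
  lt_of_lt_of_le (by norm_num) (sqN_ge 8 _ (eT_pos _))

theorem expNegU {y : ℝ} {a : ℕ} (h : fx a ≤ y) : Real.exp (-y) ≤ fx (eN a) := expU h (eL_pos a)

/-- upper bound of `exp T` for `0 ≤ T ≤ 1` -/
def eUp (t : ℕ) : ℕ :=
  let t2 := mU t t
  let t3 := mU t2 t
  SC + t + (t2 / 2 + 1) + mU 240029388344 t3

theorem exp_poly {T : ℝ} (h0 : 0 ≤ T) (h1 : T ≤ 1) :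
    Real.exp T ≤ 1 + T + T ^ 2 / 2 + 21830482 / 100000000 * T ^ 3 := by
  -- `exp T ≤ 1 + T + T²/2 + T³/6 + T⁴/24 + ...`
  have h := Real.exp_bound' h0 h1 (n := 9) (by norm_num)
  simp only [Finset.sum_range_succ, Finset.sum_range_zero, Nat.factorial] at h
  norm_num at h
  have a1 : T ^ 4 ≤ T ^ 3 := pow_le_pow_of_le_one h0 h1 (by norm_num)
  have a2 : T ^ 5 ≤ T ^ 3 := pow_le_pow_of_le_one h0 h1 (by norm_num)
  have a3 : T ^ 6 ≤ T ^ 3 := pow_le_pow_of_le_one h0 h1 (by norm_num)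
  have a4 : T ^ 7 ≤ T ^ 3 := pow_le_pow_of_le_one h0 h1 (by norm_num)
  have a5 : T ^ 8 ≤ T ^ 3 := pow_le_pow_of_le_one h0 h1 (by norm_num)
  have a6 : T ^ 9 ≤ T ^ 3 := pow_le_pow_of_le_one h0 h1 (by norm_num)
  have a0 : 0 ≤ T ^ 3 := by positivity
  nlinarith

theorem expPosU {T : ℝ} {t : ℕ} (h0 : 0 ≤ T) (h1 : T ≤ 1) (h : T ≤ fx t) :
    Real.exp T ≤ fx (eUp t) := by
  refine (exp_poly h0 h1).trans ?_
  have h2 : T ^ 2 ≤ fx (mU t t) := by
    have := mulU h h h0
    nlinarith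
  have h3 : T ^ 3 ≤ fx (mU (mU t t) t) := by
    have := mulU h2 h h0
    nlinarith
  have h4 : T ^ 2 / 2 ≤ fx (mU t t / 2 + 1) := by
    refine (div_le_div_of_nonneg_right h2 (by norm_num : (0:ℝ) ≤ 2)).trans ?_
    unfold fx
    have h5 : mU t t < (mU t t / 2 + 1) * 2 := by omega
    have h6 : ((mU t t : ℕ) : ℝ) ≤ (((mU t t / 2 + 1) * 2 : ℕ) : ℝ) := by exact_mod_cast h5.le
    push_cast at h6 ⊢
    rw [div_right_comm]
    gcongr
    linarith
  have h5 : 21830482 / 100000000 * T ^ 3 ≤ fx (mU 240029388344 (mU (mU t t) t)) := by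
    refine mulU ?_ h3 (by positivity)
    unfold fx
    norm_num
  rw [fx_add] at h4
  unfold eUp
  simp only [fx_add, fx_one]
  linarith

end SokalFN
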