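import Pool.Agent.Lib_MP_af4de1_fa.PathGen

/-!
# Absolute value bound for `c0 E + c1 DE + c2 D(D-1)E` at `w = r e^(i(θ - ρ + ρ/(2r)))`, `t = -i ρ/r`

Path `h = a + i s`, `a = clamp (s/√R)` in `[-1,1]`, `R = 1 + ρ²`.  The modulus of the integrand is
`exp (-r DD)`, the multiplier of `D` is `kp = r e^(a+i(θ+s))`.
-/

namespace SokalFA

open Complex MeasureTheory SokalU SokalPG

/-- The real part of the path. -/
noncomputable def pa (ρ s : ℝ) : ℝ := max (-1) (min 1 (s / √(1 + ρ ^ 2)))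

/-- One minus the exponent divided by `r`. -/
noncomputable def DD (ρ θ s : ℝ) : ℝ :=
  1 + pa ρ s + pa ρ s * s / ρ - Real.exp (pa ρ s) * Real.cos (θ + s)

/-- The multiplier. -/
noncomputable def kp (r ρ θ s : ℝ) : ℂ := r * cexp (pa ρ s + (θ + s) * I)

/-- The point. -/
noncomputable def wp (r ρ θ : ℝ) : ℂ := r * cexp ((θ - ρ + ρ / (2 * r)) * I)

theorem sqrt_R_pos (ρ : ℝ) : 0 < √(1 + ρ ^ 2) := Real.sqrt_pos.2 (by positivity)

theorem sqrt_R_ge (ρ : ℝ) : 1 ≤ √(1 + ρ ^ 2) := by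
  rw [Real.one_le_sqrt]; nlinarith [sq_nonneg ρ]

theorem cs_one (ρ : ℝ) : 1 / √(1 + ρ ^ 2) * √(1 + ρ ^ 2) = 1 := by
  have := sqrt_R_pos ρ
  field_simp

theorem pc_eq_pa (ρ s : ℝ) : pc (1 / √(1 + ρ ^ 2)) (√(1 + ρ ^ 2)) s = pa ρ s := by
  unfold pc pa
  rw [cs_one]
  congr 2
  ring

theorem pa_mem (ρ s : ℝ) : |pa ρ s| ≤ 1 := by
  unfold pa
  rw [abs_le]
  exact ⟨le_max_left _ _, max_le (by norm_num) (min_le_left _ _)⟩

@[fun_prop]
theorem continuous_pa (ρ : ℝ) : Continuous (pa ρ) := by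
  unfold pa
  fun_prop

theorem pa_mid {ρ s : ℝ} (h1 : -√(1 + ρ ^ 2) ≤ s) (h2 : s ≤ √(1 + ρ ^ 2)) :
    pa ρ s = s / √(1 + ρ ^ 2) := by
  have h := sqrt_R_pos ρ
  unfold pa
  have h3 : s / √(1 + ρ ^ 2) ≤ 1 := by rwa [div_le_one h]
  have h4 : -1 ≤ s / √(1 + ρ ^ 2) := by rw [le_div_iff₀ h]; linarith
  rw [min_eq_right h3, max_eq_right h4]

theorem pa_right {ρ s : ℝ} (h2 : √(1 + ρ ^ 2) ≤ s) : pa ρ s = 1 := by
  have h := sqrt_R_pos ρ
  unfold pa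
  have h3 : 1 ≤ s / √(1 + ρ ^ 2) := by rwa [le_div_iff₀ h, one_mul]
  rw [min_eq_left h3]
  norm_num

theorem pa_left {ρ s : ℝ} (h2 : s ≤ -√(1 + ρ ^ 2)) : pa ρ s = -1 := by
  have h := sqrt_R_pos ρ
  unfold pa
  have h3 : s / √(1 + ρ ^ 2) ≤ -1 := by rw [div_le_iff₀ h]; linarith
  rw [min_eq_right (by linarith), max_eq_left h3]

theorem norm_pv (ρ s : ℝ) :
    ‖pv (1 / √(1 + ρ ^ 2)) (√(1 + ρ ^ 2)) s‖ ≤ √(1 + 1 / (1 + ρ ^ 2)) := by
  unfold pv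
  split_ifs
  · have hR : (0 : ℝ) < 1 + ρ ^ 2 := by positivity
    have hsq : √(1 + ρ ^ 2) ^ 2 = 1 + ρ ^ 2 := Real.sq_sqrt hR.le
    have hs := sqrt_R_pos ρ
    have h1 : 1 / (1 + ρ ^ 2) = (1 / √(1 + ρ ^ 2)) ^ 2 := by rw [div_pow, hsq]; norm_num
    rw [h1]
    generalize 1 / √(1 + ρ ^ 2) = x
    rw [Complex.norm_def]
    apply Real.sqrt_le_sqrt
    rw [Complex.normSq_apply]
    simp only [Complex.sub_re, Complex.one_re, Complex.mul_re, Complex.ofReal_re,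
      Complex.I_re, Complex.ofReal_im, Complex.I_im, Complex.sub_im, Complex.one_im,
      Complex.mul_im]
    apply le_of_eq
    ring
  · rw [norm_one, Real.one_le_sqrt]
    have : (0 : ℝ) ≤ 1 / (1 + ρ ^ 2) := by positivity
    linarith

/-- The modulus of `f` on the path. -/
theorem norm_f_path {r ρ : ℝ} (hr : 0 < r) (hρ : 0 < ρ) (θ s : ℝ) :
    ‖f (-(((ρ / r : ℝ) : ℂ) * I)) r (θ * I) (pa ρ s + s * I)‖ = Real.exp (-(r * DD ρ θ s)) := by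
  set a := pa ρ s with hadef
  have hδ : 0 < ρ / r := by positivity
  have ht := t0_inv hδ
  unfold f
  rw [Complex.norm_exp]
  congr 1
  have h1 : ((a : ℂ) + s * I) ^ 2 / (2 * (-(((ρ / r : ℝ) : ℂ) * I))) =
      ((-(a * s * (r / ρ)) : ℝ) : ℂ) +
      (((a ^ 2 - s ^ 2) * (r / ρ) / 2 : ℝ) : ℂ) * I := by
    have h2 : ((a : ℂ) + s * I) ^ 2 / (2 * (-(((ρ / r : ℝ) : ℂ) * I))) =
        ((a : ℂ) + s * I) ^ 2 * (-(((ρ / r : ℝ) : ℂ) * I))⁻¹ / 2 := by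
      rw [mul_comm (2 : ℂ) _, ← div_div, div_eq_mul_inv _ (-(((ρ / r : ℝ) : ℂ) * I))]
    have h4 : (1 / (ρ / r) : ℝ) = r / ρ := by field_simp
    rw [h2, ht, h4]
    have h3 := Complex.I_sq
    push_cast
    linear_combination (((s : ℂ) ^ 2 * ((r / ρ) * I)) / 2 + (a : ℂ) * s * (r / ρ)) * h3
  have h4 : ((r : ℂ) * (cexp (θ * I + (a + s * I)) - 1 - (a + s * I))).re =
      r * (Real.exp a * Real.cos (θ + s) - 1 - a) := by
    have h5 : (θ : ℂ) * I + (a + s * I) = (a : ℂ) + ((θ + s : ℝ) : ℂ) * I := by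
      push_cast; ring
    rw [h5, Complex.re_ofReal_mul]
    congr 1
    simp only [Complex.sub_re, Complex.add_re, Complex.one_re, Complex.ofReal_re,
      Complex.mul_re, Complex.I_re, Complex.I_im, Complex.ofReal_im]
    rw [Complex.exp_re]
    simp only [Complex.add_re, Complex.add_im, Complex.mul_re, Complex.mul_im, Complex.ofReal_re,
      Complex.ofReal_im, Complex.I_re, Complex.I_im]
    ring_nf
  have h8 : ∀ u v : ℝ, ((u : ℂ) + (v : ℂ) * I).re = u := fun u v => by simp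
  rw [Complex.add_re, h4, h1, h8]
  unfold DD
  rw [← hadef]
  field_simp
  ring

theorem norm_gcst (r ρ : ℝ) (hr : 0 < r) (hρ : 0 < ρ) :
    ‖gcst (-(((ρ / r : ℝ) : ℂ) * I))⁻¹‖ = √(2 * Real.pi * (ρ / r)) := by
  have hδ : 0 < ρ / r := by positivity
  have h2 : ‖2 * (Real.pi : ℂ) * (-(((ρ / r : ℝ) : ℂ) * I))‖ = 2 * Real.pi * (ρ / r) := by
    rw [norm_mul, norm_mul, norm_neg, norm_mul, Complex.norm_real, Complex.norm_real,
      Real.norm_of_nonneg Real.pi_pos.le, Complex.norm_I, Real.norm_of_nonneg hδ.le]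
    norm_num
  have h3 : ((1 / 2 : ℝ) : ℂ) = 1 / 2 := by push_cast; ring
  rw [gcst_inv, Real.sqrt_eq_rpow, ← h2, ← h3, Complex.norm_cpow_real]

theorem norm_cexp_S (r ρ : ℝ) : ‖cexp (S (-(((ρ / r : ℝ) : ℂ) * I)) r)‖ = Real.exp r := by
  rw [Complex.norm_exp]
  congr 1
  unfold S
  have : (-(((ρ / r : ℝ) : ℂ) * I)) * (r : ℂ) ^ 2 / 2 = ((-(ρ / r * r ^ 2 / 2) : ℝ) : ℂ) * I := by
    push_cast; ring
  have h8 : ∀ v : ℝ, ((v : ℂ) * I).re = 0 := fun v => by simp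
  rw [this, Complex.add_re, Complex.ofReal_re, h8, add_zero]

theorem zp_wp {r ρ θ : ℝ} (hr : 0 < r) :
    zp (-(((ρ / r : ℝ) : ℂ) * I)) r * cexp (θ * I) = wp r ρ θ := by
  unfold zp wp
  rw [mul_assoc, ← Complex.exp_add]
  congr 2
  have h1 : ((r : ℂ)) ≠ 0 := by exact_mod_cast hr.ne'
  push_cast
  field_simp
  ring

theorem kp_eq (r ρ θ s : ℝ) : (r : ℂ) * cexp (θ * I + (pa ρ s + s * I)) = kp r ρ θ s := by
  unfold kp
  congr 2
  ring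

theorem norm_kp {r : ℝ} (hr : 0 < r) (ρ θ s : ℝ) : ‖kp r ρ θ s‖ = r * Real.exp (pa ρ s) := by
  unfold kp
  rw [norm_mul, Complex.norm_real, Real.norm_of_nonneg hr.le, Complex.norm_exp]
  simp

theorem ofReal_integral_norm_le_lintegral_aux (g : ℝ → ℂ) (b : ℝ → ℝ) (h : ∀ s, ‖g s‖ ≤ b s) :
    ENNReal.ofReal ‖∫ s : ℝ, g s‖ ≤ ∫⁻ s : ℝ, ENNReal.ofReal (b s) := by
  rw [ofReal_norm]
  refine (enorm_integral_le_lintegral_enorm _).trans ?_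
  refine lintegral_mono fun s => ?_
  rw [← ofReal_norm]
  exact ENNReal.ofReal_le_ofReal (h s)

/-- THE ABSOLUTE BOUND. -/
theorem abs_bound {r ρ : ℝ} (hr : 0 < r) (hρ : 0 < ρ) (θ : ℝ) (c0 c1 c2 : ℂ) :
    ENNReal.ofReal ‖c0 * Ef 0 (-(((ρ / r : ℝ) : ℂ) * I)) (wp r ρ θ) +
      c1 * Ef 1 (-(((ρ / r : ℝ) : ℂ) * I)) (wp r ρ θ) +
      c2 * Ef 2 (-(((ρ / r : ℝ) : ℂ) * I)) (wp r ρ θ)‖ ≤
    ENNReal.ofReal (√(r / (2 * Real.pi * ρ)) * Real.exp r) *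
      ∫⁻ s : ℝ, ENNReal.ofReal (√(1 + 1 / (1 + ρ ^ 2)) *
        ‖c0 + c1 * kp r ρ θ s + c2 * kp r ρ θ s ^ 2‖ * Real.exp (-(r * DD ρ θ s))) := by
  have hδ : 0 < ρ / r := by positivity
  set t : ℂ := -(((ρ / r : ℝ) : ℂ) * I) with ht
  set c : ℝ := 1 / √(1 + ρ ^ 2) with hc
  set s1 : ℝ := √(1 + ρ ^ 2) with hs1
  have hcpos : 0 < c := by have := sqrt_R_pos ρ; positivity
  have hspos : 0 < s1 := sqrt_R_pos ρ
  have hcs : c * s1 ≤ 1 := (cs_one ρ).le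
  have hk : |((r : ℂ)).im| < c * s1 / (ρ / r) := by
    rw [Complex.ofReal_im, abs_zero, cs_one ρ]; positivity
  have key : ∀ j : ℕ, gcst t⁻¹ * Ef j t (wp r ρ θ) = cexp (S t r) *
      ∫ s : ℝ, gi c s1 (fun h => ((r : ℂ) * cexp (θ * I + h)) ^ j) r (θ * I) t s := by
    intro j
    have h := path_formula hcpos hspos hcs hδ (r : ℂ) (θ * I) hk j
    rw [← ht, zp_wp hr] at h
    exact h
  have hint : ∀ j : ℕ, Integrable (gi c s1 (fun h => ((r : ℂ) * cexp (θ * I + h)) ^ j) r (θ * I) t) :=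
    fun j => integrable_path hcpos hspos hcs hδ (r : ℂ) (θ * I) hk (Wt_pow (r : ℂ) (θ * I) j)
  have hsum : gcst t⁻¹ * (c0 * Ef 0 t (wp r ρ θ) + c1 * Ef 1 t (wp r ρ θ) +
      c2 * Ef 2 t (wp r ρ θ)) = cexp (S t r) * ∫ s : ℝ,
      (c0 * gi c s1 (fun h => ((r : ℂ) * cexp (θ * I + h)) ^ 0) r (θ * I) t s +
      c1 * gi c s1 (fun h => ((r : ℂ) * cexp (θ * I + h)) ^ 1) r (θ * I) t s +
      c2 * gi c s1 (fun h => ((r : ℂ) * cexp (θ * I + h)) ^ 2) r (θ * I) t s) := by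
    have hA : Integrable fun s =>
        c0 * gi c s1 (fun h => ((r : ℂ) * cexp (θ * I + h)) ^ 0) r (θ * I) t s +
        c1 * gi c s1 (fun h => ((r : ℂ) * cexp (θ * I + h)) ^ 1) r (θ * I) t s :=
      ((hint 0).const_mul c0).add ((hint 1).const_mul c1)
    rw [integral_add hA ((hint 2).const_mul c2),
      integral_add ((hint 0).const_mul c0) ((hint 1).const_mul c1),
      integral_const_mul, integral_const_mul, integral_const_mul]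
    linear_combination c0 * key 0 + c1 * key 1 + c2 * key 2
  have hpt : ∀ s : ℝ, ‖c0 * gi c s1 (fun h => ((r : ℂ) * cexp (θ * I + h)) ^ 0) r (θ * I) t s +
      c1 * gi c s1 (fun h => ((r : ℂ) * cexp (θ * I + h)) ^ 1) r (θ * I) t s +
      c2 * gi c s1 (fun h => ((r : ℂ) * cexp (θ * I + h)) ^ 2) r (θ * I) t s‖ ≤
      √(1 + 1 / (1 + ρ ^ 2)) *
        ‖c0 + c1 * kp r ρ θ s + c2 * kp r ρ θ s ^ 2‖ * Real.exp (-(r * DD ρ θ s)) := by
    intro s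
    have hpz : pz c s1 s = (pa ρ s : ℂ) + s * I := by
      unfold pz
      rw [hc, hs1, pc_eq_pa]
    have e1 : c0 * gi c s1 (fun h => ((r : ℂ) * cexp (θ * I + h)) ^ 0) r (θ * I) t s +
      c1 * gi c s1 (fun h => ((r : ℂ) * cexp (θ * I + h)) ^ 1) r (θ * I) t s +
      c2 * gi c s1 (fun h => ((r : ℂ) * cexp (θ * I + h)) ^ 2) r (θ * I) t s =
      pv c s1 s * (c0 + c1 * kp r ρ θ s + c2 * kp r ρ θ s ^ 2) *
        f t r (θ * I) (pa ρ s + s * I) := by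
      simp only [gi, hpz, kp_eq]
      ring
    rw [e1, norm_mul, norm_mul, ht, norm_f_path hr hρ]
    have h1 := norm_pv ρ s
    gcongr
  have hG : ‖gcst t⁻¹‖ = √(2 * Real.pi * (ρ / r)) := norm_gcst r ρ hr hρ
  have hSn : ‖cexp (S t r)‖ = Real.exp r := norm_cexp_S r ρ
  have hmain : ENNReal.ofReal (√(2 * Real.pi * (ρ / r))) *
      ENNReal.ofReal ‖c0 * Ef 0 t (wp r ρ θ) + c1 * Ef 1 t (wp r ρ θ) +
      c2 * Ef 2 t (wp r ρ θ)‖ ≤ ENNReal.ofReal (Real.exp r) *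
      ∫⁻ s : ℝ, ENNReal.ofReal (√(1 + 1 / (1 + ρ ^ 2)) *
        ‖c0 + c1 * kp r ρ θ s + c2 * kp r ρ θ s ^ 2‖ * Real.exp (-(r * DD ρ θ s))) := by
    rw [← ENNReal.ofReal_mul (Real.sqrt_nonneg _), ← hG, ← norm_mul, hsum, norm_mul, hSn,
      ENNReal.ofReal_mul (Real.exp_pos _).le]
    refine mul_le_mul_right ?_ _
    refine (ofReal_integral_norm_le_lintegral_aux _ _ ?_)
    exact hpt
  have hc2 : √(r / (2 * Real.pi * ρ)) * √(2 * Real.pi * (ρ / r)) = 1 := by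
    rw [← Real.sqrt_mul (by positivity)]
    have : r / (2 * Real.pi * ρ) * (2 * Real.pi * (ρ / r)) = 1 := by
      have := Real.pi_pos
      field_simp
    rw [this, Real.sqrt_one]
  calc ENNReal.ofReal ‖c0 * Ef 0 t (wp r ρ θ) + c1 * Ef 1 t (wp r ρ θ) +
      c2 * Ef 2 t (wp r ρ θ)‖ = ENNReal.ofReal (√(r / (2 * Real.pi * ρ))) *
        (ENNReal.ofReal (√(2 * Real.pi * (ρ / r))) *
      ENNReal.ofReal ‖c0 * Ef 0 t (wp r ρ θ) + c1 * Ef 1 t (wp r ρ θ) +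
      c2 * Ef 2 t (wp r ρ θ)‖) := by
        rw [← mul_assoc, ← ENNReal.ofReal_mul (Real.sqrt_nonneg _), hc2, ENNReal.ofReal_one, one_mul]
    _ ≤ _ := by
        rw [ENNReal.ofReal_mul (Real.sqrt_nonneg _),
          mul_assoc (ENNReal.ofReal √(r / (2 * Real.pi * ρ)))]
        exact mul_le_mul_right hmain _

end SokalFA
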