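import Pool.Agent.Lib_MP_af4de1_fa.FarRep
import Pool.Agent.Lib_MP_af4de1_f1.Dec

/-!
# From the real integrals to the far waves of `SokalF1.dec`

`t = tt del = -i del`, `w_j = SokalF1.wp r del θ_j`, `ρ = r del`, `R = 1 + ρ²`.
-/

namespace SokalFA

open Complex MeasureTheory SokalU SokalPG

theorem D2E_eq (t z : ℂ) : SokalBPlus.D2E t z = Ef 1 t z + Ef 2 t z := by
  unfold SokalBPlus.D2E
  rw [Ef_one]
  congr 1
  unfold DE Ef
  have e1 : cexp (-t) * (cexp (-t) * z) = cexp (-(t * ((2 : ℕ) : ℂ))) * z := by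
    rw [← mul_assoc, ← Complex.exp_add]
    congr 2
    push_cast
    ring
  have e2 : cexp (-(t * (((2 : ℕ) : ℂ) * (((2 : ℕ) : ℂ) - 1) / 2))) = cexp (-t) := by
    congr 1
    push_cast
    ring
  rw [e1, e2]
  ring

theorem tt_eq {r del : ℝ} (hr : 0 < r) :
    SokalF1.tt del = -(((r * del / r : ℝ) : ℂ) * I) := by
  unfold SokalF1.tt
  have : r * del / r = del := by field_simp
  rw [this]

theorem wp_eq {r del : ℝ} (hr : 0 < r) (θ : ℝ) : SokalF1.wp r del θ = wp r (r * del) θ := by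
  unfold SokalF1.wp wp
  congr 3
  have h1 : ((r : ℂ)) ≠ 0 := by exact_mod_cast hr.ne'
  push_cast
  field_simp

/-- Absolute bound in the notation of `SokalF1.dec`. -/
theorem wave_bound {r del : ℝ} (hr : 0 < r) (hd : 0 < del) (θ : ℝ) (c0 c1 c2 : ℂ) :
    ENNReal.ofReal ‖c0 * E (SokalF1.tt del) (SokalF1.wp r del θ) +
      c1 * DE (SokalF1.tt del) (SokalF1.wp r del θ) +
      c2 * SokalBPlus.D2E (SokalF1.tt del) (SokalF1.wp r del θ)‖ ≤
    ENNReal.ofReal (√(r / (2 * Real.pi * (r * del))) * Real.exp r) *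
      ∫⁻ s : ℝ, ENNReal.ofReal (√(1 + 1 / (1 + (r * del) ^ 2)) *
        ‖c0 + c1 * kp r (r * del) θ s + c2 * (kp r (r * del) θ s ^ 2 + kp r (r * del) θ s)‖ *
          Real.exp (-(r * DD (r * del) θ s))) := by
  have h := abs_bound hr (mul_pos hr hd) θ c0 (c1 + c2) c2
  rw [← tt_eq hr, ← wp_eq hr] at h
  have e1 : c0 * E (SokalF1.tt del) (SokalF1.wp r del θ) +
      c1 * DE (SokalF1.tt del) (SokalF1.wp r del θ) +
      c2 * SokalBPlus.D2E (SokalF1.tt del) (SokalF1.wp r del θ) =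
      c0 * Ef 0 (SokalF1.tt del) (SokalF1.wp r del θ) +
      (c1 + c2) * Ef 1 (SokalF1.tt del) (SokalF1.wp r del θ) +
      c2 * Ef 2 (SokalF1.tt del) (SokalF1.wp r del θ) := by
    rw [D2E_eq, Ef_zero, Ef_one]
    ring
  rw [e1]
  refine h.trans (le_of_eq ?_)
  congr 1
  refine lintegral_congr fun s => ?_
  congr 3
  ring_nf

/-- The sum over a finite set of waves. -/
theorem sum_bound {r del : ℝ} (hr : 0 < r) (hd : 0 < del) {ι : Type*} (J : Finset ι) (θ : ι → ℝ)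
    (c0 c1 c2 : ℂ) {B : ℝ} (hB : 0 ≤ B)
    (h : ∑ j ∈ J, ∫⁻ s : ℝ, ENNReal.ofReal (√(1 + 1 / (1 + (r * del) ^ 2)) *
        ‖c0 + c1 * kp r (r * del) (θ j) s +
          c2 * (kp r (r * del) (θ j) s ^ 2 + kp r (r * del) (θ j) s)‖ *
          Real.exp (-(r * DD (r * del) (θ j) s))) ≤ ENNReal.ofReal B) :
    ∑ j ∈ J, ‖c0 * E (SokalF1.tt del) (SokalF1.wp r del (θ j)) +
      c1 * DE (SokalF1.tt del) (SokalF1.wp r del (θ j)) +
      c2 * SokalBPlus.D2E (SokalF1.tt del) (SokalF1.wp r del (θ j))‖ ≤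
      √(r / (2 * Real.pi * (r * del))) * Real.exp r * B := by
  have hP : 0 ≤ √(r / (2 * Real.pi * (r * del))) * Real.exp r := by positivity
  rw [← ENNReal.ofReal_le_ofReal_iff (by positivity),
    ENNReal.ofReal_sum_of_nonneg (fun _ _ => norm_nonneg _), ENNReal.ofReal_mul hP]
  refine (Finset.sum_le_sum fun j _ => wave_bound hr hd (θ j) c0 c1 c2).trans ?_
  rw [← Finset.mul_sum]
  exact mul_le_mul_right h _

/-- With a positive real majorant of the weight. -/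
theorem sum_bound' {r del : ℝ} (hr : 0 < r) (hd : 0 < del) {ι : Type*} (J : Finset ι) (θ : ι → ℝ)
    (c0 c1 c2 : ℂ) (ω : ι → ℝ → ℝ)
    (hω : ∀ j ∈ J, ∀ s, ‖c0 + c1 * kp r (r * del) (θ j) s +
          c2 * (kp r (r * del) (θ j) s ^ 2 + kp r (r * del) (θ j) s)‖ ≤ ω j s) {B : ℝ} (hB : 0 ≤ B)
    (h : ∑ j ∈ J, ∫⁻ s : ℝ, ENNReal.ofReal (√(1 + 1 / (1 + (r * del) ^ 2)) * ω j s *
          Real.exp (-(r * DD (r * del) (θ j) s))) ≤ ENNReal.ofReal B) :
    ∑ j ∈ J, ‖c0 * E (SokalF1.tt del) (SokalF1.wp r del (θ j)) +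
      c1 * DE (SokalF1.tt del) (SokalF1.wp r del (θ j)) +
      c2 * SokalBPlus.D2E (SokalF1.tt del) (SokalF1.wp r del (θ j))‖ ≤
      √(r / (2 * Real.pi * (r * del))) * Real.exp r * B := by
  refine sum_bound hr hd J θ c0 c1 c2 hB ((Finset.sum_le_sum fun j hj => ?_).trans h)
  refine lintegral_mono fun s => ENNReal.ofReal_le_ofReal ?_
  have := hω j hj s
  gcongr

/-- Weighted sums with coefficients of modulus `g0`. -/
theorem coef_bound {ι : Type*} (J : Finset ι) {g0 : ℝ} (hg : 0 ≤ g0) (c : ι → ℂ)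
    (hc : ∀ j ∈ J, ‖c j‖ = g0) (P : ι → ℂ) {B : ℝ} (h : ∑ j ∈ J, ‖P j‖ ≤ B) :
    ‖∑ j ∈ J, c j * P j‖ ≤ g0 * B := by
  refine (norm_sum_le _ _).trans ?_
  calc ∑ j ∈ J, ‖c j * P j‖ = ∑ j ∈ J, g0 * ‖P j‖ := by
        refine Finset.sum_congr rfl fun j hj => ?_
        rw [norm_mul, hc j hj]
    _ = g0 * ∑ j ∈ J, ‖P j‖ := by rw [Finset.mul_sum]
    _ ≤ g0 * B := by gcongr

end SokalFA
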