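import Mathlib

/-!
# FAR, stage 1: chains of waves (pure real analysis)

`gw V u = exp (-V (1 - cos u))`, `sg V h = 1/(1 - exp (-V (1 - cos h)))`.

PLAN.
* `cos_superadd`: `1 - cos (a+b) - (1 - cos a) - (1 - cos b) = (1 - cos a)(cos b - ... )`, or with half
  angles `1 - cos = 2 sin^2`: for `a, b ≥ 0`, `a + b ≤ π`:
  `1 - cos (a+b) - (1 - cos a) - (1 - cos b) = 4 sin(a/2) sin(b/2) cos((a+b)/2) ≥ 0`.
* `mul_cos_le`: induction on `k` with `cos_superadd`.
* `far_chain`: termwise.  `h = 2π/N`, `rho = exp(-(V(1-cos h)))` in `(0,1)`.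
  `j ∈ [1, N-2]`. If `ψ + j h ≤ π`: `ψ + j h = (ψ + h) + (j-1) h`, `ψ + h ≥ 0`, so
  `gw V (ψ+jh) ≤ gw V (ψ+h) * rho^(j-1)` and `ψ + h ≤ π`.
  If `ψ + j h > π`: `cos (ψ+jh) = cos (2π - ψ - j h) = cos ((2h - ψ) + (N-2-j) h)`, `2h - ψ ≥ 0`, total `< π`,
  so `gw V (ψ+jh) ≤ gw V (2h-ψ) * rho^(N-2-j)`.
  Hence termwise `gw ≤ (if ..) rho^(N-2-j) + (if ..) rho^(j-1)`, and both geometric sums are
  `≤ 1/(1-rho) = sg V h`.
* `all_chain`: the same with `j ∈ [0, N-1]`: `ψ + j h ≤ π`: `gw V (ψ+jh) ≤ gw V ψ * rho^j`;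
  otherwise `2π - ψ - j h = (h - ψ) + (N-1-j) h`: `≤ gw V (h-ψ) * rho^(N-1-j)`.
-/

namespace SokalFA

open Real Finset

/-- one wave -/
noncomputable def gw (V u : ℝ) : ℝ := Real.exp (-(V * (1 - Real.cos u)))

/-- the geometric factor -/
noncomputable def sg (V h : ℝ) : ℝ := 1 / (1 - Real.exp (-(V * (1 - Real.cos h))))

theorem gw_pos (V u : ℝ) : 0 < gw V u := Real.exp_pos _

theorem gw_le_one {V : ℝ} (hV : 0 ≤ V) (u : ℝ) : gw V u ≤ 1 := by
  unfold gw
  rw [Real.exp_le_one_iff]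
  have := Real.cos_le_one u
  have : 0 ≤ V * (1 - Real.cos u) := mul_nonneg hV (by linarith)
  linarith

@[fun_prop]
theorem continuous_gw (V : ℝ) : Continuous (gw V) := by
  unfold gw; fun_prop

theorem cos_superadd {a b : ℝ} (ha : 0 ≤ a) (hb : 0 ≤ b) (hab : a + b ≤ π) :
    (1 - cos a) + (1 - cos b) ≤ 1 - cos (a + b) := by
  obtain ⟨x, rfl⟩ : ∃ x, a = 2 * x := ⟨a / 2, by ring⟩
  obtain ⟨y, rfl⟩ : ∃ y, b = 2 * y := ⟨b / 2, by ring⟩
  have hx : 0 ≤ sin x := sin_nonneg_of_nonneg_of_le_pi (by linarith) (by linarith)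
  have hy : 0 ≤ sin y := sin_nonneg_of_nonneg_of_le_pi (by linarith) (by linarith)
  have hxy : 0 ≤ cos (x + y) :=
    cos_nonneg_of_neg_pi_div_two_le_of_le (by linarith [pi_pos]) (by linarith)
  have e1 : cos (2 * x + 2 * y) = 2 * cos (x + y) ^ 2 - 1 := by
    rw [← cos_two_mul]; ring_nf
  have e2 : cos (2 * x) = 1 - 2 * sin x ^ 2 := by
    rw [cos_two_mul, cos_sq']; ring
  have e3 : cos (2 * y) = 1 - 2 * sin y ^ 2 := by
    rw [cos_two_mul, cos_sq']; ring
  have e4 : cos (x + y) = cos x * cos y - sin x * sin y := cos_add x y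
  have key : (1 - cos (2 * x + 2 * y)) - ((1 - cos (2 * x)) + (1 - cos (2 * y))) =
      4 * (cos (x + y) * (sin x * sin y)) := by
    rw [e1, e2, e3, e4]
    have cx : cos x ^ 2 = 1 - sin x ^ 2 := cos_sq' x
    have cy : cos y ^ 2 = 1 - sin y ^ 2 := cos_sq' y
    linear_combination (-2) * cos y ^ 2 * cx + (-2) * (1 - sin x ^ 2) * cy
  have h0 : 0 ≤ 4 * (cos (x + y) * (sin x * sin y)) := by positivity
  linarith

theorem mul_cos_le {h : ℝ} (hh : 0 ≤ h) (k : ℕ) (hk : k * h ≤ π) :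
    k * (1 - cos h) ≤ 1 - cos (k * h) := by
  induction k with
  | zero => simp
  | succ k ih =>
    push_cast at hk ⊢
    have hk0 : (0 : ℝ) ≤ (k : ℝ) * h := by positivity
    have h1 : (k : ℝ) * h ≤ π := by nlinarith
    have h2 := ih h1
    have h3 := cos_superadd hk0 hh (by linarith)
    have e : ((k : ℝ) + 1) * h = k * h + h := by ring
    rw [e]
    linarith

private theorem cos_lt_one' {h : ℝ} (hh : 0 < h) (hh2 : h < 2 * π) : cos h < 1 := by
  have e : cos h = 1 - 2 * sin (h / 2) ^ 2 := by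
    have : h = 2 * (h / 2) := by ring
    conv_lhs => rw [this]
    rw [cos_two_mul, cos_sq']; ring
  have hs : 0 < sin (h / 2) := sin_pos_of_pos_of_lt_pi (by linarith) (by linarith)
  have : 0 < sin (h / 2) ^ 2 := by positivity
  linarith

private theorem rho_lt_one {V h : ℝ} (hV : 0 < V) (hh : 0 < h) (hh2 : h < 2 * π) :
    gw V h < 1 := by
  unfold gw
  rw [Real.exp_lt_one_iff]
  have := cos_lt_one' hh hh2
  have : 0 < V * (1 - cos h) := mul_pos hV (by linarith)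
  linarith

theorem sg_ge_one {V h : ℝ} (hV : 0 < V) (hh : 0 < h) (hh2 : h < 2 * π) : 1 ≤ sg V h := by
  have h1 : gw V h < 1 := rho_lt_one hV hh hh2
  have h2 : 0 < gw V h := gw_pos V h
  have e : sg V h = 1 / (1 - gw V h) := rfl
  rw [e, le_div_iff₀ (by linarith)]
  linarith

private theorem geo {ρ : ℝ} (h0 : 0 ≤ ρ) (h1 : ρ < 1) (n : ℕ) :
    ∑ i ∈ Finset.range n, ρ ^ i ≤ 1 / (1 - ρ) := by
  rw [le_div_iff₀ (by linarith), mul_comm, mul_neg_geom_sum]
  have : 0 ≤ ρ ^ n := by positivity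
  linarith

private theorem chain_step {V a h : ℝ} (hV : 0 < V) (ha : 0 ≤ a) (hh : 0 ≤ h) (k : ℕ)
    (hk : a + k * h ≤ π) : gw V (a + k * h) ≤ gw V a * gw V h ^ k := by
  have h1 : (0 : ℝ) ≤ (k : ℝ) * h := by positivity
  have h2 := cos_superadd ha h1 hk
  have h3 := mul_cos_le hh k (by linarith)
  unfold gw
  rw [← Real.exp_nat_mul, ← Real.exp_add, Real.exp_le_exp]
  have h4 : (1 - cos a) + k * (1 - cos h) ≤ 1 - cos (a + k * h) := by linarith
  have h5 := mul_le_mul_of_nonneg_left h4 hV.le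
  have e : -(V * (1 - cos a)) + ↑k * -(V * (1 - cos h)) =
      -(V * ((1 - cos a) + k * (1 - cos h))) := by ring
  rw [e]
  linarith

private theorem gw_reflect (V u : ℝ) : gw V (2 * π - u) = gw V u := by
  unfold gw
  rw [Real.cos_two_pi_sub]

/-- The far waves `1 ≤ j ≤ N-2`, `ψ` = angle of the wave `0`. -/
theorem far_chain {N : ℕ} (hN : 3 ≤ N) {V ψ : ℝ} (hV : 0 < V) (h1 : -(2 * π / N) ≤ ψ)
    (h2 : ψ ≤ 2 * (2 * π / N)) :
    ∑ j ∈ Finset.Ico 1 (N - 1), gw V (ψ + j * (2 * π / N)) ≤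
      sg V (2 * π / N) * ((if 2 * (2 * π / N) - ψ ≤ π then gw V (2 * (2 * π / N) - ψ) else 0) +
        (if ψ + 2 * π / N ≤ π then gw V (ψ + 2 * π / N) else 0)) := by
  have hN0 : (0 : ℝ) < N := by
    have : 0 < N := by omega
    exact_mod_cast this
  have hN1 : (3 : ℝ) ≤ N := by exact_mod_cast hN
  obtain ⟨h, hh⟩ : ∃ h : ℝ, h = 2 * π / N := ⟨_, rfl⟩
  rw [← hh] at h1 h2 ⊢
  have hNh : (N : ℝ) * h = 2 * π := by rw [hh]; field_simp
  have hpos : 0 < h := by rw [hh]; positivity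
  have hlt : h < 2 * π := by nlinarith [pi_pos]
  obtain ⟨A, hA⟩ : ∃ A : ℝ, A = (if 2 * h - ψ ≤ π then gw V (2 * h - ψ) else 0) := ⟨_, rfl⟩
  obtain ⟨B, hB⟩ : ∃ B : ℝ, B = (if ψ + h ≤ π then gw V (ψ + h) else 0) := ⟨_, rfl⟩
  rw [← hA, ← hB]
  have hA0 : 0 ≤ A := by
    rw [hA]; split_ifs
    · exact (gw_pos _ _).le
    · exact le_rfl
  have hB0 : 0 ≤ B := by
    rw [hB]; split_ifs
    · exact (gw_pos _ _).le
    · exact le_rfl
  have hr0 : 0 ≤ gw V h := (gw_pos _ _).le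
  have hr1 : gw V h < 1 := rho_lt_one hV hpos hlt
  have term : ∀ j ∈ Finset.Ico 1 (N - 1), gw V (ψ + j * h) ≤
      A * gw V h ^ (N - 2 - j) + B * gw V h ^ (j - 1) := by
    intro j hj
    rw [Finset.mem_Ico] at hj
    obtain ⟨i, rfl⟩ : ∃ i, j = i + 1 := ⟨j - 1, by omega⟩
    obtain ⟨l, hl⟩ : ∃ l, N = i + 1 + 2 + l := ⟨N - (i + 1) - 2, by omega⟩
    have e1 : N - 2 - (i + 1) = l := by omega
    have e2 : i + 1 - 1 = i := by omega
    rw [e1, e2]
    have hlR : (N : ℝ) = i + 1 + 2 + l := by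
      rw [hl]; push_cast; ring
    have hAl : 0 ≤ A * gw V h ^ l := by positivity
    have hBi : 0 ≤ B * gw V h ^ i := by positivity
    by_cases hc : ψ + ((i + 1 : ℕ) : ℝ) * h ≤ π
    · have e : ψ + ((i + 1 : ℕ) : ℝ) * h = (ψ + h) + i * h := by push_cast; ring
      rw [e] at hc ⊢
      have hi0 : (0 : ℝ) ≤ (i : ℝ) * h := by positivity
      have hB' : B = gw V (ψ + h) := by
        rw [hB, if_pos (by linarith)]
      have := chain_step hV (by linarith : 0 ≤ ψ + h) hpos.le i hc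
      rw [← hB'] at this
      linarith
    · have hc' := lt_of_not_ge hc
      have e : ψ + ((i + 1 : ℕ) : ℝ) * h = 2 * π - ((2 * h - ψ) + l * h) := by
        rw [← hNh, hlR]; push_cast; ring
      rw [e] at hc' ⊢
      rw [gw_reflect]
      have hl0 : (0 : ℝ) ≤ (l : ℝ) * h := by positivity
      have hA' : A = gw V (2 * h - ψ) := by
        rw [hA, if_pos (by linarith)]
      have := chain_step hV (by linarith : 0 ≤ 2 * h - ψ) hpos.le l (by linarith)
      rw [← hA'] at this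
      linarith
  refine (Finset.sum_le_sum term).trans ?_
  rw [Finset.sum_add_distrib, ← Finset.mul_sum, ← Finset.mul_sum]
  have s1 : ∑ j ∈ Finset.Ico 1 (N - 1), gw V h ^ (N - 2 - j) =
      ∑ i ∈ Finset.range (N - 2), gw V h ^ i := by
    rw [Finset.sum_Ico_eq_sum_range, show N - 1 - 1 = N - 2 by omega,
      ← Finset.sum_range_reflect]
    apply Finset.sum_congr rfl
    intro i hi
    rw [Finset.mem_range] at hi
    rw [show N - 2 - (1 + (N - 2 - 1 - i)) = i by omega]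
  have s2 : ∑ j ∈ Finset.Ico 1 (N - 1), gw V h ^ (j - 1) =
      ∑ i ∈ Finset.range (N - 2), gw V h ^ i := by
    rw [Finset.sum_Ico_eq_sum_range, show N - 1 - 1 = N - 2 by omega]
    apply Finset.sum_congr rfl
    intro i _
    rw [show 1 + i - 1 = i by omega]
  rw [s1, s2]
  have hg := geo hr0 hr1 (N - 2)
  have e : sg V h = 1 / (1 - gw V h) := rfl
  rw [e]
  have g1 := mul_le_mul_of_nonneg_left hg hA0
  have g2 := mul_le_mul_of_nonneg_left hg hB0
  calc _ ≤ A * (1 / (1 - gw V h)) + B * (1 / (1 - gw V h)) := by linarith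
    _ = _ := by ring

/-- All waves. -/
theorem all_chain {N : ℕ} (hN : 3 ≤ N) {V ψ : ℝ} (hV : 0 < V) (h1 : 0 ≤ ψ) (h2 : ψ ≤ 2 * π / N) :
    ∑ j ∈ Finset.range N, gw V (ψ + j * (2 * π / N)) ≤
      sg V (2 * π / N) * (gw V ψ + gw V (2 * π / N - ψ)) := by
  have hN0 : (0 : ℝ) < N := by
    have : 0 < N := by omega
    exact_mod_cast this
  have hN1 : (3 : ℝ) ≤ N := by exact_mod_cast hN
  obtain ⟨h, hh⟩ : ∃ h : ℝ, h = 2 * π / N := ⟨_, rfl⟩
  rw [← hh] at h2 ⊢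
  have hNh : (N : ℝ) * h = 2 * π := by rw [hh]; field_simp
  have hpos : 0 < h := by rw [hh]; positivity
  have hlt : h < 2 * π := by nlinarith [pi_pos]
  have hA0 : 0 ≤ gw V (h - ψ) := (gw_pos _ _).le
  have hB0 : 0 ≤ gw V ψ := (gw_pos _ _).le
  have hr0 : 0 ≤ gw V h := (gw_pos _ _).le
  have hr1 : gw V h < 1 := rho_lt_one hV hpos hlt
  have term : ∀ j ∈ Finset.range N, gw V (ψ + j * h) ≤
      gw V (h - ψ) * gw V h ^ (N - 1 - j) + gw V ψ * gw V h ^ j := by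
    intro j hj
    rw [Finset.mem_range] at hj
    obtain ⟨l, hl⟩ : ∃ l, N = j + 1 + l := ⟨N - j - 1, by omega⟩
    have e1 : N - 1 - j = l := by omega
    rw [e1]
    have hlR : (N : ℝ) = j + 1 + l := by
      rw [hl]; push_cast; ring
    have hAl : 0 ≤ gw V (h - ψ) * gw V h ^ l := by positivity
    have hBi : 0 ≤ gw V ψ * gw V h ^ j := by positivity
    by_cases hc : ψ + (j : ℝ) * h ≤ π
    · have := chain_step hV h1 hpos.le j hc
      linarith
    · have hc' := lt_of_not_ge hc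
      have e : ψ + (j : ℝ) * h = 2 * π - ((h - ψ) + l * h) := by
        rw [← hNh, hlR]; ring
      rw [e] at hc' ⊢
      rw [gw_reflect]
      have := chain_step hV (by linarith : 0 ≤ h - ψ) hpos.le l (by linarith)
      linarith
  refine (Finset.sum_le_sum term).trans ?_
  rw [Finset.sum_add_distrib, ← Finset.mul_sum, ← Finset.mul_sum]
  have s1 : ∑ j ∈ Finset.range N, gw V h ^ (N - 1 - j) =
      ∑ i ∈ Finset.range N, gw V h ^ i := Finset.sum_range_reflect _ _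
  rw [s1]
  have hg := geo hr0 hr1 N
  have e : sg V h = 1 / (1 - gw V h) := rfl
  rw [e]
  have g1 := mul_le_mul_of_nonneg_left hg hA0
  have g2 := mul_le_mul_of_nonneg_left hg hB0
  calc _ ≤ gw V (h - ψ) * (1 / (1 - gw V h)) + gw V ψ * (1 / (1 - gw V h)) := by linarith
    _ = _ := by ring

end SokalFA
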