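import Pool.Agent.Lib_MP_af4de1_fa.FarRep

/-!
# FAR, stage 1: the non-oscillating part of the exponent

`DD ρ θ s = Qr ρ s + exp(pa ρ s) (1 - cos(θ+s))`, `R = 1 + ρ²`, `pa ρ s = clamp (s/√R)`.
With `al = s/√R`, `mu = √R/ρ ≥ 1`, `a = clamp al`: `Qr = 1 + a - e^a + mu a al`.

PLAN.
* `Qr_right`: for `0 ≤ a ≤ 1`: `e^a ≤ 1 + a + a²/2 + a³/6 + 5a⁴/96` (Taylor with remainder; e.g.
  `Real.exp_bound'` or `Real.exp_bound`), so `Qr ≥ mu a² - a²/2 - a³/6 - 5a⁴/96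
  = (mu - (1 + a/3 + 5a²/48)/2) a²` and `a ≤ T`.
* `Qr_left`: for `b ≥ 0` `e^(-b) ≤ 1 - b + b²/2`.
* `Qr_ray_right`: for `0 < s1 ≤ s`: `Qr(s)/s ≥ Qr(s1)/s1`.  In `al`: for `al ≤ 1`
  `φ(al) = t (1 + al - e^al + mu al²) - al (1 + t - e^t + mu t²)` (`t = al1`) is `≥ 0` on `[t,1]`:
  it is enough that `(e^al - 1)/al - (e^t - 1)/t ≤ al - t` on `0 < t ≤ al ≤ 1` (power series
  `Σ (al^n - t^n)/(n+1)! ≤ (al - t) Σ n/(n+1)! = al - t`; or derivative `(x e^x - e^x + 1)/x² ≤ 1` on `(0,1]`,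
  i.e. `1 + x e^x - e^x ≤ x²`, which holds because `(1-x) e^x ≥ 1 - x²`, `e^x ≥ 1 + x`).
  For `al ≥ 1`: `Qr/al = mu - (e - 2)/al` is increasing.
* `Qr_ray_left`: the same with `b = -al`: `Qr/b = (1 - b - e^(-b))/b + mu b` for `b ≤ 1`, derivative
  `(b e^(-b) + e^(-b) - 1)/b² + mu ≥ 0` since `(1+b) e^(-b) ≥ (1+b)(1-b) = 1 - b²`; for `b ≥ 1`: `mu - e^(-1)/b`.
-/

namespace SokalFA

open Real

/-- the non-oscillating part -/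
noncomputable def Qr (ρ s : ℝ) : ℝ := 1 + pa ρ s + pa ρ s * s / ρ - Real.exp (pa ρ s)

theorem DD_eq (ρ θ s : ℝ) : DD ρ θ s = Qr ρ s + Real.exp (pa ρ s) * (1 - Real.cos (θ + s)) := by
  unfold DD Qr
  ring

@[fun_prop]
theorem continuous_Qr (ρ : ℝ) : Continuous (Qr ρ) := by
  unfold Qr
  fun_prop

theorem pa_nonneg {ρ s : ℝ} (hs : 0 ≤ s) : 0 ≤ pa ρ s := by
  unfold pa
  exact le_max_of_le_right (le_min one_pos.le (div_nonneg hs (sqrt_R_pos ρ).le))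

theorem pa_nonpos {ρ s : ℝ} (hs : s ≤ 0) : pa ρ s ≤ 0 := by
  unfold pa
  refine max_le (by norm_num) ((min_le_right _ _).trans ?_)
  exact div_nonpos_of_nonpos_of_nonneg hs (sqrt_R_pos ρ).le

/-- `mu = √R/ρ ≥ 1` -/
theorem one_le_mu {ρ : ℝ} (hρ : 0 < ρ) : 1 ≤ √(1 + ρ ^ 2) / ρ := by
  rw [le_div_iff₀ hρ, one_mul]
  exact Real.le_sqrt_of_sq_le (by linarith)

private theorem frb_sq {ρ s : ℝ} : s ^ 2 / (1 + ρ ^ 2) = (s / √(1 + ρ ^ 2)) ^ 2 := by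
  rw [div_pow, Real.sq_sqrt (by positivity)]

private theorem frb_mu {ρ s : ℝ} (hρ : 0 < ρ) : s / √(1 + ρ ^ 2) * s / ρ =
    √(1 + ρ ^ 2) / ρ * (s / √(1 + ρ ^ 2)) ^ 2 := by
  have hq := sqrt_R_pos ρ
  field_simp

theorem Qr_right {ρ s T : ℝ} (hρ : 0 < ρ) (hs : 0 ≤ s) (hT : s / √(1 + ρ ^ 2) ≤ T) (hT1 : T ≤ 1) :
    (√(1 + ρ ^ 2) / ρ - (1 + T / 3 + 5 * T ^ 2 / 48) / 2) / (1 + ρ ^ 2) * s ^ 2 ≤ Qr ρ s := by
  have hq := sqrt_R_pos ρ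
  have ha0 : 0 ≤ s / √(1 + ρ ^ 2) := div_nonneg hs hq.le
  have hpa : pa ρ s = s / √(1 + ρ ^ 2) := by
    unfold pa
    rw [min_eq_right (hT.trans hT1), max_eq_right (by linarith)]
  have e1 : (√(1 + ρ ^ 2) / ρ - (1 + T / 3 + 5 * T ^ 2 / 48) / 2) / (1 + ρ ^ 2) * s ^ 2 =
      (√(1 + ρ ^ 2) / ρ - (1 + T / 3 + 5 * T ^ 2 / 48) / 2) * (s ^ 2 / (1 + ρ ^ 2)) := by ring
  unfold Qr
  rw [hpa, e1, frb_sq, frb_mu hρ]
  have hexp := Real.exp_bound' ha0 (hT.trans hT1) (n := 4) (by norm_num)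
  generalize s / √(1 + ρ ^ 2) = a at *
  generalize √(1 + ρ ^ 2) / ρ = mu
  have h2 : Real.exp a ≤ 1 + a + a ^ 2 / 2 + a ^ 3 / 6 + 5 * a ^ 4 / 96 := by
    refine hexp.trans (le_of_eq ?_)
    norm_num [Finset.sum_range_succ, Nat.factorial]
    ring
  have h3 : a / 3 + 5 * a ^ 2 / 48 ≤ T / 3 + 5 * T ^ 2 / 48 := by
    have := pow_le_pow_left₀ ha0 hT 2
    linarith
  have h4 := mul_le_mul_of_nonneg_right h3 (sq_nonneg a)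
  nlinarith [h2, h4]

theorem Qr_left {ρ s : ℝ} (hρ : 0 < ρ) (hs : 0 ≤ s) (hT : s / √(1 + ρ ^ 2) ≤ 1) :
    (√(1 + ρ ^ 2) / ρ - 1 / 2) / (1 + ρ ^ 2) * s ^ 2 ≤ Qr ρ (-s) := by
  have hq := sqrt_R_pos ρ
  have ha0 : 0 ≤ s / √(1 + ρ ^ 2) := div_nonneg hs hq.le
  have hpa : pa ρ (-s) = -(s / √(1 + ρ ^ 2)) := by
    unfold pa
    rw [neg_div, min_eq_right (by linarith), max_eq_right (by linarith)]
  have e1 : (√(1 + ρ ^ 2) / ρ - 1 / 2) / (1 + ρ ^ 2) * s ^ 2 =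
      (√(1 + ρ ^ 2) / ρ - 1 / 2) * (s ^ 2 / (1 + ρ ^ 2)) := by ring
  have e2 : -(s / √(1 + ρ ^ 2)) * -s / ρ = s / √(1 + ρ ^ 2) * s / ρ := by ring
  unfold Qr
  rw [hpa, e1, frb_sq, e2, frb_mu hρ]
  generalize s / √(1 + ρ ^ 2) = b at *
  generalize √(1 + ρ ^ 2) / ρ = mu
  have h2 : Real.exp (-b) ≤ 1 - b + b ^ 2 / 2 := by
    rw [Real.exp_neg]
    have h3 := Real.quadratic_le_exp_of_nonneg ha0
    have h4 : 0 < 1 + b + b ^ 2 / 2 := by positivity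
    refine (inv_anti₀ h4 h3).trans ?_
    rw [inv_le_iff_one_le_mul₀ h4]
    nlinarith [sq_nonneg (b ^ 2)]
  nlinarith [h2]

end SokalFA
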