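import Pool.Agent.Lib_MP_af4de1_fa.FrB

/-! See the PLAN in `FrB.lean` (rays), `Qr_nonneg` from `Qr_right`, `Qr_left`, rays. -/

namespace SokalFA

open Real

private theorem rayr_mono {t x : ℝ} (ht : 0 < t) (htx : t ≤ x) (hx : x ≤ 1) :
    (Real.exp x - 1) / x - (Real.exp t - 1) / t ≤ x - t := by
  have hd : ∀ y : ℝ, 0 < y → HasDerivAt (fun y : ℝ => y - (Real.exp y - 1) / y)
      (1 - (Real.exp y * y - (Real.exp y - 1) * 1) / y ^ 2) y := by
    intro y hy
    exact (hasDerivAt_id y).sub (((Real.hasDerivAt_exp y).sub_const 1).div (hasDerivAt_id y) hy.ne')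
  have hm : MonotoneOn (fun y : ℝ => y - (Real.exp y - 1) / y) (Set.Icc t 1) := by
    refine monotoneOn_of_deriv_nonneg (convex_Icc t 1) ?_ ?_ ?_
    · intro y hy
      exact (hd y (ht.trans_le hy.1)).continuousAt.continuousWithinAt
    · intro y hy
      rw [interior_Icc] at hy
      exact (hd y (ht.trans hy.1)).differentiableAt.differentiableWithinAt
    · intro y hy
      rw [interior_Icc] at hy
      have hy0 : 0 < y := ht.trans hy.1
      rw [(hd y hy0).deriv, sub_nonneg, div_le_one (by positivity)]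
      have h1 := Real.add_one_le_exp y
      have h2 : 0 ≤ (Real.exp y - (y + 1)) * (1 - y) := mul_nonneg (by linarith) (by linarith [hy.2])
      nlinarith
  have h := hm ⟨le_rfl, htx.trans hx⟩ ⟨htx, hx⟩ htx
  simp only at h
  linarith

private theorem rayl_mono {t x : ℝ} (ht : 0 < t) (htx : t ≤ x) (hx : x ≤ 1) :
    (1 - t - Real.exp (-t)) / t + t ≤ (1 - x - Real.exp (-x)) / x + x := by
  have hd : ∀ y : ℝ, 0 < y → HasDerivAt (fun y : ℝ => (1 - y - Real.exp (-y)) / y + y)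
      (((-1 - Real.exp (-y) * -1) * y - (1 - y - Real.exp (-y)) * 1) / y ^ 2 + 1) y := by
    intro y hy
    have h1 : HasDerivAt (fun y : ℝ => Real.exp (-y)) (Real.exp (-y) * -1) y :=
      (hasDerivAt_neg y).exp
    have h2 : HasDerivAt (fun y : ℝ => 1 - y) (-1) y := (hasDerivAt_id y).const_sub 1
    exact ((h2.sub h1).div (hasDerivAt_id y) hy.ne').add (hasDerivAt_id y)
  have hm : MonotoneOn (fun y : ℝ => (1 - y - Real.exp (-y)) / y + y) (Set.Icc t 1) := by
    refine monotoneOn_of_deriv_nonneg (convex_Icc t 1) ?_ ?_ ?_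
    · intro y hy
      exact (hd y (ht.trans_le hy.1)).continuousAt.continuousWithinAt
    · intro y hy
      rw [interior_Icc] at hy
      exact (hd y (ht.trans hy.1)).differentiableAt.differentiableWithinAt
    · intro y hy
      rw [interior_Icc] at hy
      have hy0 : 0 < y := ht.trans hy.1
      rw [(hd y hy0).deriv]
      have h1 := Real.add_one_le_exp (-y)
      have h3 : -1 ≤ ((-1 - Real.exp (-y) * -1) * y - (1 - y - Real.exp (-y)) * 1) / y ^ 2 := by
        rw [le_div_iff₀ (by positivity)]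
        have h2 : 0 ≤ (Real.exp (-y) - (-y + 1)) * (1 + y) := mul_nonneg (by linarith) (by linarith)
        nlinarith
      linarith
  exact hm ⟨le_rfl, htx.trans hx⟩ ⟨htx, hx⟩ htx

/-- the function of the right side, `x = s / √R` -/
private noncomputable def qr (m x : ℝ) : ℝ := 1 + min 1 x + m * min 1 x * x - Real.exp (min 1 x)

/-- the function of the left side -/
private noncomputable def ql (m x : ℝ) : ℝ := 1 - min 1 x + m * min 1 x * x - Real.exp (-min 1 x)

private theorem qr_mono {m t x : ℝ} (hm : 1 ≤ m) (ht : 0 < t) (htx : t ≤ x) : qr m t / t ≤ qr m x / x := by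
  have hx0 : 0 < x := ht.trans_le htx
  -- below `1`
  have hA : ∀ u v : ℝ, 0 < u → u ≤ v → v ≤ 1 → qr m u / u ≤ qr m v / v := by
    intro u v hu huv hv
    have hv0 : 0 < v := hu.trans_le huv
    have e : ∀ w : ℝ, 0 < w → w ≤ 1 → qr m w / w = 1 - (Real.exp w - 1) / w + m * w := by
      intro w hw hw1
      unfold qr
      rw [min_eq_right hw1]
      field_simp
      ring
    rw [e u hu (huv.trans hv), e v hv0 hv]
    have h1 := rayr_mono hu huv hv
    have h2 : (v - u) ≤ m * (v - u) := le_mul_of_one_le_left (by linarith) hm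
    linarith
  -- above `1`
  have hB : ∀ u v : ℝ, 1 ≤ u → u ≤ v → qr m u / u ≤ qr m v / v := by
    intro u v hu huv
    have hu0 : 0 < u := by linarith
    have hv0 : 0 < v := by linarith
    have e : ∀ w : ℝ, 1 ≤ w → qr m w / w = m - (Real.exp 1 - 2) / w := by
      intro w hw
      have hw0 : 0 < w := by linarith
      unfold qr
      rw [min_eq_left hw]
      field_simp
      ring
    rw [e u hu, e v (hu.trans huv)]
    have h1 : 0 ≤ Real.exp 1 - 2 := by
      have := Real.exp_one_gt_d9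
      linarith
    have h2 : (Real.exp 1 - 2) / v ≤ (Real.exp 1 - 2) / u := div_le_div_of_nonneg_left h1 hu0 huv
    linarith
  rcases le_total x 1 with h1 | h1
  · exact hA t x ht htx h1
  · rcases le_total t 1 with h2 | h2
    · exact (hA t 1 ht h2 le_rfl).trans (hB 1 x le_rfl h1)
    · exact hB t x h2 htx

private theorem ql_mono {m t x : ℝ} (hm : 1 ≤ m) (ht : 0 < t) (htx : t ≤ x) : ql m t / t ≤ ql m x / x := by
  have hx0 : 0 < x := ht.trans_le htx
  have hA : ∀ u v : ℝ, 0 < u → u ≤ v → v ≤ 1 → ql m u / u ≤ ql m v / v := by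
    intro u v hu huv hv
    have hv0 : 0 < v := hu.trans_le huv
    have e : ∀ w : ℝ, 0 < w → w ≤ 1 → ql m w / w = (1 - w - Real.exp (-w)) / w + m * w := by
      intro w hw hw1
      unfold ql
      rw [min_eq_right hw1]
      field_simp
      ring
    rw [e u hu (huv.trans hv), e v hv0 hv]
    have h1 := rayl_mono hu huv hv
    have h2 : (v - u) ≤ m * (v - u) := le_mul_of_one_le_left (by linarith) hm
    linarith
  have hB : ∀ u v : ℝ, 1 ≤ u → u ≤ v → ql m u / u ≤ ql m v / v := by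
    intro u v hu huv
    have hu0 : 0 < u := by linarith
    have hv0 : 0 < v := by linarith
    have e : ∀ w : ℝ, 1 ≤ w → ql m w / w = m - Real.exp (-1) / w := by
      intro w hw
      have hw0 : 0 < w := by linarith
      unfold ql
      rw [min_eq_left hw]
      field_simp
      ring
    rw [e u hu, e v (hu.trans huv)]
    have h2 : Real.exp (-1) / v ≤ Real.exp (-1) / u := div_le_div_of_nonneg_left (Real.exp_nonneg _) hu0 huv
    linarith
  rcases le_total x 1 with h1 | h1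
  · exact hA t x ht htx h1
  · rcases le_total t 1 with h2 | h2
    · exact (hA t 1 ht h2 le_rfl).trans (hB 1 x le_rfl h1)
    · exact hB t x h2 htx

private theorem Qr_eq_qr {ρ s : ℝ} (hs : 0 ≤ s) :
    Qr ρ s = qr (√(1 + ρ ^ 2) / ρ) (s / √(1 + ρ ^ 2)) := by
  have hR := sqrt_R_pos ρ
  have h1 : pa ρ s = min 1 (s / √(1 + ρ ^ 2)) := by
    unfold pa
    refine max_eq_right ?_
    have : 0 ≤ min 1 (s / √(1 + ρ ^ 2)) := le_min one_pos.le (div_nonneg hs hR.le)
    linarith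
  have h2 : s / ρ = √(1 + ρ ^ 2) / ρ * (s / √(1 + ρ ^ 2)) := by
    field_simp
  unfold Qr qr
  rw [h1, mul_div_assoc, h2]
  ring

private theorem Qr_eq_ql {ρ s : ℝ} (hs : 0 ≤ s) :
    Qr ρ (-s) = ql (√(1 + ρ ^ 2) / ρ) (s / √(1 + ρ ^ 2)) := by
  have hR := sqrt_R_pos ρ
  have h1 : pa ρ (-s) = -min 1 (s / √(1 + ρ ^ 2)) := by
    unfold pa
    have h0 : 0 ≤ s / √(1 + ρ ^ 2) := div_nonneg hs hR.le
    rw [neg_div, min_eq_right (by linarith), ← max_neg_neg]
  have h2 : s / ρ = √(1 + ρ ^ 2) / ρ * (s / √(1 + ρ ^ 2)) := by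
    field_simp
  unfold Qr ql
  rw [h1, mul_div_assoc, neg_div, h2]
  ring

theorem Qr_ray_right {ρ s1 s : ℝ} (hρ : 0 < ρ) (hs1 : 0 < s1) (h : s1 ≤ s) :
    Qr ρ s1 * (s / s1) ≤ Qr ρ s := by
  have hR := sqrt_R_pos ρ
  have hs : 0 < s := hs1.trans_le h
  have h1 := qr_mono (one_le_mu hρ) (div_pos hs1 hR) (div_le_div_of_nonneg_right h hR.le)
  rw [← Qr_eq_qr hs1.le, ← Qr_eq_qr hs.le, div_div_eq_mul_div, div_div_eq_mul_div,
    div_le_div_iff₀ hs1 hs] at h1
  have h2 : Qr ρ s1 * s ≤ Qr ρ s * s1 := by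
    have h3 : Qr ρ s1 * √(1 + ρ ^ 2) * s = (Qr ρ s1 * s) * √(1 + ρ ^ 2) := by ring
    have h4 : Qr ρ s * √(1 + ρ ^ 2) * s1 = (Qr ρ s * s1) * √(1 + ρ ^ 2) := by ring
    rw [h3, h4] at h1
    exact le_of_mul_le_mul_right h1 hR
  rw [← mul_div_assoc, div_le_iff₀ hs1]
  exact h2

theorem Qr_ray_left {ρ s1 s : ℝ} (hρ : 0 < ρ) (hs1 : 0 < s1) (h : s1 ≤ s) :
    Qr ρ (-s1) * (s / s1) ≤ Qr ρ (-s) := by
  have hR := sqrt_R_pos ρ
  have hs : 0 < s := hs1.trans_le h
  have h1 := ql_mono (one_le_mu hρ) (div_pos hs1 hR) (div_le_div_of_nonneg_right h hR.le)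
  rw [← Qr_eq_ql hs1.le, ← Qr_eq_ql hs.le, div_div_eq_mul_div, div_div_eq_mul_div,
    div_le_div_iff₀ hs1 hs] at h1
  have h2 : Qr ρ (-s1) * s ≤ Qr ρ (-s) * s1 := by
    have h3 : Qr ρ (-s1) * √(1 + ρ ^ 2) * s = (Qr ρ (-s1) * s) * √(1 + ρ ^ 2) := by ring
    have h4 : Qr ρ (-s) * √(1 + ρ ^ 2) * s1 = (Qr ρ (-s) * s1) * √(1 + ρ ^ 2) := by ring
    rw [h3, h4] at h1
    exact le_of_mul_le_mul_right h1 hR
  rw [← mul_div_assoc, div_le_iff₀ hs1]
  exact h2

theorem Qr_nonneg {ρ : ℝ} (hρ : 0 < ρ) (s : ℝ) : 0 ≤ Qr ρ s := by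
  have hR := sqrt_R_pos ρ
  have hmu := one_le_mu hρ
  have c1 : (0 : ℝ) ≤ √(1 + ρ ^ 2) / ρ - (1 + 1 / 3 + 5 * 1 ^ 2 / 48) / 2 := by norm_num; linarith
  have c2 : (0 : ℝ) ≤ √(1 + ρ ^ 2) / ρ - 1 / 2 := by linarith
  rcases le_total 0 s with hs | hs
  · rcases le_total s (√(1 + ρ ^ 2)) with h1 | h1
    · have h2 := Qr_right hρ hs (T := 1) (by rwa [div_le_one hR]) le_rfl
      refine le_trans ?_ h2
      positivity
    · have h2 := Qr_right hρ hR.le (T := 1) (by rw [div_self hR.ne']) le_rfl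
      have h3 := Qr_ray_right hρ hR h1
      refine le_trans ?_ h3
      have h4 : 0 ≤ Qr ρ (√(1 + ρ ^ 2)) := by
        refine le_trans ?_ h2
        positivity
      positivity
  · obtain ⟨r, hr⟩ : ∃ r, r = -s := ⟨_, rfl⟩
    have hr0 : 0 ≤ r := by rw [hr]; linarith
    have hsr : s = -r := by rw [hr, neg_neg]
    rw [hsr]
    rcases le_total r (√(1 + ρ ^ 2)) with h1 | h1
    · have h2 := Qr_left hρ hr0 (by rwa [div_le_one hR])
      refine le_trans ?_ h2
      positivity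
    · have h2 := Qr_left hρ hR.le (by rw [div_self hR.ne'])
      have h3 := Qr_ray_left hρ hR h1
      refine le_trans ?_ h3
      have h4 : 0 ≤ Qr ρ (-√(1 + ρ ^ 2)) := by
        refine le_trans ?_ h2
        positivity
      positivity

theorem Qr_pos {ρ s : ℝ} (hρ : 0 < ρ) (hs : 0 < s) : 0 < Qr ρ s := by
  have hR := sqrt_R_pos ρ
  have hmu := one_le_mu hρ
  rcases le_total s (√(1 + ρ ^ 2)) with h1 | h1
  · have h2 := Qr_right hρ hs.le (T := 1) (by rwa [div_le_one hR]) le_rfl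
    refine lt_of_lt_of_le ?_ h2
    have : 0 < √(1 + ρ ^ 2) / ρ - (1 + 1 / 3 + 5 * 1 ^ 2 / 48) / 2 := by norm_num; linarith
    positivity
  · have h2 := Qr_right hρ hR.le (T := 1) (by rw [div_self hR.ne']) le_rfl
    have h3 := Qr_ray_right hρ hR h1
    refine lt_of_lt_of_le ?_ h3
    have h4 : 0 < Qr ρ (√(1 + ρ ^ 2)) := by
      refine lt_of_lt_of_le ?_ h2
      have : 0 < √(1 + ρ ^ 2) / ρ - (1 + 1 / 3 + 5 * 1 ^ 2 / 48) / 2 := by norm_num; linarith
      positivity
    positivity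

theorem Qr_pos_left {ρ s : ℝ} (hρ : 0 < ρ) (hs : 0 < s) : 0 < Qr ρ (-s) := by
  have hR := sqrt_R_pos ρ
  have hmu := one_le_mu hρ
  rcases le_total s (√(1 + ρ ^ 2)) with h1 | h1
  · have h2 := Qr_left hρ hs.le (by rwa [div_le_one hR])
    refine lt_of_lt_of_le ?_ h2
    have : 0 < √(1 + ρ ^ 2) / ρ - 1 / 2 := by linarith
    positivity
  · have h2 := Qr_left hρ hR.le (by rw [div_self hR.ne'])
    have h3 := Qr_ray_left hρ hR h1
    refine lt_of_lt_of_le ?_ h3
    have h4 : 0 < Qr ρ (-√(1 + ρ ^ 2)) := by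
      refine lt_of_lt_of_le ?_ h2
      have : 0 < √(1 + ρ ^ 2) / ρ - 1 / 2 := by linarith
      positivity
    positivity

end SokalFA
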