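import Pool.Agent.Lib_MP_af4de1_fa.FrB2

/-!
# FAR, stage 1: weights

`‖e^(a+iu) - 1‖² = (e^a - 1)² + 2 e^a (1 - cos u)` and `DD = Qr + e^a (1 - cos u)`, so
`‖e^(a+iu) - 1‖² ≤ 2 C DD` as soon as `C ≥ 1` and `(e^a - 1)² ≤ 2 C Qr`.

PLAN.
* right (`0 ≤ a = s/√R ≤ T ≤ 1`): `0 ≤ e^a - 1 ≤ a (1 + a/2 + 2a²/9)` (Taylor; `e^a ≤ 1 + a + a²/2 + 2a³/9` on
  `[0,1]`), `2 Qr ≥ (2mu - γ(T)) a² ≥ (2 - γ(T)) a²` (`Qr_right`, `one_le_mu`), hypothesis on `C`.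
* any `s ≥ 0`, `C = 132/25`: for `a < 1` use the first with `T = 1`
  (`(1+1/2+2/9)² = 2.9661 ≤ 5.28 * .5625`); for `s ≥ √R`: `a = 1`, `Qr = 2 - e + s/ρ ≥ 3 - e`,
  `(e-1)² ≤ 2.9525 ≤ 2 * 5.28 * .2817`.
* left (`s ≤ 0`): `1 - e^(-b) ≤ b` and `2 Qr ≥ b²` for `b ≤ 1` (`Qr_left`), for `b ≥ 1`
  `Qr = -e^(-1) + |s|/ρ ≥ 1 - e^(-1)`.
* `exp_trick`: `y ≤ exp(ε y - 1)/ε` from `x ≤ exp(x - 1)` (`Real.add_one_le_exp`).
* `w1`: `‖kp - r‖ = r ‖e^(a+iu) - 1‖ ≤ √(2 C r) √(r DD)`, `√(r DD) e^(-r DD) ≤ (2εe)^(-1/2) e^(-(1-ε) r DD)`.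
* `w2`: `‖(kp-r)² + kp‖ ≤ r² ‖e^(a+iu)-1‖² + r e^a ≤ 2 C r (r DD) + r e^a`.
-/

namespace SokalFA

open Real

/-- `‖e^(a+iu) - 1‖²` -/
noncomputable def W2 (ρ θ s : ℝ) : ℝ :=
  (Real.exp (pa ρ s) - 1) ^ 2 + 2 * Real.exp (pa ρ s) * (1 - Real.cos (θ + s))

theorem norm_kp_sub {r : ℝ} (hr : 0 < r) (ρ θ s : ℝ) :
    ‖kp r ρ θ s - r‖ ^ 2 = r ^ 2 * W2 ρ θ s := by
  unfold kp W2
  have e : (r : ℂ) * Complex.exp (pa ρ s + (θ + s) * Complex.I) - r =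
      r * (Complex.exp (pa ρ s + (θ + s) * Complex.I) - 1) := by ring
  rw [e, norm_mul, mul_pow, Complex.norm_real, Real.norm_of_nonneg hr.le]
  congr 1
  rw [Complex.sq_norm, Complex.normSq_apply]
  have h1 : (Complex.exp (pa ρ s + (θ + s) * Complex.I) - 1).re =
      Real.exp (pa ρ s) * Real.cos (θ + s) - 1 := by
    simp [Complex.exp_re]
  have h2 : (Complex.exp (pa ρ s + (θ + s) * Complex.I) - 1).im =
      Real.exp (pa ρ s) * Real.sin (θ + s) := by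
    simp [Complex.exp_im]
  rw [h1, h2]
  have h3 := Real.sin_sq_add_cos_sq (θ + s)
  generalize Real.exp (pa ρ s) = x at *
  generalize Real.cos (θ + s) = c at *
  generalize Real.sin (θ + s) = d at *
  have h4 : d ^ 2 = 1 - c ^ 2 := by linarith
  calc (x * c - 1) * (x * c - 1) + x * d * (x * d) = (x * c - 1) ^ 2 + x ^ 2 * d ^ 2 := by ring
    _ = (x * c - 1) ^ 2 + x ^ 2 * (1 - c ^ 2) := by rw [h4]
    _ = (x - 1) ^ 2 + 2 * x * (1 - c) := by ring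

/-- it is enough to bound the square of the radial part -/
private theorem W2_of {ρ θ s C : ℝ} (hC : 1 ≤ C)
    (h : (Real.exp (pa ρ s) - 1) ^ 2 ≤ 2 * C * Qr ρ s) : W2 ρ θ s ≤ 2 * C * DD ρ θ s := by
  rw [DD_eq]
  unfold W2
  have h1 := Real.exp_pos (pa ρ s)
  have h2 := Real.cos_le_one (θ + s)
  have h3 : 0 ≤ Real.exp (pa ρ s) * (1 - Real.cos (θ + s)) := mul_nonneg h1.le (by linarith)
  nlinarith

private theorem exp_le_cubic {a : ℝ} (h0 : 0 ≤ a) (h1 : a ≤ 1) :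
    Real.exp a ≤ 1 + a + a ^ 2 / 2 + 2 * a ^ 3 / 9 := by
  have h := Real.exp_bound' h0 h1 (n := 3) (by norm_num)
  have e : ∑ m ∈ Finset.range 3, a ^ m / (m.factorial : ℝ) + a ^ 3 * ((3 : ℕ) + 1) /
      (((3 : ℕ).factorial : ℝ) * (3 : ℕ)) = 1 + a + a ^ 2 / 2 + 2 * a ^ 3 / 9 := by
    simp [Finset.sum_range_succ, Nat.factorial]
    ring
  rw [e] at h
  exact h

theorem W2_right {ρ θ s T C : ℝ} (hρ : 0 < ρ) (hs : 0 ≤ s) (hT : s / √(1 + ρ ^ 2) ≤ T) (hT1 : T ≤ 1)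
    (hC : 1 ≤ C) (hC2 : (1 + T / 2 + 2 * T ^ 2 / 9) ^ 2 ≤ C * (2 - (1 + T / 3 + 5 * T ^ 2 / 48))) :
    W2 ρ θ s ≤ 2 * C * DD ρ θ s := by
  refine W2_of hC ?_
  have hR := sqrt_R_pos ρ
  have hmu := one_le_mu hρ
  have hQ := Qr_right hρ hs hT hT1
  have hsR : s ≤ √(1 + ρ ^ 2) := by
    have := hT.trans hT1
    rwa [div_le_one hR] at this
  have hpa : pa ρ s = s / √(1 + ρ ^ 2) := pa_mid (by linarith) hsR
  obtain ⟨a, ha⟩ : ∃ a, a = s / √(1 + ρ ^ 2) := ⟨_, rfl⟩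
  rw [hpa, ← ha]
  rw [← ha] at hT
  have ha0 : 0 ≤ a := by
    rw [ha]
    exact div_nonneg hs hR.le
  have hT0 : 0 ≤ T := ha0.trans hT
  have ha2 : s ^ 2 / (1 + ρ ^ 2) = a ^ 2 := by
    rw [ha, div_pow, Real.sq_sqrt (by positivity)]
  have hQ2 : (√(1 + ρ ^ 2) / ρ - (1 + T / 3 + 5 * T ^ 2 / 48) / 2) * a ^ 2 ≤ Qr ρ s := by
    rw [← ha2]
    refine le_trans (le_of_eq ?_) hQ
    ring
  have hQ3 : (1 - (1 + T / 3 + 5 * T ^ 2 / 48) / 2) * a ^ 2 ≤ Qr ρ s := by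
    refine le_trans ?_ hQ2
    exact mul_le_mul_of_nonneg_right (by linarith) (by positivity)
  have he := exp_le_cubic ha0 (hT.trans hT1)
  have he0 : 0 ≤ Real.exp a - 1 := by
    have := Real.one_le_exp ha0
    linarith
  have he1 : Real.exp a - 1 ≤ a * (1 + T / 2 + 2 * T ^ 2 / 9) := by
    have h1 : a * (1 + a / 2 + 2 * a ^ 2 / 9) ≤ a * (1 + T / 2 + 2 * T ^ 2 / 9) := by
      refine mul_le_mul_of_nonneg_left ?_ ha0
      have : a ^ 2 ≤ T ^ 2 := pow_le_pow_left₀ ha0 hT 2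
      linarith
    have h2 : a * (1 + a / 2 + 2 * a ^ 2 / 9) = a + a ^ 2 / 2 + 2 * a ^ 3 / 9 := by ring
    linarith
  calc (Real.exp a - 1) ^ 2 ≤ (a * (1 + T / 2 + 2 * T ^ 2 / 9)) ^ 2 :=
        pow_le_pow_left₀ he0 he1 2
    _ = a ^ 2 * (1 + T / 2 + 2 * T ^ 2 / 9) ^ 2 := by ring
    _ ≤ a ^ 2 * (C * (2 - (1 + T / 3 + 5 * T ^ 2 / 48))) :=
        mul_le_mul_of_nonneg_left hC2 (by positivity)
    _ = 2 * C * ((1 - (1 + T / 3 + 5 * T ^ 2 / 48) / 2) * a ^ 2) := by ring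
    _ ≤ 2 * C * Qr ρ s := mul_le_mul_of_nonneg_left hQ3 (by linarith)

theorem W2_any {ρ θ s : ℝ} (hρ : 0 < ρ) (hs : 0 ≤ s) :
    W2 ρ θ s ≤ 2 * (132 / 25) * DD ρ θ s := by
  have hR := sqrt_R_pos ρ
  rcases le_total s (√(1 + ρ ^ 2)) with h1 | h1
  · exact W2_right hρ hs (T := 1) (by rwa [div_le_one hR]) le_rfl (by norm_num) (by norm_num)
  · refine W2_of (by norm_num) ?_
    have hmu := one_le_mu hρ
    have h2 : √(1 + ρ ^ 2) / ρ ≤ s / ρ := div_le_div_of_nonneg_right h1 hρ.le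
    have hpa := pa_right h1
    unfold Qr
    rw [hpa]
    have h3 := Real.exp_one_lt_d9
    have h4 := Real.exp_one_gt_d9
    have h5 : (Real.exp 1 - 1) ^ 2 ≤ 2 * (132 / 25) * (3 - Real.exp 1) := by nlinarith
    have h6 : 1 + 1 + 1 * s / ρ - Real.exp 1 = 2 + s / ρ - Real.exp 1 := by ring
    rw [h6]
    linarith

theorem W2_left {ρ θ s : ℝ} (hρ : 0 < ρ) (hs : s ≤ 0) :
    W2 ρ θ s ≤ 2 * 1 * DD ρ θ s := by
  refine W2_of le_rfl ?_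
  have hR := sqrt_R_pos ρ
  have hmu := one_le_mu hρ
  rcases le_total (-s) (√(1 + ρ ^ 2)) with h1 | h1
  · have hQ := Qr_left hρ (s := -s) (by linarith) (by rwa [div_le_one hR])
    rw [neg_neg] at hQ
    have hpa : pa ρ s = s / √(1 + ρ ^ 2) := pa_mid (by linarith) (by linarith)
    obtain ⟨b, hb⟩ : ∃ b, b = -s / √(1 + ρ ^ 2) := ⟨_, rfl⟩
    have hb0 : 0 ≤ b := by
      rw [hb]
      exact div_nonneg (by linarith) hR.le
    have hpb : pa ρ s = -b := by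
      rw [hpa, hb]
      ring
    have hb2 : s ^ 2 / (1 + ρ ^ 2) = b ^ 2 := by
      rw [hb, div_pow, Real.sq_sqrt (by positivity)]
      ring
    have hQ2 : (√(1 + ρ ^ 2) / ρ - 1 / 2) * b ^ 2 ≤ Qr ρ s := by
      rw [← hb2]
      refine le_trans (le_of_eq ?_) hQ
      ring
    have hQ3 : (1 - 1 / 2) * b ^ 2 ≤ Qr ρ s := by
      refine le_trans ?_ hQ2
      exact mul_le_mul_of_nonneg_right (by linarith) (by positivity)
    rw [hpb]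
    have h3 : 1 - b ≤ Real.exp (-b) := by
      have := Real.add_one_le_exp (-b)
      linarith
    have h4 : Real.exp (-b) ≤ 1 := Real.exp_le_one_iff.2 (by linarith)
    nlinarith
  · have h2 : √(1 + ρ ^ 2) / ρ ≤ -s / ρ := div_le_div_of_nonneg_right h1 hρ.le
    have hpa := pa_left (ρ := ρ) (s := s) (by linarith)
    unfold Qr
    rw [hpa]
    have h3 : Real.exp (-1) ≤ 1 := Real.exp_le_one_iff.2 (by norm_num)
    have h4 := Real.exp_pos (-1)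
    have h6 : 1 + -1 + -1 * s / ρ - Real.exp (-1) = -s / ρ - Real.exp (-1) := by ring
    rw [h6]
    nlinarith

theorem DD_nonneg {ρ : ℝ} (hρ : 0 < ρ) (θ s : ℝ) : 0 ≤ DD ρ θ s := by
  rw [DD_eq]
  have h1 := Qr_nonneg hρ s
  have h2 := Real.cos_le_one (θ + s)
  have h3 : 0 ≤ Real.exp (pa ρ s) * (1 - Real.cos (θ + s)) :=
    mul_nonneg (Real.exp_pos _).le (by linarith)
  linarith

end SokalFA
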