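import Pool.Agent.Lib_MP_af4de1_fa.FrC

/-! See the PLAN in `FrC.lean`. -/

namespace SokalFA

open Real

theorem le_exp_div {y ε : ℝ} (hε : 0 < ε) : y ≤ (ε * exp 1)⁻¹ * exp (ε * y) := by
  have h1 := Real.add_one_le_exp (ε * y - 1)
  have h2 : exp (ε * y - 1) = exp (ε * y) / exp 1 := Real.exp_sub _ _
  rw [h2] at h1
  have h3 : ε * y ≤ exp (ε * y) / exp 1 := by linarith
  have h4 : (ε * exp 1)⁻¹ * exp (ε * y) = exp (ε * y) / exp 1 / ε := by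
    field_simp
  rw [h4, le_div_iff₀ hε]
  linarith

theorem exp_trick1 {y ε : ℝ} (hε : 0 < ε) : y * exp (-y) ≤ (ε * exp 1)⁻¹ * exp (-((1 - ε) * y)) := by
  have h1 := le_exp_div (y := y) hε
  have h2 : exp (-((1 - ε) * y)) = exp (ε * y) * exp (-y) := by
    rw [← Real.exp_add]; congr 1; ring
  rw [h2, ← mul_assoc]
  exact mul_le_mul_of_nonneg_right h1 (Real.exp_pos _).le

theorem exp_trick0 {y ε : ℝ} (hy : 0 ≤ y) (hε : 0 < ε) :
    √y * exp (-y) ≤ √(2 * ε * exp 1)⁻¹ * exp (-((1 - ε) * y)) := by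
  have h1 := le_exp_div (y := y) (ε := 2 * ε) (by positivity)
  have h2 : exp (-((1 - ε) * y)) = exp (ε * y) * exp (-y) := by
    rw [← Real.exp_add]; congr 1; ring
  rw [h2, ← mul_assoc]
  refine mul_le_mul_of_nonneg_right ?_ (Real.exp_pos _).le
  have h3 : exp (2 * ε * y) = exp (ε * y) ^ 2 := by
    rw [← Real.exp_nat_mul]; congr 1; push_cast; ring
  rw [h3] at h1
  have h4 : √((2 * ε * exp 1)⁻¹ * exp (ε * y) ^ 2) = √(2 * ε * exp 1)⁻¹ * exp (ε * y) := by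
    rw [Real.sqrt_mul (by positivity), Real.sqrt_sq (Real.exp_pos _).le]
  rw [← h4]
  exact Real.sqrt_le_sqrt h1

/-- weight 1 -/
theorem w1 {r ρ θ s C ε : ℝ} (hr : 0 < r) (hρ : 0 < ρ) (hC : 0 < C) (hε : 0 < ε)
    (h : W2 ρ θ s ≤ 2 * C * DD ρ θ s) :
    ‖kp r ρ θ s - r‖ * exp (-(r * DD ρ θ s)) ≤
      √(C * r / (ε * exp 1)) * exp (-((1 - ε) * r * DD ρ θ s)) := by
  have hD := DD_nonneg hρ θ s
  have hrD : 0 ≤ r * DD ρ θ s := mul_nonneg hr.le hD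
  have h1 : ‖kp r ρ θ s - r‖ ≤ √(2 * C * r) * √(r * DD ρ θ s) := by
    rw [← Real.sqrt_mul (by positivity)]
    refine Real.le_sqrt_of_sq_le ?_
    rw [norm_kp_sub hr]
    calc r ^ 2 * W2 ρ θ s ≤ r ^ 2 * (2 * C * DD ρ θ s) := by gcongr
      _ = 2 * C * r * (r * DD ρ θ s) := by ring
  have h2 := exp_trick0 hrD hε
  have h3 : √(C * r / (ε * exp 1)) = √(2 * C * r) * √(2 * ε * exp 1)⁻¹ := by
    rw [← Real.sqrt_mul (by positivity)]
    congr 1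
    field_simp
  have h4 : -((1 - ε) * r * DD ρ θ s) = -((1 - ε) * (r * DD ρ θ s)) := by ring
  rw [h3, h4]
  calc ‖kp r ρ θ s - r‖ * exp (-(r * DD ρ θ s))
      ≤ (√(2 * C * r) * √(r * DD ρ θ s)) * exp (-(r * DD ρ θ s)) := by gcongr
    _ = √(2 * C * r) * (√(r * DD ρ θ s) * exp (-(r * DD ρ θ s))) := by ring
    _ ≤ √(2 * C * r) * (√(2 * ε * exp 1)⁻¹ * exp (-((1 - ε) * (r * DD ρ θ s)))) := by gcongr
    _ = _ := by ring

/-- weight 2 -/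
theorem w2 {r ρ θ s C ε E : ℝ} (hr : 0 < r) (hρ : 0 < ρ) (hC : 0 < C) (hε : 0 < ε)
    (h : W2 ρ θ s ≤ 2 * C * DD ρ θ s) (hE : exp (pa ρ s) ≤ E) :
    ‖(kp r ρ θ s - r) ^ 2 + kp r ρ θ s‖ * exp (-(r * DD ρ θ s)) ≤
      (2 * C * r / (ε * exp 1) + r * E) * exp (-((1 - ε) * r * DD ρ θ s)) := by
  have hD := DD_nonneg hρ θ s
  have hrD : 0 ≤ r * DD ρ θ s := mul_nonneg hr.le hD
  have hE0 : 0 < E := (Real.exp_pos _).trans_le hE
  have h1 : ‖(kp r ρ θ s - r) ^ 2 + kp r ρ θ s‖ ≤ 2 * C * r * (r * DD ρ θ s) + r * E := by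
    refine (norm_add_le _ _).trans (add_le_add ?_ ?_)
    · rw [norm_pow, norm_kp_sub hr]
      calc r ^ 2 * W2 ρ θ s ≤ r ^ 2 * (2 * C * DD ρ θ s) := by gcongr
        _ = 2 * C * r * (r * DD ρ θ s) := by ring
    · rw [norm_kp hr]
      gcongr
  have h2 := exp_trick1 (y := r * DD ρ θ s) hε
  have h4 : -((1 - ε) * r * DD ρ θ s) = -((1 - ε) * (r * DD ρ θ s)) := by ring
  rw [h4]
  have h5 : exp (-(r * DD ρ θ s)) ≤ exp (-((1 - ε) * (r * DD ρ θ s))) := by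
    refine Real.exp_le_exp.mpr ?_
    nlinarith [mul_nonneg hε.le hrD]
  calc ‖(kp r ρ θ s - r) ^ 2 + kp r ρ θ s‖ * exp (-(r * DD ρ θ s))
      ≤ (2 * C * r * (r * DD ρ θ s) + r * E) * exp (-(r * DD ρ θ s)) := by gcongr
    _ = 2 * C * r * (r * DD ρ θ s * exp (-(r * DD ρ θ s))) + r * E * exp (-(r * DD ρ θ s)) := by ring
    _ ≤ 2 * C * r * ((ε * exp 1)⁻¹ * exp (-((1 - ε) * (r * DD ρ θ s)))) +
        r * E * exp (-((1 - ε) * (r * DD ρ θ s))) := by gcongr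
    _ = _ := by ring

end SokalFA
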