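import Pool.Agent.Lib_MP_af4de1_fa.FrA

/-!
# FAR, stage 1: periods

PLAN.
* `W_le`: on `|u| ≤ 6/5`: `1 - cos u ≥ u²/2 - u⁴/24 ≥ (11/25) u²` (`Real.cos_le..` / `Real.cos_bound`: Taylor), on
  `6/5 ≤ |u| ≤ π`: `1 - cos u ≥ 1 - cos(6/5) ≥ .6336`.  So pointwise on `[-π,π]`
  `gw V u ≤ exp(-(11/25) V u²) + exp(-.6336 V)` (`gw_split`), and
  `∫ ≤ √(π/(.44 V)) + 2π e^(-.6336 V) ≤ 2.6721/√V + .0018.. ≤ 2.68/√V` for `V ≥ 15`
  (`2π e^(-.6336 V) √V ≤ .0075`: `√V ≤ e^(V/20)·..`, or `e^(-.6336 V) ≤ e^(-9.504) e^(-.6336 (V-15))`,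
  `√V ≤ √15 e^((V-15)/30)`).
* `half_W`: evenness and `h ≤ π`.
* `period_sum`: `∫_0^h Σ_j gw(ψ+s+jh) ds = Σ_j ∫_{ψ+jh}^{ψ+(j+1)h} gw = ∫_ψ^{ψ+2π} gw = ∫_{-π}^{π} gw`
  (`intervalIntegral.sum_integral_adjacent_intervals`, `Function.Periodic.intervalIntegral_add_eq`).
* `tail_abs`: `Ioi S1 = ⋃ n, Ioc (S1+n h) (S1+(n+1) h)` disjoint, `lintegral_iUnion`,
  each term `≤ ofReal (A ρ^n Wc)`, sum of the geometric series.
-/

namespace SokalFA

open Real MeasureTheory Set

private theorem one_sub_cos_half (u : ℝ) : 1 - cos u = 2 * sin (u / 2) ^ 2 := by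
  have h := Real.cos_sq' (u / 2)
  have h2 := Real.cos_sq (u / 2)
  rw [show 2 * (u / 2) = u by ring] at h2
  linarith

private theorem cos_split_pos {u : ℝ} (h0 : 0 ≤ u) (hu : u ≤ 6 / 5) : 11 / 25 * u ^ 2 ≤ 1 - cos u := by
  rw [one_sub_cos_half]
  set y := u / 2 with hy
  have hy0 : 0 ≤ y := by positivity
  have hy1 : y ≤ 3 / 5 := by rw [hy]; linarith
  have h1 := Real.sin_ge_sub_cube hy0
  have h2 : y * (47 / 50) ≤ y - y ^ 3 / 6 := by nlinarith [mul_nonneg hy0 (sub_nonneg.2 hy1), mul_nonneg hy0 hy0, mul_nonneg (mul_nonneg hy0 hy0) (sub_nonneg.2 hy1)]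
  have h3 : y * (47 / 50) ≤ sin y := h2.trans h1
  have h4 : (y * (47 / 50)) ^ 2 ≤ sin y ^ 2 := pow_le_pow_left₀ (by positivity) h3 2
  have h5 : u = 2 * y := by rw [hy]; ring
  rw [h5]
  nlinarith [sq_nonneg y]

theorem cos_split_small {u : ℝ} (hu : |u| ≤ 6 / 5) : 11 / 25 * u ^ 2 ≤ 1 - cos u := by
  have h := cos_split_pos (abs_nonneg u) hu
  rwa [sq_abs, Real.cos_abs] at h

theorem cos_split_large {u : ℝ} (h1 : 6 / 5 ≤ u) (h2 : u ≤ π) : 6336 / 10000 ≤ 1 - cos u := by
  have h3 := cos_split_pos (u := 6 / 5) (by norm_num) le_rfl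
  have h4 := Real.cos_le_cos_of_nonneg_of_le_pi (by norm_num : (0 : ℝ) ≤ 6 / 5) h2 h1
  norm_num at h3 ⊢
  linarith

theorem gw_split {V u : ℝ} (hV : 0 ≤ V) (h1 : 0 ≤ u) (h2 : u ≤ π) :
    gw V u ≤ exp (-(V * (11 / 25 * u ^ 2))) + exp (-(V * (6336 / 10000))) := by
  unfold gw
  rcases le_total u (6 / 5) with h | h
  · have h3 := cos_split_pos h1 h
    have h4 : exp (-(V * (1 - cos u))) ≤ exp (-(V * (11 / 25 * u ^ 2))) :=
      Real.exp_le_exp.2 (neg_le_neg (mul_le_mul_of_nonneg_left h3 hV))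
    linarith [Real.exp_pos (-(V * (6336 / 10000)))]
  · have h3 := cos_split_large h h2
    have h4 : exp (-(V * (1 - cos u))) ≤ exp (-(V * (6336 / 10000))) :=
      Real.exp_le_exp.2 (neg_le_neg (mul_le_mul_of_nonneg_left h3 hV))
    linarith [Real.exp_pos (-(V * (11 / 25 * u ^ 2)))]

private theorem gw_even (V u : ℝ) : gw V (-u) = gw V u := by
  unfold gw
  rw [Real.cos_neg]

private theorem gw_split' {V u : ℝ} (hV : 0 ≤ V) (h : u ∈ Icc (-π) π) :
    gw V u ≤ exp (-(11 / 25 * V) * u ^ 2) + exp (-(V * (6336 / 10000))) := by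
  have h1 := gw_split (V := V) (u := |u|) hV (abs_nonneg u) (abs_le.2 ⟨h.1, h.2⟩)
  rw [sq_abs] at h1
  have h2 : gw V |u| = gw V u := by
    rcases abs_choice u with h3 | h3
    · rw [h3]
    · rw [h3, gw_even]
  rw [h2] at h1
  rwa [show -(11 / 25 * V) * u ^ 2 = -(V * (11 / 25 * u ^ 2)) by ring]

theorem W_le {V : ℝ} (hV : 15 ≤ V) : ∫ u in (-π)..π, gw V u ≤ 67 / 25 / √V := by
  have hpi := Real.pi_pos
  have hV0 : (0 : ℝ) < V := by linarith
  have hb : 0 < 11 / 25 * V := by positivity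
  have hg := integrable_exp_neg_mul_sq hb
  have h1 : ∫ u in (-π)..π, gw V u ≤ ∫ u in (-π)..π, (exp (-(11 / 25 * V) * u ^ 2) + exp (-(V * (6336 / 10000)))) := by
    refine intervalIntegral.integral_mono_on (by linarith) ((continuous_gw V).intervalIntegrable _ _) ?_ fun u hu => gw_split' hV0.le hu
    exact (Continuous.add (by fun_prop) continuous_const).intervalIntegrable _ _
  have h2 : ∫ u in (-π)..π, (exp (-(11 / 25 * V) * u ^ 2) + exp (-(V * (6336 / 10000)))) =
      (∫ u in (-π)..π, exp (-(11 / 25 * V) * u ^ 2)) + 2 * π * exp (-(V * (6336 / 10000))) := by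
    rw [intervalIntegral.integral_add hg.intervalIntegrable intervalIntegrable_const, intervalIntegral.integral_const, smul_eq_mul]
    ring
  have h3 : ∫ u in (-π)..π, exp (-(11 / 25 * V) * u ^ 2) ≤ √(π / (11 / 25 * V)) := by
    rw [← integral_gaussian, intervalIntegral.integral_of_le (by linarith)]
    exact setIntegral_le_integral hg (Filter.Eventually.of_forall fun u => (Real.exp_pos _).le)
  have hs : 0 < √V := Real.sqrt_pos.2 hV0
  have hss : √V * √V = V := Real.mul_self_sqrt hV0.le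
  have h4 : √(π / (11 / 25 * V)) ≤ 107 / 40 / √V := by
    rw [show π / (11 / 25 * V) = (25 / 11 * π) / V by field_simp, Real.sqrt_div' _ hV0.le]
    refine div_le_div_of_nonneg_right ?_ hs.le
    rw [Real.sqrt_le_left (by norm_num)]
    linarith [Real.pi_lt_d4]
  have h5 : 2 * π * exp (-(V * (6336 / 10000))) ≤ 1 / 200 / √V := by
    rw [le_div_iff₀ hs]
    have hsq : √V ≤ (V + 16) / 8 := by nlinarith [sq_nonneg (√V - 4)]
    have he : exp (-(V * (6336 / 10000))) = exp (-(9504 / 1000)) * exp (-((V - 15) * (6336 / 10000))) := by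
      rw [← Real.exp_add]
      congr 1
      ring
    have he1 : exp (-((V - 15) * (6336 / 10000))) * (V + 16) ≤ 31 := by
      have h6 := Real.add_one_le_exp ((V - 15) * (6336 / 10000))
      have h7 : exp (-((V - 15) * (6336 / 10000))) * exp ((V - 15) * (6336 / 10000)) = 1 := by
        rw [← Real.exp_add, neg_add_cancel, Real.exp_zero]
      have h8 : V + 16 ≤ 31 * exp ((V - 15) * (6336 / 10000)) := by nlinarith
      calc exp (-((V - 15) * (6336 / 10000))) * (V + 16)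
          ≤ exp (-((V - 15) * (6336 / 10000))) * (31 * exp ((V - 15) * (6336 / 10000))) :=
            mul_le_mul_of_nonneg_left h8 (Real.exp_pos _).le
        _ = 31 * (exp (-((V - 15) * (6336 / 10000))) * exp ((V - 15) * (6336 / 10000))) := by ring
        _ = 31 := by rw [h7, mul_one]
    have he2 : exp (-(9504 / 1000)) ≤ 1 / 7600 := by
      have h6 : exp (-(9504 / 1000)) ≤ exp (-9) := Real.exp_le_exp.2 (by norm_num)
      have h7 : (7600 : ℝ) ≤ exp 9 := by
        have h8 : exp 9 = exp 1 ^ 9 := by rw [← Real.exp_nat_mul]; norm_num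
        rw [h8]
        have h9 : (27 / 10 : ℝ) ≤ exp 1 := by linarith [Real.exp_one_gt_d9]
        calc (7600 : ℝ) ≤ (27 / 10) ^ 9 := by norm_num
          _ ≤ exp 1 ^ 9 := pow_le_pow_left₀ (by norm_num) h9 9
      refine h6.trans ?_
      rw [Real.exp_neg, inv_eq_one_div]
      exact one_div_le_one_div_of_le (by norm_num) h7
    have hp := Real.exp_pos (-(V * (6336 / 10000)))
    calc 2 * π * exp (-(V * (6336 / 10000))) * √V
        ≤ 2 * π * exp (-(V * (6336 / 10000))) * ((V + 16) / 8) := mul_le_mul_of_nonneg_left hsq (by positivity)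
      _ = π / 4 * (exp (-(9504 / 1000)) * (exp (-((V - 15) * (6336 / 10000))) * (V + 16))) := by rw [he]; ring
      _ ≤ π / 4 * (1 / 7600 * 31) := by
          refine mul_le_mul_of_nonneg_left ?_ (by positivity)
          exact mul_le_mul he2 he1 (mul_nonneg (Real.exp_pos _).le (by linarith)) (by norm_num)
      _ ≤ 1 / 200 := by linarith [Real.pi_lt_d2]
  calc ∫ u in (-π)..π, gw V u ≤ 107 / 40 / √V + 1 / 200 / √V := by linarith
    _ = 67 / 25 / √V := by ring

theorem half_W {V h : ℝ} (hV : 15 ≤ V) (hh : 0 ≤ h) (hh1 : h ≤ π) :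
    ∫ u in (0 : ℝ)..h, gw V u ≤ 67 / 50 / √V := by
  have hpi := Real.pi_pos
  have hi : ∀ a b : ℝ, IntervalIntegrable (gw V) volume a b := fun a b => (continuous_gw V).intervalIntegrable a b
  have h1 : ∫ u in (0 : ℝ)..h, gw V u ≤ ∫ u in (0 : ℝ)..π, gw V u := by
    rw [← intervalIntegral.integral_add_adjacent_intervals (hi 0 h) (hi h π)]
    have := intervalIntegral.integral_nonneg (μ := volume) (f := gw V) hh1 fun u _ => (gw_pos V u).le
    linarith
  have h2 : ∫ u in (-π)..0, gw V u = ∫ u in (0 : ℝ)..π, gw V u := by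
    have := intervalIntegral.integral_comp_neg (a := (0 : ℝ)) (b := π) (gw V)
    simp only [gw_even, neg_zero] at this
    exact this.symm
  have h3 := intervalIntegral.integral_add_adjacent_intervals (hi (-π) 0) (hi 0 π)
  have h4 := W_le hV
  have h5 : 67 / 25 / √V = 2 * (67 / 50 / √V) := by ring
  linarith

end SokalFA
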