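import Pool.Agent.Lib_MP_af4de1_fa.FrA

/-! See the PLAN in `FrD.lean` (`period_sum`). -/

namespace SokalFA

open Real MeasureTheory Set

private theorem gw_periodic (V : ℝ) : Function.Periodic (gw V) (2 * π) := by
  intro u
  unfold gw
  rw [Real.cos_add_two_pi]

theorem period_sum {N : ℕ} (hN : 1 ≤ N) (V ψ : ℝ) :
    ∫ s in (0 : ℝ)..(2 * π / N), ∑ j ∈ Finset.range N, gw V (ψ + s + j * (2 * π / N)) =
      ∫ u in (-π)..π, gw V u := by
  obtain ⟨h, hh⟩ : ∃ h : ℝ, h = 2 * π / N := ⟨_, rfl⟩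
  rw [← hh]
  have hN0 : (N : ℝ) ≠ 0 := by
    have : (1 : ℝ) ≤ N := by exact_mod_cast hN
    linarith
  have hNh : (N : ℝ) * h = 2 * π := by
    rw [hh]
    field_simp
  have hcont := continuous_gw V
  have hI : ∀ j ∈ Finset.range N,
      IntervalIntegrable (fun s : ℝ => gw V (ψ + s + (j : ℝ) * h)) volume 0 h := by
    intro j _
    exact (hcont.comp (by fun_prop : Continuous fun s : ℝ => ψ + s + (j : ℝ) * h)).intervalIntegrable
      _ _
  rw [intervalIntegral.integral_finsetSum hI]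
  have e : ∀ j ∈ Finset.range N, ∫ s in (0 : ℝ)..h, gw V (ψ + s + j * h) =
      ∫ u in (ψ + (j : ℝ) * h)..(ψ + ((j + 1 : ℕ) : ℝ) * h), gw V u := by
    intro j _
    have h1 := intervalIntegral.integral_comp_add_right (a := 0) (b := h) (gw V) (ψ + j * h)
    have h2 : (fun s : ℝ => gw V (ψ + s + j * h)) = fun s => gw V (s + (ψ + j * h)) := by
      funext s
      rw [show ψ + s + j * h = s + (ψ + j * h) by ring]
    rw [h2, h1, zero_add]
    rw [show h + (ψ + j * h) = ψ + ((j + 1 : ℕ) : ℝ) * h by push_cast; ring]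
  rw [Finset.sum_congr rfl e]
  have h3 := intervalIntegral.sum_integral_adjacent_intervals (f := gw V) (μ := volume)
    (a := fun j : ℕ => ψ + (j : ℝ) * h) (n := N) (fun k _ => hcont.intervalIntegrable _ _)
  rw [h3]
  have h4 := (gw_periodic V).intervalIntegral_add_eq ψ (-π)
  simp only [Nat.cast_zero, zero_mul, add_zero, hNh]
  rw [h4]
  rw [show -π + 2 * π = π by ring]

end SokalFA
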