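import Mathlib

/-! See the PLAN in `FrD.lean` (`tail_abs`). -/

namespace SokalFA

open Real MeasureTheory Set

/-- Tail over periods. -/
theorem tail_abs {w F : ℝ → ℝ} {S1 h A r1 Wc : ℝ} (hh : 0 < h) (hA : 0 ≤ A) (h0 : 0 ≤ r1)
    (h1 : r1 < 1) (hF : Continuous F) (hF0 : ∀ s, 0 ≤ F s)
    (hW : ∀ a : ℝ, ∫ s in a..(a + h), F s ≤ Wc) (hw0 : ∀ s, 0 ≤ w s)
    (hw : ∀ n : ℕ, ∀ s ∈ Ioc (S1 + n * h) (S1 + (n + 1) * h), w s ≤ A * r1 ^ n) :
    ∫⁻ s in Ioi S1, ENNReal.ofReal (w s * F s) ≤ ENNReal.ofReal (A * Wc / (1 - r1)) := by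
  have hsub : Ioi S1 ⊆ ⋃ n : ℕ, Ioc (S1 + n * h) (S1 + (n + 1) * h) := by
    intro s hs
    have hs' : 0 < s - S1 := sub_pos.2 hs
    have hx : 0 < (s - S1) / h := div_pos hs' hh
    have hc : 0 < ⌈(s - S1) / h⌉₊ := Nat.ceil_pos.2 hx
    obtain ⟨n, hn⟩ : ∃ n : ℕ, ⌈(s - S1) / h⌉₊ = n + 1 := ⟨⌈(s - S1) / h⌉₊ - 1, by omega⟩
    have h2 : (s - S1) / h ≤ n + 1 := by
      have := Nat.le_ceil ((s - S1) / h)
      rw [hn] at this
      exact_mod_cast this
    have h3 : (n : ℝ) < (s - S1) / h := by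
      have : n < ⌈(s - S1) / h⌉₊ := by omega
      exact Nat.lt_ceil.1 this
    rw [div_le_iff₀ hh] at h2
    rw [lt_div_iff₀ hh] at h3
    rw [mem_iUnion]
    exact ⟨n, by linarith, by linarith⟩
  have hWc : 0 ≤ Wc := by
    refine le_trans ?_ (hW S1)
    exact intervalIntegral.integral_nonneg (by linarith) fun s _ => hF0 s
  have hpiece : ∀ n : ℕ, ∫⁻ s in Ioc (S1 + n * h) (S1 + (n + 1) * h), ENNReal.ofReal (w s * F s) ≤
      ENNReal.ofReal (A * Wc * r1 ^ n) := by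
    intro n
    have e1 : S1 + (n + 1) * h = S1 + n * h + h := by ring
    have hc0 : 0 ≤ A * r1 ^ n := by positivity
    have hint : IntegrableOn (fun s => A * r1 ^ n * F s) (Ioc (S1 + n * h) (S1 + (n + 1) * h)) := by
      have hcont : Continuous fun s => A * r1 ^ n * F s := continuous_const.mul hF
      exact (hcont.continuousOn.integrableOn_Icc).mono_set Ioc_subset_Icc_self
    calc ∫⁻ s in Ioc (S1 + n * h) (S1 + (n + 1) * h), ENNReal.ofReal (w s * F s)
        ≤ ∫⁻ s in Ioc (S1 + n * h) (S1 + (n + 1) * h), ENNReal.ofReal (A * r1 ^ n * F s) := by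
          refine setLIntegral_mono' measurableSet_Ioc fun s hs => ?_
          exact ENNReal.ofReal_le_ofReal (mul_le_mul_of_nonneg_right (hw n s hs) (hF0 s))
      _ = ENNReal.ofReal (∫ s in Ioc (S1 + n * h) (S1 + (n + 1) * h), A * r1 ^ n * F s) := by
          rw [ofReal_integral_eq_lintegral_ofReal hint]
          exact Filter.Eventually.of_forall fun s => mul_nonneg hc0 (hF0 s)
      _ ≤ ENNReal.ofReal (A * Wc * r1 ^ n) := by
          apply ENNReal.ofReal_le_ofReal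
          rw [e1, ← intervalIntegral.integral_of_le (by linarith), intervalIntegral.integral_const_mul]
          have h4 := mul_le_mul_of_nonneg_left (hW (S1 + n * h)) hc0
          refine h4.trans (le_of_eq ?_)
          ring
  calc ∫⁻ s in Ioi S1, ENNReal.ofReal (w s * F s)
      ≤ ∫⁻ s in ⋃ n : ℕ, Ioc (S1 + n * h) (S1 + (n + 1) * h), ENNReal.ofReal (w s * F s) :=
        lintegral_mono_set hsub
    _ ≤ ∑' n : ℕ, ∫⁻ s in Ioc (S1 + n * h) (S1 + (n + 1) * h), ENNReal.ofReal (w s * F s) :=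
        lintegral_iUnion_le _ _
    _ ≤ ∑' n : ℕ, ENNReal.ofReal (A * Wc * r1 ^ n) := ENNReal.tsum_le_tsum hpiece
    _ = ENNReal.ofReal (∑' n : ℕ, A * Wc * r1 ^ n) := by
        rw [ENNReal.ofReal_tsum_of_nonneg]
        · intro n
          positivity
        · exact (summable_geometric_of_lt_one h0 h1).mul_left _
    _ = ENNReal.ofReal (A * Wc / (1 - r1)) := by
        rw [tsum_mul_left, tsum_geometric_of_lt_one h0 h1, div_eq_mul_inv]

end SokalFA
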