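import Mathlib

/-!
# FAR, stage 1: Gaussian integrals

PLAN.
* `gauss_main`: `A s² + B (f-s)² = (A+B)(s - s0)² + A B f²/(A+B)`, `s0 = B f/(A+B)`, `f - s0 = A f/(A+B)`.
  `Ioc 0 S0 ⊆ Iic s0 ∪ Ioc s0 (s0 + A f/(A+B))` since `S0 ≤ f`.
  `∫_{s ≤ s0} exp(-q(A+B)(s-s0)²) = √(π/(q(A+B)))/2` (`integral_gaussian_Ioi` after the reflection),
  and `∫_{s0}^{f}` is `≤` both `√(..)/2` and the length `A f/(A+B)`.
* `gauss_half`: `Ioc 0 S0 ⊆ Ioi 0`.
* `lintegral_sym`: `∫⁻ f = ∫⁻_{Ioi 0} f + ∫⁻_{Iic 0} f`, reflection `s ↦ -s`, `Iic 0` vs `Iio 0`.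
-/

namespace SokalFA

open Real MeasureTheory Set

/-- the Gaussian bound of a region -/
noncomputable def gI (q A B f : ℝ) : ℝ :=
  (√(π / (q * (A + B))) / 2 + min (√(π / (q * (A + B))) / 2) (A * f / (A + B))) *
    exp (-(q * (A * B * f ^ 2 / (A + B))))

private theorem fre_half {b : ℝ} (hb : 0 < b) :
    ∫⁻ s in Ioi (0 : ℝ), ENNReal.ofReal (exp (-(b * s ^ 2))) = ENNReal.ofReal (√(π / b) / 2) := by
  have h1 : (fun s : ℝ => exp (-(b * s ^ 2))) = fun s : ℝ => exp (-b * s ^ 2) := by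
    funext s
    rw [neg_mul]
  have h2 : Integrable (fun s : ℝ => exp (-(b * s ^ 2))) (volume.restrict (Ioi 0)) := by
    rw [h1]
    exact (integrable_exp_neg_mul_sq hb).integrableOn
  rw [← ofReal_integral_eq_lintegral_ofReal h2
    (Filter.Eventually.of_forall fun s => (exp_pos _).le), h1, integral_gaussian_Ioi]

private theorem fre_neg (F : ℝ → ENNReal) (s : Set ℝ) :
    ∫⁻ x in (fun x : ℝ => -x) ⁻¹' s, F (-x) = ∫⁻ x in s, F x :=
  (Measure.measurePreserving_neg (volume : Measure ℝ)).setLIntegral_comp_preimage_emb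
    (Homeomorph.neg ℝ).isClosedEmbedding.measurableEmbedding F s

private theorem fre_shift (F : ℝ → ENNReal) (c : ℝ) (s : Set ℝ) :
    ∫⁻ x in (fun x : ℝ => x + c) ⁻¹' s, F (x + c) = ∫⁻ x in s, F x :=
  (measurePreserving_add_right (volume : Measure ℝ) c).setLIntegral_comp_preimage_emb
    (measurableEmbedding_addRight c) F s

private theorem fre_right {b : ℝ} (hb : 0 < b) (s0 : ℝ) :
    ∫⁻ s in Ioi s0, ENNReal.ofReal (exp (-(b * (s - s0) ^ 2))) =
      ENNReal.ofReal (√(π / b) / 2) := by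
  have h := fre_shift (fun s => ENNReal.ofReal (exp (-(b * (s - s0) ^ 2)))) s0 (Ioi s0)
  have hs : (fun x : ℝ => x + s0) ⁻¹' Ioi s0 = Ioi 0 := by
    ext x
    simp
  rw [← h, hs]
  simp only [add_sub_cancel_right]
  exact fre_half hb

private theorem fre_left {b : ℝ} (hb : 0 < b) (s0 : ℝ) :
    ∫⁻ s in Iio s0, ENNReal.ofReal (exp (-(b * (s - s0) ^ 2))) =
      ENNReal.ofReal (√(π / b) / 2) := by
  have h := fre_neg (fun s => ENNReal.ofReal (exp (-(b * (s - s0) ^ 2)))) (Iio s0)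
  have hs : (fun x : ℝ => -x) ⁻¹' Iio s0 = Ioi (-s0) := by
    ext x
    constructor
    · intro hx
      have hx' : -x < s0 := hx
      show -s0 < x
      linarith
    · intro hx
      have hx' : -s0 < x := hx
      show -x < s0
      linarith
  rw [← h, hs, ← fre_right hb (-s0)]
  refine lintegral_congr fun x => ?_
  congr 3
  ring

theorem gauss_main {q A B f S0 : ℝ} (hq : 0 < q) (hA : 0 < A) (hB : 0 < B) (hf : 0 ≤ f)
    (hS : S0 ≤ f) :
    ∫⁻ s in Ioc 0 S0, ENNReal.ofReal (exp (-(q * (A * s ^ 2 + B * (f - s) ^ 2)))) ≤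
      ENNReal.ofReal (gI q A B f) := by
  have hAB : 0 < A + B := add_pos hA hB
  have hc : 0 < q * (A + B) := mul_pos hq hAB
  obtain ⟨s0, hs0⟩ : ∃ s0 : ℝ, s0 = B * f / (A + B) := ⟨_, rfl⟩
  obtain ⟨K, hK⟩ : ∃ K : ℝ, K = exp (-(q * (A * B * f ^ 2 / (A + B)))) := ⟨_, rfl⟩
  have hK0 : 0 ≤ K := by
    rw [hK]
    exact (exp_pos _).le
  have hfs : f - s0 = A * f / (A + B) := by
    rw [hs0]
    field_simp
    ring
  have hpt : ∀ s : ℝ, ENNReal.ofReal (exp (-(q * (A * s ^ 2 + B * (f - s) ^ 2)))) =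
      ENNReal.ofReal K * ENNReal.ofReal (exp (-(q * (A + B) * (s - s0) ^ 2))) := by
    intro s
    rw [← ENNReal.ofReal_mul hK0, hK, ← exp_add]
    congr 2
    rw [hs0]
    field_simp
    ring
  obtain ⟨Φ, hΦ⟩ : ∃ Φ : ℝ → ENNReal,
      Φ = fun s => ENNReal.ofReal (exp (-(q * (A + B) * (s - s0) ^ 2))) := ⟨_, rfl⟩
  have hR : ∫⁻ s in Ioc s0 f, Φ s ≤ ENNReal.ofReal (√(π / (q * (A + B))) / 2) := by
    refine (lintegral_mono_set (fun s hs => hs.1 : Ioc s0 f ⊆ Ioi s0)).trans (le_of_eq ?_)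
    rw [hΦ]
    exact fre_right hc s0
  have hR' : ∫⁻ s in Ioc s0 f, Φ s ≤ ENNReal.ofReal (A * f / (A + B)) := by
    calc ∫⁻ s in Ioc s0 f, Φ s ≤ ∫⁻ s in Ioc s0 f, 1 := by
          refine lintegral_mono fun s => ?_
          rw [hΦ]
          show ENNReal.ofReal (exp (-(q * (A + B) * (s - s0) ^ 2))) ≤ 1
          rw [← ENNReal.ofReal_one]
          refine ENNReal.ofReal_le_ofReal (exp_le_one_iff.mpr ?_)
          have : 0 ≤ q * (A + B) * (s - s0) ^ 2 := by positivity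
          linarith
      _ = ENNReal.ofReal (A * f / (A + B)) := by
          rw [setLIntegral_const, one_mul, Real.volume_Ioc, hfs]
  have hL : ∫⁻ s in Iic s0, Φ s = ENNReal.ofReal (√(π / (q * (A + B))) / 2) := by
    rw [setLIntegral_congr (Iio_ae_eq_Iic (μ := volume) (a := s0)).symm, hΦ]
    exact fre_left hc s0
  have hsub : Ioc 0 S0 ⊆ Iic s0 ∪ Ioc s0 f := by
    intro s hs
    rcases le_or_gt s s0 with h | h
    · exact Or.inl h
    · exact Or.inr ⟨h, hs.2.trans hS⟩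
  calc ∫⁻ s in Ioc 0 S0, ENNReal.ofReal (exp (-(q * (A * s ^ 2 + B * (f - s) ^ 2))))
      ≤ ∫⁻ s in Iic s0 ∪ Ioc s0 f, ENNReal.ofReal (exp (-(q * (A * s ^ 2 + B * (f - s) ^ 2)))) :=
        lintegral_mono_set hsub
    _ = ∫⁻ s in Iic s0 ∪ Ioc s0 f, ENNReal.ofReal K * Φ s := by
        refine lintegral_congr fun s => ?_
        rw [hpt s, hΦ]
    _ = ENNReal.ofReal K * ∫⁻ s in Iic s0 ∪ Ioc s0 f, Φ s :=
        lintegral_const_mul' _ _ ENNReal.ofReal_ne_top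
    _ ≤ ENNReal.ofReal K * ((∫⁻ s in Iic s0, Φ s) + ∫⁻ s in Ioc s0 f, Φ s) :=
        mul_le_mul_right (lintegral_union_le _ _ _) _
    _ ≤ ENNReal.ofReal K * (ENNReal.ofReal (√(π / (q * (A + B))) / 2) +
          ENNReal.ofReal (min (√(π / (q * (A + B))) / 2) (A * f / (A + B)))) := by
        refine mul_le_mul_right (add_le_add hL.le ?_) _
        rcases le_total (√(π / (q * (A + B))) / 2) (A * f / (A + B)) with h | h
        · rwa [min_eq_left h]
        · rwa [min_eq_right h]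
    _ = ENNReal.ofReal (gI q A B f) := by
        have h1 : 0 ≤ √(π / (q * (A + B))) / 2 := by positivity
        have h2 : 0 ≤ min (√(π / (q * (A + B))) / 2) (A * f / (A + B)) :=
          le_min h1 (by positivity)
        rw [← ENNReal.ofReal_add h1 h2, ← ENNReal.ofReal_mul hK0, hK]
        congr 1
        unfold gI
        ring

theorem gauss_half {q A S0 : ℝ} (hq : 0 < q) (hA : 0 < A) :
    ∫⁻ s in Ioc 0 S0, ENNReal.ofReal (exp (-(q * (A * s ^ 2)))) ≤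
      ENNReal.ofReal (√(π / (q * A)) / 2) := by
  refine (lintegral_mono_set (fun s hs => hs.1 : Ioc 0 S0 ⊆ Ioi (0 : ℝ))).trans (le_of_eq ?_)
  rw [← fre_half (mul_pos hq hA)]
  refine lintegral_congr fun s => ?_
  rw [mul_assoc]

theorem lintegral_sym (F : ℝ → ENNReal) :
    ∫⁻ s, F s = (∫⁻ s in Ioi (0 : ℝ), F s) + ∫⁻ s in Ioi (0 : ℝ), F (-s) := by
  have h1 := lintegral_add_compl (μ := (volume : Measure ℝ)) F (measurableSet_Ioi (a := (0 : ℝ)))
  have h2 := fre_neg F (Iio 0)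
  have hs : (fun x : ℝ => -x) ⁻¹' Iio 0 = Ioi 0 := by
    ext x
    constructor
    · intro hx
      have hx' : -x < 0 := hx
      show 0 < x
      linarith
    · intro hx
      have hx' : 0 < x := hx
      show -x < 0
      linarith
  rw [hs, setLIntegral_congr (Iio_ae_eq_Iic (μ := volume) (a := (0 : ℝ)))] at h2
  rw [h2, ← h1, compl_Ioi]

theorem lintegral_three (F : ℝ → ENNReal) {a b : ℝ} (h0 : 0 ≤ a) (hab : a ≤ b) :
    ∫⁻ s in Ioi (0 : ℝ), F s = (∫⁻ s in Ioc 0 a, F s) + (∫⁻ s in Ioc a b, F s) +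
      ∫⁻ s in Ioi b, F s := by
  have h1 : Ioc 0 a ∪ Ioi a = Ioi (0 : ℝ) := Ioc_union_Ioi_eq_Ioi h0
  have h2 : Ioc a b ∪ Ioi b = Ioi a := Ioc_union_Ioi_eq_Ioi hab
  have d1 : Disjoint (Ioc 0 a) (Ioi a) := Ioc_disjoint_Ioi le_rfl
  have d2 : Disjoint (Ioc a b) (Ioi b) := Ioc_disjoint_Ioi le_rfl
  rw [← h1, lintegral_union measurableSet_Ioi d1, ← h2, lintegral_union measurableSet_Ioi d2,
    add_assoc]

end SokalFA
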