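import Pool.Agent.Lib_MP_af4de1_fa.FrC2
import Pool.Agent.Lib_MP_af4de1_fa.FrD
import Pool.Agent.Lib_MP_af4de1_fa.FrD2
import Pool.Agent.Lib_MP_af4de1_fa.FrD3
import Pool.Agent.Lib_MP_af4de1_fa.FrE

/-!
# FAR, stage 1: the sum of the far waves on the path (definitions for the region lemmas)

`h = 2π/N`, the wave `j` has angle `(x + j) h + s`, `V = q exp(pa ρ s)`.
-/

namespace SokalFA

open Real MeasureTheory Set

/-- the sum of the far waves at the point `s` of the path -/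
noncomputable def FS (N : ℕ) (ρ x q s : ℝ) : ℝ :=
  ∑ j ∈ Finset.Ico 1 (N - 1), exp (-(q * DD ρ ((x + j) * (2 * π / N)) s))

theorem FS_nonneg (N : ℕ) (ρ x q s : ℝ) : 0 ≤ FS N ρ x q s :=
  Finset.sum_nonneg fun _ _ => (exp_pos _).le

theorem FS_eq (N : ℕ) (ρ x q s : ℝ) : FS N ρ x q s = exp (-(q * Qr ρ s)) *
    ∑ j ∈ Finset.Ico 1 (N - 1), gw (q * exp (pa ρ s)) (x * (2 * π / N) + s + j * (2 * π / N)) := by
  unfold FS gw
  rw [Finset.mul_sum]
  refine Finset.sum_congr rfl fun j _ => ?_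
  rw [← Real.exp_add, DD_eq]
  congr 1
  have : (x + j) * (2 * π / N) + s = x * (2 * π / N) + s + j * (2 * π / N) := by ring
  rw [this]
  ring

theorem gw_anti {V V' : ℝ} (h : V ≤ V') (u : ℝ) : gw V' u ≤ gw V u := by
  unfold gw
  apply exp_le_exp.2
  have := Real.cos_le_one u
  have : V * (1 - cos u) ≤ V' * (1 - cos u) := mul_le_mul_of_nonneg_right h (by linarith)
  linarith

theorem FS_le {N : ℕ} {ρ x q s V : ℝ} (hV : V ≤ q * exp (pa ρ s)) :
    FS N ρ x q s ≤ exp (-(q * Qr ρ s)) *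
      ∑ j ∈ Finset.Ico 1 (N - 1), gw V (x * (2 * π / N) + s + j * (2 * π / N)) := by
  rw [FS_eq]
  refine mul_le_mul_of_nonneg_left ?_ (exp_pos _).le
  exact Finset.sum_le_sum fun j _ => gw_anti hV _

/-- the sum of all waves -/
noncomputable def GA (N : ℕ) (V ψ : ℝ) : ℝ := ∑ j ∈ Finset.range N, gw V (ψ + j * (2 * π / N))

theorem GA_nonneg (N : ℕ) (V ψ : ℝ) : 0 ≤ GA N V ψ :=
  Finset.sum_nonneg fun _ _ => (gw_pos _ _).le

theorem continuous_GA (N : ℕ) (V : ℝ) : Continuous (GA N V) := by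
  unfold GA
  fun_prop

theorem FS_le_all {N : ℕ} {ρ x q s V : ℝ} (hV : V ≤ q * exp (pa ρ s)) :
    FS N ρ x q s ≤ exp (-(q * Qr ρ s)) * GA N V (x * (2 * π / N) + s) := by
  refine (FS_le hV).trans (mul_le_mul_of_nonneg_left ?_ (exp_pos _).le)
  unfold GA
  refine Finset.sum_le_sum_of_subset_of_nonneg ?_ fun _ _ _ => (gw_pos _ _).le
  intro j hj
  rw [Finset.mem_Ico] at hj
  rw [Finset.mem_range]
  omega

theorem GA_shift {N : ℕ} (hN : 1 ≤ N) (V ψ : ℝ) : GA N V (ψ + 2 * π / N) = GA N V ψ := by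
  have hN0 : (N : ℝ) ≠ 0 := by exact_mod_cast (by omega : N ≠ 0)
  obtain ⟨M, rfl⟩ : ∃ M, N = M + 1 := ⟨N - 1, by omega⟩
  unfold GA
  rw [Finset.sum_range_succ, Finset.sum_range_succ' (fun j : ℕ => gw V (ψ + j * (2 * π / (M + 1 : ℕ)))) M]
  congr 1
  · refine Finset.sum_congr rfl fun j _ => ?_
    congr 1
    push_cast
    ring
  · unfold gw
    congr 4
    have : ψ + 2 * π / (M + 1 : ℕ) + M * (2 * π / (M + 1 : ℕ)) = ψ + ((0 : ℕ) : ℝ) * (2 * π / (M + 1 : ℕ)) + 2 * π := by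
      field_simp
      push_cast
      ring
    rw [this, Real.cos_add_two_pi]

theorem GA_neg {N : ℕ} (hN : 1 ≤ N) (V ψ : ℝ) : GA N V (-ψ) = GA N V ψ := by
  have hN0 : (N : ℝ) ≠ 0 := by exact_mod_cast (by omega : N ≠ 0)
  have h1 : GA N V (-ψ) = GA N V (ψ + 2 * π / N) := by
    unfold GA
    rw [← Finset.sum_range_reflect]
    refine Finset.sum_congr rfl fun j hj => ?_
    rw [Finset.mem_range] at hj
    unfold gw
    congr 4
    have hc : ((N - 1 - j : ℕ) : ℝ) = (N : ℝ) - 1 - j := by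
      rw [Nat.cast_sub (by omega), Nat.cast_sub (by omega)]; simp
    have : -ψ + ((N - 1 - j : ℕ) : ℝ) * (2 * π / N) = 2 * π - (ψ + 2 * π / N + j * (2 * π / N)) := by
      rw [hc]
      field_simp
      ring
    rw [this, Real.cos_two_pi_sub]
  rw [h1, GA_shift hN]

/-- the quadratic coefficient on the right -/
noncomputable def AR (ρ T : ℝ) : ℝ :=
  (√(1 + ρ ^ 2) / ρ - (1 + T / 3 + 5 * T ^ 2 / 48) / 2) / (1 + ρ ^ 2)

/-- the quadratic coefficient on the left -/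
noncomputable def AL (ρ : ℝ) : ℝ := (√(1 + ρ ^ 2) / ρ - 1 / 2) / (1 + ρ ^ 2)

theorem AR_pos {ρ T : ℝ} (hρ : 0 < ρ) (hT0 : 0 ≤ T) (hT1 : T ≤ 1) : 0 < AR ρ T := by
  have := one_le_mu hρ
  unfold AR
  refine div_pos ?_ (by positivity)
  nlinarith

theorem AL_pos {ρ : ℝ} (hρ : 0 < ρ) : 0 < AL ρ := by
  have := one_le_mu hρ
  unfold AL
  exact div_pos (by linarith) (by positivity)

/-- The two choices for the minorant of `1 - cos`. -/
def Mino (f β χ w0 : ℝ) : Prop :=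
  0 < β ∧ 0 ≤ χ ∧ ∀ V v : ℝ, 0 ≤ V → 0 ≤ v → v ≤ f → v ≤ π →
    gw V v ≤ exp (-(V * (β * v ^ 2))) + χ * exp (-(V * w0))

theorem mino_split (f : ℝ) : Mino f (11 / 25) 1 (6336 / 10000) :=
  ⟨by norm_num, by norm_num, fun V v hV h0 _ h1 => by rw [one_mul]; exact gw_split hV h0 h1⟩

end SokalFA
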