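import Pool.Agent.Lib_MP_af4de1_fa.FrF

/-!
# FAR, stage 1: left side, `0 < s ≤ S0 ≤ f`, `f = (1+x) h` approaching, `f' = (2-x) h` receding

Point `-s` of the path, `b = s/√R ∈ (0,1]`, `pa = -b`, `V = q e^(-b)`, `t = f/√R`.

PLAN. `FS_eq`, `far_chain` with `ψ = x h - s`, `2h - ψ = f' + s`, `ψ + h = f - s`, `sg V h ≤ sg (q e^(-T)) h`
(`sg` is antitone in `V > 0`), `Qr ρ (-s) ≥ AL ρ s²`.
* Approaching wave (`f - s ≤ π`): `Mino` with `V = q e^(-b)`: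
  `e^(-b) (f-s)² ≥ e^(-tσ) ((f-s)² - (4/27)(1-σ)³ t f²)`: `e^(-b) = e^(-tσ) e^(-(b-tσ)) ≥ e^(-tσ) (1 - (b - tσ))`,
  `b = λ t`, `f - s = (1-λ) f`, `(λ-σ)(1-λ)² ≤ (4/27)(1-σ)³` for `0 ≤ λ ≤ 1` (AM-GM: `(4/27) y³ - (y - v) v² =
  (y - 3v/2)² (4y/27 + v/9)·.. ≥ 0` with `v = 1-λ`, `y = 1-σ`).
  The `χ` term: `A s² + w0 e^(-b) ≥ (A/2) s² + w0 - w0²/(2 mu - 1)`, `A s² = (mu - 1/2) b²`, `e^(-b) ≥ 1 - b`
  (needs `w0 ≥ 0`).
* Receding wave: hypothesis `hm`.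
-/

namespace SokalFA

open Real MeasureTheory Set

/-- the penalty -/
noncomputable def pen (ρ β σ f : ℝ) : ℝ :=
  β * exp (-(f / √(1 + ρ ^ 2) * σ)) * (4 / 27 * (1 - σ) ^ 3 * (f / √(1 + ρ ^ 2)) * f ^ 2)

private theorem cube_FrL1 {Y v : ℝ} (hY : 0 ≤ Y) (hv : 0 ≤ v) : (Y - v) * v ^ 2 ≤ 4 / 27 * Y ^ 3 := by
  have h1 : 0 ≤ (Y - 3 * v / 2) ^ 2 * (4 / 27 * Y + 4 / 9 * v) := by positivity
  nlinarith

private theorem sg_anti_FrL1 {V V' h : ℝ} (hV : 0 < V) (hVV : V ≤ V') (hc : cos h < 1) :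
    sg V' h ≤ sg V h := by
  unfold sg
  have h1 : 0 < V * (1 - cos h) := mul_pos hV (by linarith)
  have h2 : exp (-(V * (1 - cos h))) < 1 := exp_lt_one_iff.2 (by linarith)
  apply one_div_le_one_div_of_le (by linarith)
  have h3 : V * (1 - cos h) ≤ V' * (1 - cos h) := mul_le_mul_of_nonneg_right hVV (by linarith)
  have h4 : exp (-(V' * (1 - cos h))) ≤ exp (-(V * (1 - cos h))) := exp_le_exp.2 (by linarith)
  linarith

private theorem cos_lt_FrL1 {h : ℝ} (h0 : 0 < h) (h1 : h ≤ π) : cos h < 1 := by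
  have := Real.cos_lt_cos_of_nonneg_of_le_pi le_rfl h1 h0
  rwa [Real.cos_zero] at this

/-- the exponent of the approaching wave -/
private theorem app_FrL1 {R f s σ : ℝ} (hR : 0 < R) (hs : 0 < s) (hsf : s ≤ f) (hσ1 : σ ≤ 1) :
    exp (-(f / R * σ)) * (f - s) ^ 2 ≤ exp (-(s / R)) * (f - s) ^ 2 +
      exp (-(f / R * σ)) * (4 / 27 * (1 - σ) ^ 3 * (f / R) * f ^ 2) := by
  have hf : 0 < f := lt_of_lt_of_le hs hsf
  have h1 : exp (-(s / R)) = exp (-(f / R * σ)) * exp (-(s / R - f / R * σ)) := by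
    rw [← Real.exp_add]
    congr 1
    ring
  have h2 := Real.add_one_le_exp (-(s / R - f / R * σ))
  have h3 := Real.exp_pos (-(f / R * σ))
  have h4 := cube_FrL1 (Y := (1 - σ) * f) (v := f - s) (mul_nonneg (by linarith) hf.le)
    (by linarith)
  have h5 : (s / R - f / R * σ) * (f - s) ^ 2 ≤ 4 / 27 * (1 - σ) ^ 3 * (f / R) * f ^ 2 := by
    have e1 : (s / R - f / R * σ) * (f - s) ^ 2 = (((1 - σ) * f - (f - s)) * (f - s) ^ 2) / R := by
      field_simp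
      ring
    have e2 : 4 / 27 * (1 - σ) ^ 3 * (f / R) * f ^ 2 = (4 / 27 * ((1 - σ) * f) ^ 3) / R := by
      field_simp
    rw [e1, e2]
    exact div_le_div_of_nonneg_right h4 hR.le
  have h6 : (1 - (s / R - f / R * σ)) * (f - s) ^ 2 ≤ exp (-(s / R - f / R * σ)) * (f - s) ^ 2 :=
    mul_le_mul_of_nonneg_right (by linarith) (sq_nonneg _)
  have h7 : (f - s) ^ 2 ≤ exp (-(s / R - f / R * σ)) * (f - s) ^ 2 +
      4 / 27 * (1 - σ) ^ 3 * (f / R) * f ^ 2 := by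
    nlinarith
  rw [h1]
  have h8 := mul_le_mul_of_nonneg_left h7 h3.le
  nlinarith

/-- the exponent of the constant term -/
private theorem chi_FrL1 {mu b w0 : ℝ} (hmu : 1 ≤ mu) (hw0 : 0 ≤ w0) :
    w0 - w0 ^ 2 / (2 * mu - 1) + (mu - 1 / 2) / 2 * b ^ 2 ≤ (mu - 1 / 2) * b ^ 2 + exp (-b) * w0 := by
  have h1 := Real.add_one_le_exp (-b)
  have h2 : (1 - b) * w0 ≤ exp (-b) * w0 := mul_le_mul_of_nonneg_right (by linarith) hw0
  have h3 : 0 < 2 * mu - 1 := by linarith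
  have h4 : 0 ≤ ((2 * mu - 1) * b / 2 - w0) ^ 2 / (2 * mu - 1) := by positivity
  have h5 : ((2 * mu - 1) * b / 2 - w0) ^ 2 / (2 * mu - 1) =
      (2 * mu - 1) * b ^ 2 / 4 - b * w0 + w0 ^ 2 / (2 * mu - 1) := by
    field_simp
    ring
  rw [h5] at h4
  nlinarith

theorem L1_pt {N : ℕ} (hN : 3 ≤ N) {ρ x q s T β χ w0 σ m : ℝ} (hρ : 0 < ρ) (hx0 : 0 ≤ x)
    (hx1 : x ≤ 1) (hq : 0 < q) (hs : 0 < s) (hsf : s ≤ (1 + x) * (2 * π / N))
    (hsT : s / √(1 + ρ ^ 2) ≤ T) (hT1 : T ≤ 1) (hM : Mino ((1 + x) * (2 * π / N)) β χ w0)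
    (hw0 : 0 ≤ w0) (hσ0 : 0 ≤ σ) (hσ1 : σ ≤ 1)
    (hm : (2 - x) * (2 * π / N) + s ≤ π →
      m ≤ exp (-(s / √(1 + ρ ^ 2))) * (1 - cos ((2 - x) * (2 * π / N) + s))) :
    FS N ρ x q (-s) ≤ sg (q * exp (-T)) (2 * π / N) *
      (exp (q * pen ρ β σ ((1 + x) * (2 * π / N))) *
        exp (-(q * (AL ρ * s ^ 2 + β * exp (-((1 + x) * (2 * π / N) / √(1 + ρ ^ 2) * σ)) *
          ((1 + x) * (2 * π / N) - s) ^ 2))) +
       (if (2 - x) * (2 * π / N) ≤ π then exp (-(q * m)) else 0) * exp (-(q * (AL ρ * s ^ 2))) +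
       χ * exp (-(q * (w0 - w0 ^ 2 / (2 * (√(1 + ρ ^ 2) / ρ) - 1)))) *
         exp (-(q * (AL ρ / 2 * s ^ 2)))) := by
  obtain ⟨h, hh⟩ : ∃ h : ℝ, h = 2 * π / N := ⟨_, rfl⟩
  rw [← hh] at hsf hM hm ⊢
  obtain ⟨R, hRe⟩ : ∃ R : ℝ, R = √(1 + ρ ^ 2) := ⟨_, rfl⟩
  have hR : 0 < R := by rw [hRe]; exact sqrt_R_pos ρ
  have hN3 : (3 : ℝ) ≤ N := by exact_mod_cast hN
  have hN0 : (0 : ℝ) < N := by linarith
  have hpi := Real.pi_pos
  have hh0 : 0 < h := by rw [hh]; positivity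
  have hhpi : h ≤ π := by
    rw [hh, div_le_iff₀ hN0]
    nlinarith
  have hcos := cos_lt_FrL1 hh0 hhpi
  have hmu := one_le_mu hρ
  have hb0 : 0 < s / R := div_pos hs hR
  have hbT : s / R ≤ T := by rw [hRe]; exact hsT
  have hpa : pa ρ (-s) = -(s / R) := by
    rw [pa_mid, ← hRe]
    · ring
    · rw [← hRe]
      have : s ≤ R := by
        have h1 : s / R ≤ 1 := hbT.trans hT1
        rwa [div_le_one hR] at h1
      linarith
    · rw [← hRe]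
      linarith
  have hQ : AL ρ * s ^ 2 ≤ Qr ρ (-s) := Qr_left hρ hs.le (hsT.trans hT1)
  have hAL : AL ρ * s ^ 2 = (√(1 + ρ ^ 2) / ρ - 1 / 2) * (s / R) ^ 2 := by
    have hRR : R ^ 2 = 1 + ρ ^ 2 := by rw [hRe]; exact Real.sq_sqrt (by positivity)
    unfold AL
    rw [div_pow, hRR]
    ring
  obtain ⟨V, hV⟩ : ∃ V : ℝ, V = q * exp (-(s / R)) := ⟨_, rfl⟩
  have hV0 : 0 < V := by rw [hV]; exact mul_pos hq (exp_pos _)
  have hVT : q * exp (-T) ≤ V := by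
    rw [hV]
    exact mul_le_mul_of_nonneg_left (exp_le_exp.2 (by linarith)) hq.le
  have hfc := far_chain hN hV0 (ψ := x * h + -s) (by rw [← hh]; linarith) (by rw [← hh]; nlinarith)
  rw [← hh] at hfc
  have hsg := sg_anti_FrL1 (mul_pos hq (exp_pos (-T))) hVT hcos
  have hsg0 : 0 < sg (q * exp (-T)) h :=
    lt_of_lt_of_le one_pos (sg_ge_one (mul_pos hq (exp_pos (-T))) hh0 (by linarith))
  obtain ⟨hβ, hχ, hMM⟩ := hM
  -- receding wave
  have hrec : (if 2 * h - (x * h + -s) ≤ π then gw V (2 * h - (x * h + -s)) else 0) ≤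
      (if (2 - x) * h ≤ π then exp (-(q * m)) else 0) := by
    have e : 2 * h - (x * h + -s) = (2 - x) * h + s := by ring
    rw [e]
    split_ifs with h1 h2 h2
    · have h3 := hm h1
      rw [← hRe] at h3
      unfold gw
      apply exp_le_exp.2
      rw [hV]
      have h4 := mul_le_mul_of_nonneg_left h3 hq.le
      linarith
    · exfalso
      linarith
    · exact (exp_pos _).le
    · exact le_rfl
  -- approaching wave
  have happ : (if x * h + -s + h ≤ π then gw V (x * h + -s + h) else 0) ≤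
      exp (-(V * (β * ((1 + x) * h - s) ^ 2))) + χ * exp (-(V * w0)) := by
    have e : x * h + -s + h = (1 + x) * h - s := by ring
    rw [e]
    split_ifs with h1
    · exact hMM V _ hV0.le (by linarith) (by linarith) h1
    · have := mul_nonneg hχ (exp_pos (-(V * w0))).le
      have := exp_pos (-(V * (β * ((1 + x) * h - s) ^ 2)))
      linarith
  have hrec0 : 0 ≤ (if (2 - x) * h ≤ π then exp (-(q * m)) else 0) := by
    split_ifs
    · exact (exp_pos _).le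
    · exact le_rfl
  -- the sum
  have hsum : ∑ j ∈ Finset.Ico 1 (N - 1), gw V (x * h + -s + j * h) ≤ sg (q * exp (-T)) h *
      ((if (2 - x) * h ≤ π then exp (-(q * m)) else 0) +
        (exp (-(V * (β * ((1 + x) * h - s) ^ 2))) + χ * exp (-(V * w0)))) := by
    refine hfc.trans ?_
    refine mul_le_mul hsg (add_le_add hrec happ) ?_ hsg0.le
    refine add_nonneg ?_ ?_
    · split_ifs
      · exact (gw_pos _ _).le
      · exact le_rfl
    · split_ifs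
      · exact (gw_pos _ _).le
      · exact le_rfl
  have hE : exp (-(q * Qr ρ (-s))) ≤ exp (-(q * (AL ρ * s ^ 2))) := by
    apply exp_le_exp.2
    have := mul_le_mul_of_nonneg_left hQ hq.le
    linarith
  -- the three products
  have hp1 : exp (-(q * (AL ρ * s ^ 2))) * exp (-(V * (β * ((1 + x) * h - s) ^ 2))) ≤
      exp (q * pen ρ β σ ((1 + x) * h)) *
        exp (-(q * (AL ρ * s ^ 2 + β * exp (-((1 + x) * h / √(1 + ρ ^ 2) * σ)) *
          ((1 + x) * h - s) ^ 2))) := by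
    rw [← Real.exp_add, ← Real.exp_add]
    apply exp_le_exp.2
    have h1 := app_FrL1 (R := R) (f := (1 + x) * h) (s := s) (σ := σ) hR hs hsf hσ1
    unfold pen
    rw [← hRe, hV]
    have h2 := mul_le_mul_of_nonneg_left h1 (mul_pos hq hβ).le
    nlinarith
  have hp3 : exp (-(q * (AL ρ * s ^ 2))) * (χ * exp (-(V * w0))) ≤
      χ * exp (-(q * (w0 - w0 ^ 2 / (2 * (√(1 + ρ ^ 2) / ρ) - 1)))) *
         exp (-(q * (AL ρ / 2 * s ^ 2))) := by
    have h1 := chi_FrL1 (mu := √(1 + ρ ^ 2) / ρ) (b := s / R) (w0 := w0) hmu hw0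
    have h2 : exp (-(q * (AL ρ * s ^ 2))) * exp (-(V * w0)) ≤
        exp (-(q * (w0 - w0 ^ 2 / (2 * (√(1 + ρ ^ 2) / ρ) - 1)))) *
          exp (-(q * (AL ρ / 2 * s ^ 2))) := by
      rw [← Real.exp_add, ← Real.exp_add]
      apply exp_le_exp.2
      have e1 : AL ρ / 2 * s ^ 2 = (√(1 + ρ ^ 2) / ρ - 1 / 2) / 2 * (s / R) ^ 2 := by
        have : AL ρ / 2 * s ^ 2 = (AL ρ * s ^ 2) / 2 := by ring
        rw [this, hAL]
        ring
      rw [e1, hAL, hV]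
      have h3 := mul_le_mul_of_nonneg_left h1 hq.le
      nlinarith
    have h3 := mul_le_mul_of_nonneg_left h2 hχ
    calc exp (-(q * (AL ρ * s ^ 2))) * (χ * exp (-(V * w0)))
        = χ * (exp (-(q * (AL ρ * s ^ 2))) * exp (-(V * w0))) := by ring
      _ ≤ _ := h3
      _ = _ := by ring
  -- assembly
  rw [FS_eq, ← hh, hpa, ← hV]
  have hsum0 : 0 ≤ ∑ j ∈ Finset.Ico 1 (N - 1), gw V (x * h + -s + j * h) :=
    Finset.sum_nonneg fun _ _ => (gw_pos _ _).le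
  calc exp (-(q * Qr ρ (-s))) * ∑ j ∈ Finset.Ico 1 (N - 1), gw V (x * h + -s + j * h)
      ≤ exp (-(q * (AL ρ * s ^ 2))) * (sg (q * exp (-T)) h *
      ((if (2 - x) * h ≤ π then exp (-(q * m)) else 0) +
        (exp (-(V * (β * ((1 + x) * h - s) ^ 2))) + χ * exp (-(V * w0))))) :=
        mul_le_mul hE hsum hsum0 (exp_pos _).le
    _ = sg (q * exp (-T)) h *
      (exp (-(q * (AL ρ * s ^ 2))) * exp (-(V * (β * ((1 + x) * h - s) ^ 2))) +
       (if (2 - x) * h ≤ π then exp (-(q * m)) else 0) * exp (-(q * (AL ρ * s ^ 2))) +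
        exp (-(q * (AL ρ * s ^ 2))) * (χ * exp (-(V * w0)))) := by ring
    _ ≤ _ := by
      refine mul_le_mul_of_nonneg_left ?_ hsg0.le
      exact add_le_add (add_le_add hp1 le_rfl) hp3

theorem L1 {N : ℕ} (hN : 3 ≤ N) {ρ x q S0 T β χ w0 σ m : ℝ} (hρ : 0 < ρ) (hx0 : 0 ≤ x)
    (hx1 : x ≤ 1) (hq : 0 < q) (hS : 0 ≤ S0) (hsf : S0 ≤ (1 + x) * (2 * π / N))
    (hsT : S0 / √(1 + ρ ^ 2) ≤ T) (hT1 : T ≤ 1) (hM : Mino ((1 + x) * (2 * π / N)) β χ w0)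
    (hw0 : 0 ≤ w0) (hσ0 : 0 ≤ σ) (hσ1 : σ ≤ 1)
    (hm : ∀ s, 0 < s → s ≤ S0 → (2 - x) * (2 * π / N) + s ≤ π →
      m ≤ exp (-(s / √(1 + ρ ^ 2))) * (1 - cos ((2 - x) * (2 * π / N) + s))) :
    ∫⁻ s in Ioc 0 S0, ENNReal.ofReal (FS N ρ x q (-s)) ≤
     ENNReal.ofReal (sg (q * exp (-T)) (2 * π / N) *
      (exp (q * pen ρ β σ ((1 + x) * (2 * π / N))) *
        gI q (AL ρ) (β * exp (-((1 + x) * (2 * π / N) / √(1 + ρ ^ 2) * σ))) ((1 + x) * (2 * π / N)) +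
       (if (2 - x) * (2 * π / N) ≤ π then exp (-(q * m)) else 0) * (√(π / (q * AL ρ)) / 2) +
       χ * exp (-(q * (w0 - w0 ^ 2 / (2 * (√(1 + ρ ^ 2) / ρ) - 1)))) *
         (√(π / (q * (AL ρ / 2))) / 2))) := by
  obtain ⟨h, hh⟩ : ∃ h : ℝ, h = 2 * π / N := ⟨_, rfl⟩
  obtain ⟨E1, hE1⟩ : ∃ E1 : ℝ, E1 = exp (q * pen ρ β σ ((1 + x) * h)) := ⟨_, rfl⟩
  obtain ⟨E2, hE2⟩ : ∃ E2 : ℝ, E2 = (if (2 - x) * h ≤ π then exp (-(q * m)) else 0) := ⟨_, rfl⟩
  obtain ⟨E3, hE3⟩ : ∃ E3 : ℝ,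
    E3 = χ * exp (-(q * (w0 - w0 ^ 2 / (2 * (√(1 + ρ ^ 2) / ρ) - 1)))) := ⟨_, rfl⟩
  obtain ⟨B, hB⟩ : ∃ B : ℝ, B = β * exp (-((1 + x) * h / √(1 + ρ ^ 2) * σ)) := ⟨_, rfl⟩
  obtain ⟨G, hG⟩ : ∃ G : ℝ, G = sg (q * exp (-T)) h := ⟨_, rfl⟩
  rw [← hh, ← hE1, ← hE2, ← hE3, ← hB, ← hG]
  have hN3 : (3 : ℝ) ≤ N := by exact_mod_cast hN
  have hN0 : (0 : ℝ) < N := by linarith
  have hpi := Real.pi_pos
  have hh0 : 0 < h := by rw [hh]; positivity
  have hhpi : h < 2 * π := by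
    rw [hh, div_lt_iff₀ hN0]
    nlinarith
  have hA := AL_pos hρ
  have hβ := hM.1
  have hχ := hM.2.1
  have hB0 : 0 < B := by rw [hB]; exact mul_pos hβ (exp_pos _)
  have hG0 : 0 ≤ G := by
    rw [hG]
    exact (lt_of_lt_of_le one_pos (sg_ge_one (mul_pos hq (exp_pos (-T))) hh0 hhpi)).le
  have hE10 : 0 ≤ E1 := by rw [hE1]; exact (exp_pos _).le
  have hE20 : 0 ≤ E2 := by
    rw [hE2]
    split_ifs
    · exact (exp_pos _).le
    · exact le_rfl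
  have hE30 : 0 ≤ E3 := by rw [hE3]; exact mul_nonneg hχ (exp_pos _).le
  have hf : 0 ≤ (1 + x) * h := mul_nonneg (by linarith) hh0.le
  have hR := sqrt_R_pos ρ
  have hpt : ∀ s ∈ Ioc (0 : ℝ) S0, ENNReal.ofReal (FS N ρ x q (-s)) ≤
      ENNReal.ofReal (G * E1) *
        ENNReal.ofReal (exp (-(q * (AL ρ * s ^ 2 + B * ((1 + x) * h - s) ^ 2)))) +
      ENNReal.ofReal (G * E2) * ENNReal.ofReal (exp (-(q * (AL ρ * s ^ 2)))) +
      ENNReal.ofReal (G * E3) * ENNReal.ofReal (exp (-(q * (AL ρ / 2 * s ^ 2)))) := by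
    intro s hs
    have h1 := L1_pt (N := N) hN (ρ := ρ) (x := x) (q := q) (s := s) (T := T) (β := β) (χ := χ)
      (w0 := w0) (σ := σ) (m := m) hρ hx0 hx1 hq hs.1 (hs.2.trans hsf)
      ((div_le_div_of_nonneg_right hs.2 hR.le).trans hsT) hT1 hM hw0 hσ0 hσ1 (hm s hs.1 hs.2)
    rw [← hh, ← hE1, ← hE2, ← hE3, ← hB, ← hG] at h1
    rw [← ENNReal.ofReal_mul (mul_nonneg hG0 hE10), ← ENNReal.ofReal_mul (mul_nonneg hG0 hE20),
      ← ENNReal.ofReal_mul (mul_nonneg hG0 hE30), ← ENNReal.ofReal_add, ← ENNReal.ofReal_add]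
    · refine ENNReal.ofReal_le_ofReal (h1.trans (le_of_eq ?_))
      ring
    · have := mul_nonneg (mul_nonneg hG0 hE10)
        (exp_pos (-(q * (AL ρ * s ^ 2 + B * ((1 + x) * h - s) ^ 2)))).le
      have := mul_nonneg (mul_nonneg hG0 hE20) (exp_pos (-(q * (AL ρ * s ^ 2)))).le
      linarith
    · exact mul_nonneg (mul_nonneg hG0 hE30) (exp_pos _).le
    · exact mul_nonneg (mul_nonneg hG0 hE10) (exp_pos _).le
    · exact mul_nonneg (mul_nonneg hG0 hE20) (exp_pos _).le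
  have hm1 : Measurable fun s : ℝ => ENNReal.ofReal (G * E1) *
        ENNReal.ofReal (exp (-(q * (AL ρ * s ^ 2 + B * ((1 + x) * h - s) ^ 2)))) := by
    fun_prop
  have hm2 : Measurable fun s : ℝ => ENNReal.ofReal (G * E2) *
        ENNReal.ofReal (exp (-(q * (AL ρ * s ^ 2)))) := by
    fun_prop
  have hg1 := gauss_main (S0 := S0) hq hA hB0 hf (by rw [hh]; exact hsf)
  have hg2 := gauss_half (S0 := S0) hq hA
  have hg3 := gauss_half (S0 := S0) hq (half_pos hA)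
  have hgI : 0 ≤ gI q (AL ρ) B ((1 + x) * h) := by
    unfold gI
    refine mul_nonneg (add_nonneg (by positivity) (le_min (by positivity) ?_)) (exp_pos _).le
    exact div_nonneg (mul_nonneg hA.le hf) (by linarith)
  calc ∫⁻ s in Ioc 0 S0, ENNReal.ofReal (FS N ρ x q (-s))
      ≤ ∫⁻ s in Ioc 0 S0, (ENNReal.ofReal (G * E1) *
        ENNReal.ofReal (exp (-(q * (AL ρ * s ^ 2 + B * ((1 + x) * h - s) ^ 2)))) +
      ENNReal.ofReal (G * E2) * ENNReal.ofReal (exp (-(q * (AL ρ * s ^ 2)))) +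
      ENNReal.ofReal (G * E3) * ENNReal.ofReal (exp (-(q * (AL ρ / 2 * s ^ 2))))) :=
        setLIntegral_mono' measurableSet_Ioc hpt
    _ = ENNReal.ofReal (G * E1) * (∫⁻ s in Ioc 0 S0,
        ENNReal.ofReal (exp (-(q * (AL ρ * s ^ 2 + B * ((1 + x) * h - s) ^ 2))))) +
      ENNReal.ofReal (G * E2) * (∫⁻ s in Ioc 0 S0, ENNReal.ofReal (exp (-(q * (AL ρ * s ^ 2))))) +
      ENNReal.ofReal (G * E3) *
        (∫⁻ s in Ioc 0 S0, ENNReal.ofReal (exp (-(q * (AL ρ / 2 * s ^ 2))))) := by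
        have hm12 : Measurable fun s : ℝ => ENNReal.ofReal (G * E1) *
            ENNReal.ofReal (exp (-(q * (AL ρ * s ^ 2 + B * ((1 + x) * h - s) ^ 2)))) +
            ENNReal.ofReal (G * E2) * ENNReal.ofReal (exp (-(q * (AL ρ * s ^ 2)))) := hm1.add hm2
        rw [lintegral_add_left hm12, lintegral_add_left hm1,
          lintegral_const_mul' _ _ ENNReal.ofReal_ne_top,
          lintegral_const_mul' _ _ ENNReal.ofReal_ne_top,
          lintegral_const_mul' _ _ ENNReal.ofReal_ne_top]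
    _ ≤ ENNReal.ofReal (G * E1) * ENNReal.ofReal (gI q (AL ρ) B ((1 + x) * h)) +
      ENNReal.ofReal (G * E2) * ENNReal.ofReal (√(π / (q * AL ρ)) / 2) +
      ENNReal.ofReal (G * E3) * ENNReal.ofReal (√(π / (q * (AL ρ / 2))) / 2) := by
        gcongr
    _ = _ := by
        rw [← ENNReal.ofReal_mul (mul_nonneg hG0 hE10), ← ENNReal.ofReal_mul (mul_nonneg hG0 hE20),
          ← ENNReal.ofReal_mul (mul_nonneg hG0 hE30), ← ENNReal.ofReal_add, ← ENNReal.ofReal_add]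
        · congr 1
          ring
        · have := mul_nonneg (mul_nonneg hG0 hE10) hgI
          have : 0 ≤ G * E2 * (√(π / (q * AL ρ)) / 2) := by positivity
          linarith
        · positivity
        · exact mul_nonneg (mul_nonneg hG0 hE10) hgI
        · positivity

end SokalFA
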