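import Pool.Agent.Lib_MP_af4de1_fa.FrF
import Pool.Agent.Lib_MP_af4de1_f1.GTay

/-!
# FAR: the receding wave on the left, and the second minorant
-/

namespace SokalFA

open Real MeasureTheory Set

/-- the auxiliary function `exp(-x/c) (1 - cos x)` and its derivative -/
private theorem FrM_deriv (c x : ℝ) : HasDerivAt (fun x : ℝ => exp (-(x / c)) * (1 - cos x))
    (exp (-(x / c)) * (2 * sin (x / 2) * (cos (x / 2) - sin (x / 2) / c))) x := by
  have h1 : HasDerivAt (fun x : ℝ => exp (-(x / c))) (exp (-(x / c)) * (-(1 / c))) x :=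
    (((hasDerivAt_id x).div_const c).neg).exp
  have h2 : HasDerivAt (fun x : ℝ => 1 - cos x) (sin x) x := by
    have := (Real.hasDerivAt_cos x).const_sub 1
    rwa [neg_neg] at this
  have h3 := h1.mul h2
  have e1 : sin x = 2 * sin (x / 2) * cos (x / 2) := by
    rw [← Real.sin_two_mul]; ring_nf
  have e2 : 1 - cos x = 2 * sin (x / 2) ^ 2 := by
    have h : cos x = 2 * cos (x / 2) ^ 2 - 1 := by
      rw [← Real.cos_two_mul]; ring_nf
    have h' := Real.sin_sq_add_cos_sq (x / 2)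
    linarith
  have e3 : exp (-(x / c)) * (2 * sin (x / 2) * (cos (x / 2) - sin (x / 2) / c)) =
      exp (-(x / c)) * (-(1 / c)) * (1 - cos x) + exp (-(x / c)) * sin x := by
    rw [e2, e1]; ring
  rw [e3]
  exact h3

private theorem FrM_cont (c : ℝ) : Continuous (fun x : ℝ => exp (-(x / c)) * (1 - cos x)) :=
  continuous_iff_continuousAt.2 fun x => (FrM_deriv c x).continuousAt

private theorem FrM_half {x y : ℝ} (h0 : 0 ≤ x) (h : x ≤ y) (h1 : y ≤ π) :
    0 ≤ sin (x / 2) ∧ sin (x / 2) ≤ sin (y / 2) ∧ cos (y / 2) ≤ cos (x / 2) := by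
  have hπ := Real.pi_pos
  refine ⟨sin_nonneg_of_nonneg_of_le_pi (by linarith) (by linarith),
    sin_le_sin_of_le_of_le_pi_div_two (by linarith) (by linarith) (by linarith),
    cos_le_cos_of_nonneg_of_le_pi (by linarith) (by linarith) (by linarith)⟩

private theorem FrM_mono {c v : ℝ} (hc : 0 < c) (hv : v ≤ π) (h : sin (v / 2) / c ≤ cos (v / 2))
    {x y : ℝ} (h0 : 0 ≤ x) (hxy : x ≤ y) (hy : y ≤ v) :
    exp (-(x / c)) * (1 - cos x) ≤ exp (-(y / c)) * (1 - cos y) := by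
  have hm : MonotoneOn (fun x : ℝ => exp (-(x / c)) * (1 - cos x)) (Icc 0 v) := by
    refine monotoneOn_of_deriv_nonneg (convex_Icc _ _) (FrM_cont c).continuousOn
      (fun x _ => (FrM_deriv c x).differentiableAt.differentiableWithinAt) fun x hx => ?_
    rw [interior_Icc] at hx
    rw [(FrM_deriv c x).deriv]
    obtain ⟨h1, h2, h3⟩ := FrM_half hx.1.le hx.2.le hv
    have h4 : sin (x / 2) / c ≤ sin (v / 2) / c := div_le_div_of_nonneg_right h2 hc.le
    exact mul_nonneg (exp_pos _).le (mul_nonneg (by linarith) (by linarith))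
  exact hm ⟨h0, hxy.trans hy⟩ ⟨h0.trans hxy, hy⟩ hxy

private theorem FrM_anti {c v : ℝ} (hc : 0 < c) (hv0 : 0 ≤ v) (h : cos (v / 2) ≤ sin (v / 2) / c)
    (hv : v ≤ π) :
    exp (-(π / c)) * (1 - cos π) ≤ exp (-(v / c)) * (1 - cos v) := by
  have hm : AntitoneOn (fun x : ℝ => exp (-(x / c)) * (1 - cos x)) (Icc v π) := by
    refine antitoneOn_of_deriv_nonpos (convex_Icc _ _) (FrM_cont c).continuousOn
      (fun x _ => (FrM_deriv c x).differentiableAt.differentiableWithinAt) fun x hx => ?_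
    rw [interior_Icc] at hx
    rw [(FrM_deriv c x).deriv]
    obtain ⟨h1, h2, h3⟩ := FrM_half hv0 hx.1.le hx.2.le
    have h4 : sin (v / 2) / c ≤ sin (x / 2) / c := div_le_div_of_nonneg_right h2 hc.le
    exact mul_nonpos_of_nonneg_of_nonpos (exp_pos _).le
      (mul_nonpos_of_nonneg_of_nonpos (by linarith) (by linarith))
  exact hm ⟨le_rfl, hv⟩ ⟨hv, le_rfl⟩ hv

private theorem FrM_c (ρ : ℝ) : 1 ≤ √(1 + ρ ^ 2) := by
  rw [Real.one_le_sqrt]
  nlinarith [sq_nonneg ρ]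

private theorem FrM_shift (c f' s : ℝ) : exp (-(s / c)) * (1 - cos (f' + s)) =
    exp (f' / c) * (exp (-((f' + s) / c)) * (1 - cos (f' + s))) := by
  rw [← mul_assoc, ← Real.exp_add]
  congr 2
  ring

private theorem FrM_shift0 (c f' : ℝ) : 1 - cos f' = exp (f' / c) * (exp (-(f' / c)) * (1 - cos f')) := by
  rw [← mul_assoc, ← Real.exp_add, add_neg_cancel, Real.exp_zero, one_mul]

theorem m_choice {ρ f' s : ℝ} (hf : 0 < f') (hs : 0 ≤ s) (h : f' + s ≤ π) :
    min (1 - cos f') (2 * exp ((f' - π) / √(1 + ρ ^ 2))) ≤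
      exp (-(s / √(1 + ρ ^ 2))) * (1 - cos (f' + s)) := by
  set c := √(1 + ρ ^ 2) with hc
  have hc0 : 0 < c := lt_of_lt_of_le one_pos (FrM_c ρ)
  rcases le_total (sin ((f' + s) / 2) / c) (cos ((f' + s) / 2)) with h1 | h1
  · refine (min_le_left _ _).trans ?_
    have h2 := FrM_mono hc0 h h1 hf.le (by linarith : f' ≤ f' + s) le_rfl
    rw [FrM_shift c f' s, FrM_shift0 c f']
    exact mul_le_mul_of_nonneg_left h2 (exp_pos _).le
  · refine (min_le_right _ _).trans ?_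
    have h2 := FrM_anti hc0 (by linarith : 0 ≤ f' + s) h1 h
    rw [FrM_shift c f' s]
    refine le_trans (le_of_eq ?_) (mul_le_mul_of_nonneg_left h2 (exp_pos _).le)
    rw [← mul_assoc, ← Real.exp_add, Real.cos_pi]
    have : f' / c + -(π / c) = (f' - π) / c := by ring
    rw [this]
    ring

/-- when the whole range is below `π/2` -/
theorem m_choice' {ρ f' s : ℝ} (hf : 0 < f') (hs : 0 ≤ s) (h : f' + s ≤ π / 2) :
    1 - cos f' ≤ exp (-(s / √(1 + ρ ^ 2))) * (1 - cos (f' + s)) := by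
  set c := √(1 + ρ ^ 2) with hc
  have hc1 : 1 ≤ c := FrM_c ρ
  have hc0 : 0 < c := lt_of_lt_of_le one_pos hc1
  have hπ := Real.pi_pos
  have h0 : 0 ≤ sin ((f' + s) / 2) :=
    sin_nonneg_of_nonneg_of_le_pi (by linarith) (by linarith)
  have h1 : sin ((f' + s) / 2) / c ≤ cos ((f' + s) / 2) := by
    refine (div_le_self h0 hc1).trans ?_
    rw [← Real.cos_pi_div_two_sub]
    exact cos_le_cos_of_nonneg_of_le_pi (by linarith) (by linarith) (by linarith)
  have h2 := FrM_mono hc0 (by linarith) h1 hf.le (by linarith : f' ≤ f' + s) le_rfl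
  rw [FrM_shift c f' s, FrM_shift0 c f']
  exact mul_le_mul_of_nonneg_left h2 (exp_pos _).le

theorem cos_pade {v : ℝ} (h0 : 0 ≤ v) (h1 : v ≤ π) : v ^ 2 ≤ (1 - cos v) * (2 + 1487 / 5000 * v ^ 2) := by
  rcases le_or_gt v (229 / 100) with h2 | h2
  · have h3 : cos v ≤ 1 - v ^ 2 / 2 + v ^ 4 / 24 := SokalF1G.cos_le4 h0
    have h4 : (v ^ 2 / 2 - v ^ 4 / 24) * (2 + 1487 / 5000 * v ^ 2) ≤ (1 - cos v) * (2 + 1487 / 5000 * v ^ 2) :=
      mul_le_mul_of_nonneg_right (by linarith) (by positivity)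
    refine le_trans ?_ h4
    have h5 : v ^ 2 ≤ 5.25 := by nlinarith
    have h6 : 0 ≤ v ^ 4 * (5.25 - v ^ 2) := mul_nonneg (by positivity) (by linarith)
    nlinarith [pow_nonneg h0 4]
  · set y := π - v with hy
    have hy0 : 0 ≤ y := by linarith
    have hπ := Real.pi_lt_d4
    have hy1 : y ≤ 86 / 100 := by linarith
    have h3 : 1 - cos v = 1 + cos y := by
      rw [hy, Real.cos_pi_sub]; ring
    have h4 : 1 - y ^ 2 / 2 ≤ cos y := Real.one_sub_sq_div_two_le_cos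
    have h5 : (2 - y ^ 2 / 2) * (2 + 1487 / 5000 * v ^ 2) ≤ (1 - cos v) * (2 + 1487 / 5000 * v ^ 2) :=
      mul_le_mul_of_nonneg_right (by linarith) (by positivity)
    refine le_trans ?_ h5
    have h6 : v ≤ 3.1416 - y := by linarith
    have h7 : v ^ 2 ≤ (3.1416 - y) ^ 2 := by
      exact pow_le_pow_left₀ h0 h6 2
    have h8 : v ^ 2 * (0.4052 + 0.1487 * y ^ 2) ≤ (3.1416 - y) ^ 2 * (0.4052 + 0.1487 * y ^ 2) :=
      mul_le_mul_of_nonneg_right h7 (by positivity)
    have h9 : (3.1416 - y) ^ 2 * (0.4052 + 0.1487 * y ^ 2) ≤ 4 - y ^ 2 := by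
      have a1 : 0 ≤ y * (0.86 - y) := mul_nonneg hy0 (by linarith)
      have a2 : 0 ≤ y ^ 3 * (0.86 - y) := mul_nonneg (by positivity) (by linarith)
      have a3 : 0 ≤ y ^ 3 := by positivity
      nlinarith
    nlinarith

theorem mino_pade {f g : ℝ} (hg : 0 ≤ g) (h : min f π ≤ g) : Mino f (1 / (2 + 1487 / 5000 * g ^ 2)) 0 0 := by
  refine ⟨by positivity, le_rfl, fun V v hV h0 h1 h2 => ?_⟩
  rw [zero_mul, add_zero]
  unfold gw
  apply exp_le_exp.2
  have h3 : v ≤ g := (le_min h1 h2).trans h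
  have h4 := cos_pade h0 h2
  have h5 : (2 : ℝ) + 1487 / 5000 * v ^ 2 ≤ 2 + 1487 / 5000 * g ^ 2 := by
    have := pow_le_pow_left₀ h0 h3 2
    linarith
  have h6 : 0 ≤ 1 - cos v := by linarith [Real.cos_le_one v]
  have h7 : v ^ 2 ≤ (1 - cos v) * (2 + 1487 / 5000 * g ^ 2) :=
    h4.trans (mul_le_mul_of_nonneg_left h5 h6)
  have h8 : 1 / (2 + 1487 / 5000 * g ^ 2) * v ^ 2 ≤ 1 - cos v := by
    rw [one_div, inv_mul_le_iff₀ (by positivity)]
    linarith
  have h9 := mul_le_mul_of_nonneg_left h8 hV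
  linarith

end SokalFA
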