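import Pool.Agent.Lib_MP_af4de1_fa.FrF

/-!
# FAR, stage 1: right side, `0 < s ≤ S0 ≤ f`, `f = (2-x) h` approaching, `f' = (1+x) h` receding

PLAN. `pa ≥ 0` so `V = q e^pa ≥ q` (`FS_le` with `V = q`); `far_chain` with `ψ = x h + s`
(`-h ≤ ψ ≤ 2h` since `s ≤ f`), `2h - ψ = f - s`, `ψ + h = f' + s`; `Qr ≥ AR ρ T s²` (`Qr_right`).
Approaching wave: `Mino`.  Receding wave (`f' + s ≤ π`): `cos_superadd`,
`gw q (f'+s) ≤ exp(-q(1 - cos f')) exp(-q (1 - cos s)) ≤ exp(-q(1-cos f')) exp(-q (2/π²) s²)`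
(`Real.cos_le_one_sub_mul_cos_sq` / `Real.cos_quadratic_upper_bound`).
Integrate with `gauss_main`, `gauss_half` (`lintegral_add`, `ENNReal.ofReal_add`, `lintegral_const_mul`).
-/

namespace SokalFA

open Real MeasureTheory Set

theorem R1_pt {N : ℕ} (hN : 3 ≤ N) {ρ x q s T β χ w0 : ℝ} (hρ : 0 < ρ) (hx0 : 0 ≤ x) (hx1 : x ≤ 1)
    (hq : 0 < q) (hs : 0 < s) (hsf : s ≤ (2 - x) * (2 * π / N)) (hsT : s / √(1 + ρ ^ 2) ≤ T)
    (hT1 : T ≤ 1) (hM : Mino ((2 - x) * (2 * π / N)) β χ w0) :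
    FS N ρ x q s ≤ sg q (2 * π / N) *
      (exp (-(q * (AR ρ T * s ^ 2 + β * ((2 - x) * (2 * π / N) - s) ^ 2))) +
       (if (1 + x) * (2 * π / N) ≤ π then exp (-(q * (1 - cos ((1 + x) * (2 * π / N))))) else 0) *
          exp (-(q * ((AR ρ T + 2 / π ^ 2) * s ^ 2))) +
       χ * exp (-(q * w0)) * exp (-(q * (AR ρ T * s ^ 2)))) := by
  have hN0 : (0 : ℝ) < N := by exact_mod_cast (by omega : 0 < N)
  obtain ⟨h, hh⟩ : ∃ h : ℝ, h = 2 * π / N := ⟨_, rfl⟩
  have hh0 : 0 < h := by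
    rw [hh]
    positivity
  have hh2 : h < 2 * π := by
    rw [hh, div_lt_iff₀ hN0]
    have h3 : (3 : ℝ) ≤ N := by exact_mod_cast hN
    have := Real.pi_pos
    nlinarith
  rw [← hh] at hsf hM ⊢
  have hsq : 0 < √(1 + ρ ^ 2) := Real.sqrt_pos.2 (by positivity)
  have hT0 : 0 ≤ T := le_trans (by positivity) hsT
  obtain ⟨hβ, hχ, hMi⟩ := hM
  have hV : q ≤ q * exp (pa ρ s) :=
    le_mul_of_one_le_right hq.le (Real.one_le_exp (pa_nonneg hs.le))
  have h1 : FS N ρ x q s ≤ exp (-(q * Qr ρ s)) *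
      ∑ j ∈ Finset.Ico 1 (N - 1), gw q (x * h + s + j * h) := by
    have := FS_le (N := N) (x := x) hV
    rwa [← hh] at this
  have hxh : 0 ≤ x * h := by positivity
  have h2 : ∑ j ∈ Finset.Ico 1 (N - 1), gw q (x * h + s + j * h) ≤
      sg q h * ((if 2 * h - (x * h + s) ≤ π then gw q (2 * h - (x * h + s)) else 0) +
        (if x * h + s + h ≤ π then gw q (x * h + s + h) else 0)) := by
    have := far_chain hN hq (ψ := x * h + s) (by rw [← hh]; linarith)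
      (by rw [← hh]; linarith)
    rwa [← hh] at this
  have hsg : 0 ≤ sg q h := zero_le_one.trans (sg_ge_one hq hh0 hh2)
  have hA : (if 2 * h - (x * h + s) ≤ π then gw q (2 * h - (x * h + s)) else 0) ≤
      exp (-(q * (β * ((2 - x) * h - s) ^ 2))) + χ * exp (-(q * w0)) := by
    split_ifs with hc
    · have e : 2 * h - (x * h + s) = (2 - x) * h - s := by ring
      rw [e] at hc ⊢
      exact hMi q _ hq.le (by linarith) (by linarith) hc
    · positivity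
  have hB : (if x * h + s + h ≤ π then gw q (x * h + s + h) else 0) ≤
      (if (1 + x) * h ≤ π then exp (-(q * (1 - cos ((1 + x) * h)))) else 0) *
        exp (-(q * (2 / π ^ 2 * s ^ 2))) := by
    have h0 : 0 ≤ (if (1 + x) * h ≤ π then exp (-(q * (1 - cos ((1 + x) * h)))) else 0) := by
      split_ifs
      · exact (exp_pos _).le
      · exact le_rfl
    by_cases hc : x * h + s + h ≤ π
    · rw [if_pos hc]
      have hc2 : (1 + x) * h ≤ π := by linarith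
      rw [if_pos hc2, ← Real.exp_add]
      unfold gw
      apply exp_le_exp.2
      have e : x * h + s + h = (1 + x) * h + s := by ring
      have h3 := cos_superadd (a := (1 + x) * h) (b := s) (by positivity) hs.le (by linarith)
      have h4 : cos s ≤ 1 - 2 / π ^ 2 * s ^ 2 := by
        apply Real.cos_le_one_sub_mul_cos_sq
        rw [abs_of_pos hs]
        linarith
      rw [e]
      have h5 : q * ((1 - cos ((1 + x) * h)) + 2 / π ^ 2 * s ^ 2) ≤
          q * (1 - cos ((1 + x) * h + s)) := mul_le_mul_of_nonneg_left (by linarith) hq.le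
      linarith
    · rw [if_neg hc]
      exact mul_nonneg h0 (exp_pos _).le
  have hQ : AR ρ T * s ^ 2 ≤ Qr ρ s := Qr_right hρ hs.le hsT hT1
  have hE : exp (-(q * Qr ρ s)) ≤ exp (-(q * (AR ρ T * s ^ 2))) := by
    apply exp_le_exp.2
    have := mul_le_mul_of_nonneg_left hQ hq.le
    linarith
  obtain ⟨c2, hc2⟩ : ∃ c2 : ℝ, c2 =
    (if (1 + x) * h ≤ π then exp (-(q * (1 - cos ((1 + x) * h)))) else 0) := ⟨_, rfl⟩
  rw [← hc2] at hB ⊢
  have hc20 : 0 ≤ c2 := by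
    rw [hc2]
    split_ifs
    · exact (exp_pos _).le
    · exact le_rfl
  calc FS N ρ x q s ≤ exp (-(q * (AR ρ T * s ^ 2))) * (sg q h *
        ((exp (-(q * (β * ((2 - x) * h - s) ^ 2))) + χ * exp (-(q * w0))) +
          c2 * exp (-(q * (2 / π ^ 2 * s ^ 2))))) := by
        refine h1.trans (mul_le_mul hE (h2.trans (mul_le_mul_of_nonneg_left (add_le_add hA hB) hsg))
          (Finset.sum_nonneg fun _ _ => (gw_pos _ _).le) (exp_pos _).le)
    _ = sg q h * ((exp (-(q * (AR ρ T * s ^ 2))) * exp (-(q * (β * ((2 - x) * h - s) ^ 2)))) +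
        c2 * (exp (-(q * (AR ρ T * s ^ 2))) * exp (-(q * (2 / π ^ 2 * s ^ 2)))) +
        χ * exp (-(q * w0)) * exp (-(q * (AR ρ T * s ^ 2)))) := by ring
    _ = _ := by
        rw [← Real.exp_add, ← Real.exp_add]
        congr 4
        · ring
        · congr 2
          ring

theorem R1 {N : ℕ} (hN : 3 ≤ N) {ρ x q S0 T β χ w0 : ℝ} (hρ : 0 < ρ) (hx0 : 0 ≤ x) (hx1 : x ≤ 1)
    (hq : 0 < q) (hS : 0 ≤ S0) (hsf : S0 ≤ (2 - x) * (2 * π / N)) (hsT : S0 / √(1 + ρ ^ 2) ≤ T)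
    (hT1 : T ≤ 1) (hM : Mino ((2 - x) * (2 * π / N)) β χ w0) :
    ∫⁻ s in Ioc 0 S0, ENNReal.ofReal (FS N ρ x q s) ≤ ENNReal.ofReal (sg q (2 * π / N) *
      (gI q (AR ρ T) β ((2 - x) * (2 * π / N)) +
       (if (1 + x) * (2 * π / N) ≤ π then exp (-(q * (1 - cos ((1 + x) * (2 * π / N))))) else 0) *
          (√(π / (q * (AR ρ T + 2 / π ^ 2))) / 2) +
       χ * exp (-(q * w0)) * (√(π / (q * AR ρ T)) / 2))) := by
  have hN0 : (0 : ℝ) < N := by exact_mod_cast (by omega : 0 < N)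
  have hpi := Real.pi_pos
  have hh0 : 0 < 2 * π / N := by positivity
  have hh2 : 2 * π / N < 2 * π := by
    rw [div_lt_iff₀ hN0]
    have h3 : (3 : ℝ) ≤ N := by exact_mod_cast hN
    nlinarith
  have hsq : 0 < √(1 + ρ ^ 2) := Real.sqrt_pos.2 (by positivity)
  have hT0 : 0 ≤ T := le_trans (by positivity) hsT
  have hA0 : 0 < AR ρ T := AR_pos hρ hT0 hT1
  have hM' := hM
  obtain ⟨hβ, hχ, -⟩ := hM
  have hf0 : 0 ≤ (2 - x) * (2 * π / N) := hS.trans hsf
  have hsg : 0 ≤ sg q (2 * π / N) := zero_le_one.trans (sg_ge_one hq hh0 hh2)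
  have hpt := fun s (hs : s ∈ Ioc 0 S0) => R1_pt hN hρ hx0 hx1 hq hs.1 (hs.2.trans hsf)
    ((div_le_div_of_nonneg_right hs.2 hsq.le).trans hsT) hT1 hM'
  obtain ⟨f, hf⟩ : ∃ f : ℝ, f = (2 - x) * (2 * π / N) := ⟨_, rfl⟩
  obtain ⟨c1, hc1⟩ : ∃ c1 : ℝ, c1 = sg q (2 * π / N) := ⟨_, rfl⟩
  obtain ⟨c2, hc2⟩ : ∃ c2 : ℝ, c2 = (if (1 + x) * (2 * π / N) ≤ π then
    exp (-(q * (1 - cos ((1 + x) * (2 * π / N))))) else 0) := ⟨_, rfl⟩
  obtain ⟨c3, hc3⟩ : ∃ c3 : ℝ, c3 = χ * exp (-(q * w0)) := ⟨_, rfl⟩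
  have hc20 : 0 ≤ c2 := by
    rw [hc2]
    split_ifs
    · exact (exp_pos _).le
    · exact le_rfl
  have hc30 : 0 ≤ c3 := by
    rw [hc3]
    positivity
  rw [← hc1] at hsg
  rw [← hf] at hsf hf0 ⊢
  rw [← hc1, ← hc2, ← hc3]
  simp only [← hf, ← hc1, ← hc2, ← hc3] at hpt
  have hgI : 0 ≤ gI q (AR ρ T) β f := by
    unfold gI
    have h1 : 0 ≤ AR ρ T * f / (AR ρ T + β) := by positivity
    positivity
  have g1 := gauss_main (S0 := S0) hq hA0 hβ hf0 hsf
  have g2 := gauss_half (S0 := S0) hq (show 0 < AR ρ T + 2 / π ^ 2 by positivity)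
  have g3 := gauss_half (S0 := S0) hq hA0
  calc ∫⁻ s in Ioc 0 S0, ENNReal.ofReal (FS N ρ x q s)
      ≤ ∫⁻ s in Ioc 0 S0, ENNReal.ofReal c1 *
        (ENNReal.ofReal (exp (-(q * (AR ρ T * s ^ 2 + β * (f - s) ^ 2)))) +
          ENNReal.ofReal c2 * ENNReal.ofReal (exp (-(q * ((AR ρ T + 2 / π ^ 2) * s ^ 2)))) +
          ENNReal.ofReal c3 * ENNReal.ofReal (exp (-(q * (AR ρ T * s ^ 2))))) := by
        refine setLIntegral_mono' measurableSet_Ioc fun s hs => ?_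
        rw [← ENNReal.ofReal_mul hc20, ← ENNReal.ofReal_mul hc30,
          ← ENNReal.ofReal_add (exp_pos _).le (by positivity),
          ← ENNReal.ofReal_add (by positivity) (by positivity), ← ENNReal.ofReal_mul hsg]
        exact ENNReal.ofReal_le_ofReal (hpt s hs)
    _ = ENNReal.ofReal c1 *
        ((∫⁻ s in Ioc 0 S0, ENNReal.ofReal (exp (-(q * (AR ρ T * s ^ 2 + β * (f - s) ^ 2))))) +
          ENNReal.ofReal c2 *
            (∫⁻ s in Ioc 0 S0, ENNReal.ofReal (exp (-(q * ((AR ρ T + 2 / π ^ 2) * s ^ 2))))) +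
          ENNReal.ofReal c3 *
            ∫⁻ s in Ioc 0 S0, ENNReal.ofReal (exp (-(q * (AR ρ T * s ^ 2))))) := by
        rw [lintegral_const_mul' _ _ ENNReal.ofReal_ne_top, lintegral_add_left (by fun_prop),
          lintegral_add_left (by fun_prop), lintegral_const_mul' _ _ ENNReal.ofReal_ne_top,
          lintegral_const_mul' _ _ ENNReal.ofReal_ne_top]
    _ ≤ ENNReal.ofReal c1 * (ENNReal.ofReal (gI q (AR ρ T) β f) +
          ENNReal.ofReal c2 * ENNReal.ofReal (√(π / (q * (AR ρ T + 2 / π ^ 2))) / 2) +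
          ENNReal.ofReal c3 * ENNReal.ofReal (√(π / (q * AR ρ T)) / 2)) := by
        gcongr
    _ = _ := by
        rw [← ENNReal.ofReal_mul hc20, ← ENNReal.ofReal_mul hc30,
          ← ENNReal.ofReal_add hgI (by positivity),
          ← ENNReal.ofReal_add (by positivity) (by positivity), ← ENNReal.ofReal_mul hsg]

end SokalFA
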