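import Pool.Agent.Lib_MP_af4de1_fa.FrF

/-!
# FAR, stage 1: half period behind the approaching wave, both sides

PLAN. RIGHT: `s = f + ψ'`, `0 < ψ' ≤ h/2`; `V = q e^pa ≥ q`; `FS_le_all`, `x h + s = 2 h + ψ'`
(`f = (2-x) h`), `GA_shift` twice, `all_chain`: `GA N q ψ' ≤ sg (gw q ψ' + gw q (h - ψ'))`;
`Qr ρ s ≥ Qr ρ f` (`Qr_ray_right`, `Qr_nonneg`).  `∫_0^{h/2} (gw ψ' + gw (h-ψ')) = ∫_0^h gw ≤ half_W`.
LEFT: `s = f + ψ'`, `f = (1+x) h`, `x h - s = -(h + ψ')`, `GA_neg`, `GA_shift`; `pa ρ (-s) ≥ -T1`,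
`V = q e^(-T1)`.
-/

namespace SokalFA

open Real MeasureTheory Set

private theorem r2_int {V h f S1 K : ℝ} (hV : 15 ≤ V) (hh : 0 ≤ h) (hπ : h ≤ π) (hK : 0 ≤ K)
    (hS1 : S1 ≤ f + h / 2) {F : ℝ → ℝ}
    (hF : ∀ s ∈ Ioc f S1, F s ≤ K * (gw V (s - f) + gw V (h - (s - f)))) :
    ∫⁻ s in Ioc f S1, ENNReal.ofReal (F s) ≤ ENNReal.ofReal (K * (67 / 50 / √V)) := by
  have hc := continuous_gw V
  have hc1 : Continuous fun s : ℝ => gw V (s - f) := hc.comp (by fun_prop)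
  have hc2 : Continuous fun s : ℝ => gw V (h - (s - f)) := hc.comp (by fun_prop)
  have hcont : Continuous fun s : ℝ => K * (gw V (s - f) + gw V (h - (s - f))) :=
    continuous_const.mul (hc1.add hc2)
  have hff : f ≤ f + h / 2 := by linarith
  have e1 : ∫ s in f..(f + h / 2), gw V (s - f) = ∫ u in (0 : ℝ)..(h / 2), gw V u := by
    rw [intervalIntegral.integral_comp_sub_right (gw V) f]
    congr 1
    · ring
    · ring
  have e2 : ∫ s in f..(f + h / 2), gw V (h - (s - f)) = ∫ u in (h / 2)..h, gw V u := by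
    have h1 : (fun s : ℝ => gw V (h - (s - f))) = fun s : ℝ => gw V ((h + f) - s) := by
      funext s
      congr 1
      ring
    rw [h1, intervalIntegral.integral_comp_sub_left (gw V) (h + f)]
    congr 1
    · ring
    · ring
  have e3 : ∫ s in f..(f + h / 2), K * (gw V (s - f) + gw V (h - (s - f))) = K * ∫ u in (0 : ℝ)..h, gw V u := by
    rw [intervalIntegral.integral_const_mul, intervalIntegral.integral_add (hc1.intervalIntegrable _ _)
      (hc2.intervalIntegrable _ _), e1, e2,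
      intervalIntegral.integral_add_adjacent_intervals (hc.intervalIntegrable _ _) (hc.intervalIntegrable _ _)]
  calc ∫⁻ s in Ioc f S1, ENNReal.ofReal (F s)
      ≤ ∫⁻ s in Ioc f S1, ENNReal.ofReal (K * (gw V (s - f) + gw V (h - (s - f)))) :=
        setLIntegral_mono' measurableSet_Ioc fun s hs => ENNReal.ofReal_le_ofReal (hF s hs)
    _ ≤ ∫⁻ s in Ioc f (f + h / 2), ENNReal.ofReal (K * (gw V (s - f) + gw V (h - (s - f)))) :=
        lintegral_mono_set (Ioc_subset_Ioc_right hS1)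
    _ = ENNReal.ofReal (∫ s in Ioc f (f + h / 2), K * (gw V (s - f) + gw V (h - (s - f)))) := by
        rw [ofReal_integral_eq_lintegral_ofReal]
        · exact (hcont.intervalIntegrable f (f + h / 2)).1
        · exact Filter.Eventually.of_forall fun s =>
            mul_nonneg hK (add_nonneg (gw_pos _ _).le (gw_pos _ _).le)
    _ ≤ ENNReal.ofReal (K * (67 / 50 / √V)) := by
        refine ENNReal.ofReal_le_ofReal ?_
        rw [← intervalIntegral.integral_of_le hff, e3]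
        exact mul_le_mul_of_nonneg_left (half_W hV hh hπ) hK

private theorem r2_h {N : ℕ} (hN : 3 ≤ N) : 0 < 2 * π / N ∧ 2 * π / N ≤ π ∧ 2 * π / N < 2 * π := by
  have hN1 : (3 : ℝ) ≤ N := by exact_mod_cast hN
  have hN0 : (0 : ℝ) < N := by linarith
  refine ⟨by positivity, ?_, ?_⟩
  · rw [div_le_iff₀ hN0]
    nlinarith [pi_pos]
  · rw [div_lt_iff₀ hN0]
    nlinarith [pi_pos]

theorem R2 {N : ℕ} (hN : 3 ≤ N) {ρ x q S1 : ℝ} (hρ : 0 < ρ) (hx0 : 0 ≤ x) (hx1 : x ≤ 1)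
    (hq : 15 ≤ q) (hS : (2 - x) * (2 * π / N) ≤ S1)
    (hS1 : S1 ≤ (2 - x) * (2 * π / N) + 2 * π / N / 2) :
    ∫⁻ s in Ioc ((2 - x) * (2 * π / N)) S1, ENNReal.ofReal (FS N ρ x q s) ≤
      ENNReal.ofReal (sg q (2 * π / N) * (exp (-(q * Qr ρ ((2 - x) * (2 * π / N)))) *
        (67 / 50 / √q))) := by
  obtain ⟨hh0, hhπ, hh2⟩ := r2_h hN
  obtain ⟨h, hh⟩ : ∃ h : ℝ, h = 2 * π / N := ⟨_, rfl⟩
  obtain ⟨f, hf⟩ : ∃ f : ℝ, f = (2 - x) * (2 * π / N) := ⟨_, rfl⟩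
  have hf0 : 0 < f := by
    rw [hf]
    exact mul_pos (by linarith) hh0
  have hsg : 0 ≤ sg q (2 * π / N) := zero_le_one.trans (sg_ge_one (by linarith) hh0 hh2)
  rw [← mul_assoc, ← hf]
  rw [← hf] at hS1
  refine r2_int hq hh0.le hhπ (mul_nonneg hsg (exp_pos _).le) hS1 fun s hs => ?_
  have hs0 : 0 < s := hf0.trans hs.1
  have hψ0 : 0 ≤ s - f := by linarith [hs.1]
  have hψ1 : s - f ≤ 2 * π / N := by linarith [hs.2]
  have h1 : FS N ρ x q s ≤ exp (-(q * Qr ρ s)) * GA N q (x * (2 * π / N) + s) := by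
    refine FS_le_all ?_
    have : 1 ≤ exp (pa ρ s) := Real.one_le_exp (pa_nonneg hs0.le)
    exact le_mul_of_one_le_right (by linarith) this
  have h2 : x * (2 * π / N) + s = (s - f) + 2 * π / N + 2 * π / N := by
    rw [hf]
    ring
  rw [h2, GA_shift (by omega), GA_shift (by omega)] at h1
  have h3 : GA N q (s - f) ≤ sg q (2 * π / N) * (gw q (s - f) + gw q (2 * π / N - (s - f))) :=
    all_chain hN (by linarith) hψ0 hψ1
  have h4 : exp (-(q * Qr ρ s)) ≤ exp (-(q * Qr ρ f)) := by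
    apply exp_le_exp.mpr
    have h5 := Qr_ray_right hρ hf0 hs.1.le
    have h6 := Qr_nonneg hρ f
    have h7 : 1 ≤ s / f := by
      rw [one_le_div hf0]
      exact hs.1.le
    have h8 : Qr ρ f ≤ Qr ρ f * (s / f) := le_mul_of_one_le_right h6 h7
    have h9 : q * Qr ρ f ≤ q * Qr ρ s := mul_le_mul_of_nonneg_left (h8.trans h5) (by linarith)
    linarith
  calc FS N ρ x q s ≤ exp (-(q * Qr ρ s)) * GA N q (s - f) := h1
    _ ≤ exp (-(q * Qr ρ f)) * (sg q (2 * π / N) * (gw q (s - f) + gw q (2 * π / N - (s - f)))) :=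
        mul_le_mul h4 h3 (GA_nonneg _ _ _) (exp_pos _).le
    _ = sg q (2 * π / N) * exp (-(q * Qr ρ f)) * (gw q (s - f) + gw q (2 * π / N - (s - f))) := by ring

theorem L2 {N : ℕ} (hN : 3 ≤ N) {ρ x q S1 T1 : ℝ} (hρ : 0 < ρ) (hx0 : 0 ≤ x) (hx1 : x ≤ 1)
    (hT1 : min (S1 / √(1 + ρ ^ 2)) 1 ≤ T1) (hq : 15 ≤ q * exp (-T1))
    (hS : (1 + x) * (2 * π / N) ≤ S1) (hS1 : S1 ≤ (1 + x) * (2 * π / N) + 2 * π / N / 2) :
    ∫⁻ s in Ioc ((1 + x) * (2 * π / N)) S1, ENNReal.ofReal (FS N ρ x q (-s)) ≤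
      ENNReal.ofReal (sg (q * exp (-T1)) (2 * π / N) *
        (exp (-(q * Qr ρ (-((1 + x) * (2 * π / N))))) * (67 / 50 / √(q * exp (-T1))))) := by
  obtain ⟨hh0, hhπ, hh2⟩ := r2_h hN
  have hR := sqrt_R_pos ρ
  obtain ⟨f, hf⟩ : ∃ f : ℝ, f = (1 + x) * (2 * π / N) := ⟨_, rfl⟩
  obtain ⟨V, hVd⟩ : ∃ V : ℝ, V = q * exp (-T1) := ⟨_, rfl⟩
  have hq0 : 0 < q := by
    by_contra hc
    have h1 : q * exp (-T1) ≤ 0 := mul_nonpos_of_nonpos_of_nonneg (not_lt.mp hc) (exp_pos _).le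
    linarith
  have hf0 : 0 < f := by
    rw [hf]
    exact mul_pos (by linarith) hh0
  rw [← hVd] at hq ⊢
  have hsg : 0 ≤ sg V (2 * π / N) := zero_le_one.trans (sg_ge_one (by linarith) hh0 hh2)
  rw [← mul_assoc, ← hf]
  rw [← hf] at hS1
  refine r2_int hq hh0.le hhπ (mul_nonneg hsg (exp_pos _).le) hS1 fun s hs => ?_
  have hs0 : 0 < s := hf0.trans hs.1
  have hψ0 : 0 ≤ s - f := by linarith [hs.1]
  have hψ1 : s - f ≤ 2 * π / N := by linarith [hs.2]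
  have hpa : -T1 ≤ pa ρ (-s) := by
    unfold pa
    have h0 : 0 ≤ s / √(1 + ρ ^ 2) := div_nonneg hs0.le hR.le
    rw [neg_div, min_eq_right (by linarith : -(s / √(1 + ρ ^ 2)) ≤ 1), max_neg_neg]
    have h1 : min 1 (s / √(1 + ρ ^ 2)) ≤ min (S1 / √(1 + ρ ^ 2)) 1 := by
      rw [min_comm]
      exact min_le_min_right 1 (div_le_div_of_nonneg_right hs.2 hR.le)
    linarith
  have h1 : FS N ρ x q (-s) ≤ exp (-(q * Qr ρ (-s))) * GA N V (x * (2 * π / N) + -s) := by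
    refine FS_le_all ?_
    rw [hVd]
    exact mul_le_mul_of_nonneg_left (exp_le_exp.mpr hpa) hq0.le
  have h2 : x * (2 * π / N) + -s = -((s - f) + 2 * π / N) := by
    rw [hf]
    ring
  rw [h2, GA_neg (by omega), GA_shift (by omega)] at h1
  have h3 : GA N V (s - f) ≤ sg V (2 * π / N) * (gw V (s - f) + gw V (2 * π / N - (s - f))) :=
    all_chain hN (by linarith) hψ0 hψ1
  have h4 : exp (-(q * Qr ρ (-s))) ≤ exp (-(q * Qr ρ (-f))) := by
    apply exp_le_exp.mpr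
    have h5 := Qr_ray_left hρ hf0 hs.1.le
    have h6 := Qr_nonneg hρ (-f)
    have h7 : 1 ≤ s / f := by
      rw [one_le_div hf0]
      exact hs.1.le
    have h8 : Qr ρ (-f) ≤ Qr ρ (-f) * (s / f) := le_mul_of_one_le_right h6 h7
    have h9 : q * Qr ρ (-f) ≤ q * Qr ρ (-s) := mul_le_mul_of_nonneg_left (h8.trans h5) hq0.le
    linarith
  calc FS N ρ x q (-s) ≤ exp (-(q * Qr ρ (-s))) * GA N V (s - f) := h1
    _ ≤ exp (-(q * Qr ρ (-f))) * (sg V (2 * π / N) * (gw V (s - f) + gw V (2 * π / N - (s - f)))) :=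
        mul_le_mul h4 h3 (GA_nonneg _ _ _) (exp_pos _).le
    _ = sg V (2 * π / N) * exp (-(q * Qr ρ (-f))) * (gw V (s - f) + gw V (2 * π / N - (s - f))) := by ring

end SokalFA
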