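import Pool.Agent.Lib_MP_af4de1_fa.FrF

/-!
# FAR, stage 1: the tails, both sides

PLAN. `tail_abs` with `w s = exp(-(q Qr ρ s))`, `F s = GA N V (x h + s)` (`V = q` on the right, `q e^(-1)` on the
left, `GA N V (x h - s)`), `A = exp(-(q Qr ρ S1))`, `r1 = exp(-(q Qr ρ S1 h/S1)) < 1` (`Qr_pos`), `Wc = 67/25/√V`
(`period_sum` (substitute to start at any `a`), `W_le`); for `s > S1 + n h`:
`Qr ρ s ≥ Qr ρ S1 (s/S1) ≥ Qr ρ S1 (1 + n h/S1)` (`Qr_ray_right/left`).
-/

namespace SokalFA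

open Real MeasureTheory Set

private theorem W_period {N : ℕ} (hN : 1 ≤ N) {V : ℝ} (hV : 15 ≤ V) (ψ a : ℝ) :
    ∫ s in a..(a + 2 * π / N), GA N V (ψ + s) ≤ 67 / 25 / √V := by
  have h1 : ∫ s in a..(a + 2 * π / N), GA N V (ψ + s) =
      ∫ s in (0 : ℝ)..(2 * π / N), GA N V (ψ + a + s) := by
    have h2 := intervalIntegral.integral_comp_add_left (a := 0) (b := 2 * π / N)
      (fun s => GA N V (ψ + s)) a
    rw [add_zero] at h2
    rw [← h2]
    refine intervalIntegral.integral_congr fun s _ => ?_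
    show GA N V (ψ + (a + s)) = GA N V (ψ + a + s)
    rw [add_assoc]
  rw [h1]
  unfold GA
  rw [period_sum hN]
  exact W_le hV

private theorem ray_step {q Q0 Q s S1 h : ℝ} {n : ℕ} (hq : 0 ≤ q) (hQ0 : 0 ≤ Q0) (hS : 0 < S1)
    (hs : S1 + n * h ≤ s) (hray : Q0 * (s / S1) ≤ Q) :
    exp (-(q * Q)) ≤ exp (-(q * Q0)) * exp (-(q * Q0 * (h / S1))) ^ n := by
  rw [← Real.exp_nat_mul, ← Real.exp_add, Real.exp_le_exp]
  have h1 : 1 + n * (h / S1) ≤ s / S1 := by
    rw [le_div_iff₀ hS]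
    have : (1 + n * (h / S1)) * S1 = S1 + n * h := by field_simp
    rw [this]
    exact hs
  have h2 : Q0 * (1 + n * (h / S1)) ≤ Q :=
    (mul_le_mul_of_nonneg_left h1 hQ0).trans hray
  have h3 := mul_le_mul_of_nonneg_left h2 hq
  have e : -(q * Q0) + n * -(q * Q0 * (h / S1)) = -(q * (Q0 * (1 + n * (h / S1)))) := by ring
  rw [e]
  linarith

theorem R3 {N : ℕ} (hN : 3 ≤ N) {ρ x q S1 : ℝ} (hρ : 0 < ρ) (hq : 15 ≤ q) (hS : 0 < S1) :
    ∫⁻ s in Ioi S1, ENNReal.ofReal (FS N ρ x q s) ≤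
      ENNReal.ofReal (exp (-(q * Qr ρ S1)) * (67 / 25 / √q) /
        (1 - exp (-(q * Qr ρ S1 * (2 * π / N / S1))))) := by
  have hN0 : (0 : ℝ) < N := by
    have : 0 < N := by omega
    exact_mod_cast this
  have hh : 0 < 2 * π / N := by positivity
  have hQ : 0 < Qr ρ S1 := Qr_pos hρ hS
  have hq0 : 0 < q := by linarith
  have hr1 : exp (-(q * Qr ρ S1 * (2 * π / N / S1))) < 1 := by
    rw [Real.exp_lt_one_iff]
    have : 0 < q * Qr ρ S1 * (2 * π / N / S1) := by positivity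
    linarith
  have key := tail_abs (w := fun s => exp (-(q * Qr ρ s))) (F := fun s => GA N q (x * (2 * π / N) + s))
    (S1 := S1) (h := 2 * π / N) (A := exp (-(q * Qr ρ S1)))
    (r1 := exp (-(q * Qr ρ S1 * (2 * π / N / S1)))) (Wc := 67 / 25 / √q) hh (exp_pos _).le
    (exp_pos _).le hr1 ((continuous_GA N q).comp (by fun_prop)) (fun s => GA_nonneg _ _ _)
    (fun a => W_period (by omega) hq _ a) (fun s => (exp_pos _).le)
    (fun n s hs => by
      have hs1 : S1 + n * (2 * π / N) ≤ s := hs.1.le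
      have hs2 : S1 ≤ s := by
        have : (0 : ℝ) ≤ n * (2 * π / N) := by positivity
        linarith
      exact ray_step hq0.le hQ.le hS hs1 (Qr_ray_right hρ hS hs2))
  refine le_trans ?_ key
  refine setLIntegral_mono' measurableSet_Ioi fun s hs => ENNReal.ofReal_le_ofReal ?_
  refine FS_le_all ?_
  have hs0 : 0 ≤ s := hS.le.trans (le_of_lt hs)
  have h1 : 1 ≤ exp (pa ρ s) := Real.one_le_exp (pa_nonneg hs0)
  nlinarith

theorem L3 {N : ℕ} (hN : 3 ≤ N) {ρ x q S1 : ℝ} (hρ : 0 < ρ) (hq : 15 ≤ q * exp (-1)) (hS : 0 < S1) :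
    ∫⁻ s in Ioi S1, ENNReal.ofReal (FS N ρ x q (-s)) ≤
      ENNReal.ofReal (exp (-(q * Qr ρ (-S1))) * (67 / 25 / √(q * exp (-1))) /
        (1 - exp (-(q * Qr ρ (-S1) * (2 * π / N / S1))))) := by
  have hN0 : (0 : ℝ) < N := by
    have : 0 < N := by omega
    exact_mod_cast this
  have hh : 0 < 2 * π / N := by positivity
  have hQ : 0 < Qr ρ (-S1) := Qr_pos_left hρ hS
  have hq0 : 0 < q := by
    by_contra hc
    have : q * exp (-1) ≤ 0 := mul_nonpos_of_nonpos_of_nonneg (not_lt.1 hc) (exp_pos _).le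
    linarith
  have hr1 : exp (-(q * Qr ρ (-S1) * (2 * π / N / S1))) < 1 := by
    rw [Real.exp_lt_one_iff]
    have : 0 < q * Qr ρ (-S1) * (2 * π / N / S1) := by positivity
    linarith
  have hF : ∀ s, GA N (q * exp (-1)) (x * (2 * π / N) + -s) =
      GA N (q * exp (-1)) (-(x * (2 * π / N)) + s) := by
    intro s
    rw [← GA_neg (by omega)]
    congr 1
    ring
  have key := tail_abs (w := fun s => exp (-(q * Qr ρ (-s))))
    (F := fun s => GA N (q * exp (-1)) (-(x * (2 * π / N)) + s))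
    (S1 := S1) (h := 2 * π / N) (A := exp (-(q * Qr ρ (-S1))))
    (r1 := exp (-(q * Qr ρ (-S1) * (2 * π / N / S1)))) (Wc := 67 / 25 / √(q * exp (-1))) hh
    (exp_pos _).le (exp_pos _).le hr1 ((continuous_GA N _).comp (by fun_prop))
    (fun s => GA_nonneg _ _ _) (fun a => W_period (by omega) hq _ a) (fun s => (exp_pos _).le)
    (fun n s hs => by
      have hs1 : S1 + n * (2 * π / N) ≤ s := hs.1.le
      have hs2 : S1 ≤ s := by
        have : (0 : ℝ) ≤ n * (2 * π / N) := by positivity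
        linarith
      exact ray_step hq0.le hQ.le hS hs1 (Qr_ray_left hρ hS hs2))
  refine le_trans ?_ key
  refine setLIntegral_mono' measurableSet_Ioi fun s hs => ENNReal.ofReal_le_ofReal ?_
  have h1 : exp (-1) ≤ exp (pa ρ (-s)) := by
    rw [Real.exp_le_exp]
    exact (abs_le.1 (pa_mem ρ (-s))).1
  have h2 := FS_le_all (N := N) (ρ := ρ) (x := x) (q := q) (s := -s) (V := q * exp (-1))
    (mul_le_mul_of_nonneg_left h1 hq0.le)
  rw [hF s] at h2
  exact h2

end SokalFA
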