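import Pool.Agent.Lib_MP_af4de1_fa.PathGen

/-!
# Integration by parts on the clamp path, `t = -i δ`

`∫ pv * (m'(h) + m(h) (h/t + κ (e^(ξ+h) - 1))) f(h) ds = 0` for entire `m` with
`|m| ≤ K (1+|Im|)`, `|m'| ≤ K (1+|Im|)^2` on the strip `|Re| ≤ 1`.
-/

namespace SokalPG

open Complex MeasureTheory SokalU Filter Topology

/-- FTC for a function with two corner points and limit `0` at both ends. -/
theorem ftc_corners {H H' : ℝ → ℂ} {s1 : ℝ} (hs : 0 < s1) (hc : Continuous H)
    (hd : ∀ s, s ≠ s1 → s ≠ -s1 → HasDerivAt H (H' s) s) (hi : Integrable H')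
    (ht : Tendsto H atTop (𝓝 0)) (hb : Tendsto H atBot (𝓝 0)) : ∫ s, H' s = 0 := by
  have e1 : (∫ s in Set.Iic (-s1), H' s) + ∫ s in Set.Ioi (-s1), H' s = ∫ s : ℝ, H' s := by
    rw [← setIntegral_union (Set.Iic_disjoint_Ioi le_rfl) measurableSet_Ioi hi.integrableOn
      hi.integrableOn, Set.Iic_union_Ioi, setIntegral_univ]
  have e2 : (∫ s in Set.Ioc (-s1) s1, H' s) + ∫ s in Set.Ioi s1, H' s =
      ∫ s in Set.Ioi (-s1), H' s := by
    rw [← setIntegral_union (Set.Ioc_disjoint_Ioi le_rfl) measurableSet_Ioi hi.integrableOn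
      hi.integrableOn, Set.Ioc_union_Ioi_eq_Ioi (by linarith)]
  have h1 : ∫ s in Set.Ioi s1, H' s = 0 - H s1 := by
    refine integral_Ioi_of_hasDerivAt_of_tendsto hc.continuousWithinAt (fun s hs' => ?_)
      hi.integrableOn ht
    have hs2 : s1 < s := hs'
    exact hd s hs2.ne' (by linarith : (-s1 : ℝ) < s).ne'
  have h2 : ∫ s in Set.Iic (-s1), H' s = H (-s1) - 0 := by
    refine integral_Iic_of_hasDerivAt_of_tendsto hc.continuousWithinAt (fun s hs' => ?_)
      hi.integrableOn hb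
    have hs2 : s < -s1 := hs'
    exact hd s (by linarith : s < s1).ne hs2.ne
  have h3 : ∫ s in Set.Ioc (-s1) s1, H' s = H s1 - H (-s1) := by
    rw [← intervalIntegral.integral_of_le (by linarith)]
    refine intervalIntegral.integral_eq_sub_of_hasDerivAt_of_le (by linarith)
      hc.continuousOn (fun s hs' => ?_) hi.intervalIntegrable
    exact hd s hs'.2.ne hs'.1.ne'
  rw [← e1, ← e2, h1, h2, h3]
  ring

theorem hd_ofReal (s : ℝ) : HasDerivAt (fun x : ℝ => (x : ℂ)) 1 s := by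
  simpa using (hasDerivAt_id s).ofReal_comp

theorem hasDerivAt_pz {c s1 : ℝ} (hc : 0 < c) (hs : 0 < s1) {s : ℝ} (h1 : s ≠ s1) (h2 : s ≠ -s1) :
    HasDerivAt (pz c s1) (I * pv c s1 s) s := by
  rcases lt_or_gt_of_ne h2 with h3 | h3
  · have hv : pv c s1 s = 1 := by
      unfold pv
      rw [if_neg]
      rw [not_lt, abs_of_neg (by linarith)]
      linarith
    have h4 : HasDerivAt (fun x : ℝ => ((-(c * s1) : ℝ) : ℂ) + x * I) (I * pv c s1 s) s := by
      rw [hv]
      exact (((hd_ofReal s).mul_const I).const_add (((-(c * s1) : ℝ) : ℂ))).congr_deriv (by ring)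
    refine h4.congr_of_eventuallyEq ?_
    filter_upwards [Iio_mem_nhds h3] with x hx
    have hx' : x < -s1 := hx
    unfold pz
    rw [pc_left hc hs hx'.le]
  rcases lt_or_gt_of_ne h1 with h4 | h4
  · have hab : |s| < s1 := abs_lt.2 ⟨h3, h4⟩
    have hv : pv c s1 s = 1 - c * I := by
      unfold pv
      rw [if_pos hab]
    have h5 : HasDerivAt (fun x : ℝ => ((c : ℂ) + I) * x) (I * pv c s1 s) s := by
      rw [hv]
      exact ((hd_ofReal s).const_mul ((c : ℂ) + I)).congr_deriv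
        (by linear_combination (c : ℂ) * Complex.I_sq)
    refine h5.congr_of_eventuallyEq ?_
    filter_upwards [Ioo_mem_nhds h3 h4] with x hx
    unfold pz
    rw [pc_mid hc hx.1.le hx.2.le]
    push_cast
    ring
  · have hv : pv c s1 s = 1 := by
      unfold pv
      rw [if_neg]
      rw [not_lt, abs_of_pos (by linarith)]
      linarith
    have h5 : HasDerivAt (fun x : ℝ => (((c * s1) : ℝ) : ℂ) + x * I) (I * pv c s1 s) s := by
      rw [hv]
      exact (((hd_ofReal s).mul_const I).const_add (((c * s1 : ℝ) : ℂ))).congr_deriv (by ring)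
    refine h5.congr_of_eventuallyEq ?_
    filter_upwards [Ioi_mem_nhds h4] with x hx
    have hx' : s1 < x := hx
    unfold pz
    rw [pc_right hc hs hx'.le]

theorem tendsto_exp_abs_top {b : ℝ} (hb : 0 < b) (C : ℝ) :
    Tendsto (fun s : ℝ => C * Real.exp (-b * |s|)) atTop (𝓝 0) := by
  have h1 : Tendsto (fun s : ℝ => -b * |s|) atTop atBot :=
    tendsto_abs_atTop_atTop.const_mul_atTop_of_neg (by linarith)
  have h2 := (Real.tendsto_exp_atBot.comp h1).const_mul C
  simpa using h2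

theorem tendsto_exp_abs_bot {b : ℝ} (hb : 0 < b) (C : ℝ) :
    Tendsto (fun s : ℝ => C * Real.exp (-b * |s|)) atBot (𝓝 0) := by
  have h1 : Tendsto (fun s : ℝ => -b * |s|) atBot atBot :=
    tendsto_abs_atBot_atTop.const_mul_atTop_of_neg (by linarith)
  have h2 := (Real.tendsto_exp_atBot.comp h1).const_mul C
  simpa using h2

theorem hasDerivAt_f (t κ ξ h : ℂ) :
    HasDerivAt (f t κ ξ) (f t κ ξ h * (h / t + κ * (cexp (ξ + h) - 1))) h := by
  unfold f
  have h1 : HasDerivAt (fun h : ℂ => h ^ 2 / (2 * t) + κ * (cexp (ξ + h) - 1 - h))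
      (h / t + κ * (cexp (ξ + h) - 1)) h := by
    have e1 : HasDerivAt (fun h : ℂ => h ^ 2 / (2 * t)) (h / t) h := by
      refine ((hasDerivAt_pow 2 h).div_const (2 * t)).congr_deriv ?_
      have e0 : ((2 : ℕ) : ℂ) * h ^ (2 - 1) = 2 * h := by norm_num
      rw [e0, mul_div_mul_left _ _ (two_ne_zero)]
    have e2 : HasDerivAt (fun h : ℂ => κ * (cexp (ξ + h) - 1 - h)) (κ * (cexp (ξ + h) - 1)) h := by
      have e3 : HasDerivAt (fun h : ℂ => cexp (ξ + h)) (cexp (ξ + h)) h := by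
        have := ((hasDerivAt_id h).const_add ξ).cexp
        simpa using this
      exact ((e3.sub_const 1).sub (hasDerivAt_id h)).const_mul κ
    exact e1.add e2
  exact h1.cexp

/-- Integration by parts. -/
theorem path_ibp {c s1 δ K : ℝ} (hc : 0 < c) (hs : 0 < s1) (hcs : c * s1 ≤ 1)
    (hδ : 0 < δ) (κ ξ : ℂ) (hk : |κ.im| < c * s1 / δ) {m m' : ℂ → ℂ}
    (hm : ∀ h, HasDerivAt m (m' h) h) (hm2 : Differentiable ℂ m')
    (hK0 : 0 ≤ K) (hK : ∀ x y : ℝ, |x| ≤ 1 → ‖m (x + y * I)‖ ≤ K * (1 + |y|))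
    (hK' : ∀ x y : ℝ, |x| ≤ 1 → ‖m' (x + y * I)‖ ≤ K * (1 + |y|) ^ 2) :
    Integrable (gi c s1 (fun h => m' h + m h * (h / (-((δ : ℂ) * I)) + κ * (cexp (ξ + h) - 1)))
        κ ξ (-((δ : ℂ) * I))) ∧
    ∫ s : ℝ, gi c s1 (fun h => m' h + m h * (h / (-((δ : ℂ) * I)) + κ * (cexp (ξ + h) - 1)))
        κ ξ (-((δ : ℂ) * I)) s = 0 := by
  set t : ℂ := -((δ : ℂ) * I) with htdef
  have hmd : Differentiable ℂ m := fun h => (hm h).differentiableAt
  -- growth of the full weight
  have hW : Wt (fun h => m' h + m h * (h / t + κ * (cexp (ξ + h) - 1)))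
      (K + K * (1 / δ + ‖κ‖ * (Real.exp (‖ξ‖ + 1) + 1))) := by
    constructor
    · refine hm2.add (hmd.mul ?_)
      fun_prop
    · intro x y hx
      have h1 := hK x y hx
      have h2 := hK' x y hx
      have h3 : ‖((x : ℂ) + y * I) / t‖ ≤ 1 / δ * (1 + |y|) := by
        rw [norm_div, htdef, norm_neg, norm_mul, Complex.norm_I, Complex.norm_real,
          Real.norm_of_nonneg hδ.le, mul_one, div_eq_mul_inv, mul_comm, ← one_div]
        gcongr
        refine (norm_add_le _ _).trans ?_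
        rw [norm_mul, Complex.norm_I, Complex.norm_real, Complex.norm_real, mul_one,
          Real.norm_eq_abs, Real.norm_eq_abs]
        linarith
      have h4 : ‖κ * (cexp (ξ + (x + y * I)) - 1)‖ ≤ ‖κ‖ * (Real.exp (‖ξ‖ + 1) + 1) := by
        rw [norm_mul]
        refine mul_le_mul_of_nonneg_left ?_ (norm_nonneg _)
        refine (norm_sub_le _ _).trans ?_
        rw [norm_one]
        gcongr
        rw [Complex.norm_exp]
        apply Real.exp_le_exp.2
        have h9 : (ξ + ((x : ℂ) + y * I)).re = ξ.re + x := by simp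
        rw [h9]
        have h10 := (Complex.re_le_norm ξ)
        have h11 := (abs_le.1 hx).2
        linarith
      have hy : 0 ≤ |y| := abs_nonneg y
      have h5 : ‖((x : ℂ) + y * I) / t + κ * (cexp (ξ + (x + y * I)) - 1)‖ ≤
          (1 / δ + ‖κ‖ * (Real.exp (‖ξ‖ + 1) + 1)) * (1 + |y|) := by
        refine (norm_add_le _ _).trans ?_
        have h6 : ‖κ‖ * (Real.exp (‖ξ‖ + 1) + 1) ≤ ‖κ‖ * (Real.exp (‖ξ‖ + 1) + 1) * (1 + |y|) :=
          le_mul_of_one_le_right (by positivity) (by linarith)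
        nlinarith
      calc ‖m' (x + y * I) + m (x + y * I) * (((x : ℂ) + y * I) / t +
            κ * (cexp (ξ + (x + y * I)) - 1))‖
          ≤ ‖m' (x + y * I)‖ + ‖m (x + y * I)‖ * ‖((x : ℂ) + y * I) / t +
            κ * (cexp (ξ + (x + y * I)) - 1)‖ := by
            refine (norm_add_le _ _).trans ?_
            rw [norm_mul]
        _ ≤ K * (1 + |y|) ^ 2 + (K * (1 + |y|)) *
            ((1 / δ + ‖κ‖ * (Real.exp (‖ξ‖ + 1) + 1)) * (1 + |y|)) := by gcongr
        _ = (K + K * (1 / δ + ‖κ‖ * (Real.exp (‖ξ‖ + 1) + 1))) * (1 + |y|) ^ 2 := by ring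
  have hint := integrable_path hc hs hcs hδ κ ξ hk hW
  refine ⟨hint, ?_⟩
  -- the primitive
  have hmW : Wt m K := by
    refine ⟨hmd, fun x y hx => (hK x y hx).trans ?_⟩
    have hy : 0 ≤ |y| := abs_nonneg y
    have : K * (1 + |y|) * 1 ≤ K * (1 + |y|) * (1 + |y|) := by gcongr; linarith
    nlinarith
  have hH := ftc_corners (H := fun s => m (pz c s1 s) * f t κ ξ (pz c s1 s))
    (H' := fun s => I * gi c s1 (fun h => m' h + m h * (h / t + κ * (cexp (ξ + h) - 1)))
        κ ξ t s) hs ?_ ?_ ?_ ?_ ?_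
  · rw [integral_const_mul] at hH
    exact (mul_eq_zero.1 hH).resolve_left I_ne_zero
  · exact (hmd.continuous.comp (continuous_pz c s1)).mul
      ((continuous_f t κ ξ).comp (continuous_pz c s1))
  · intro s h1 h2
    have hz := hasDerivAt_pz hc hs h1 h2
    have hg : HasDerivAt (fun h => m h * f t κ ξ h) (m' (pz c s1 s) * f t κ ξ (pz c s1 s) +
        m (pz c s1 s) * (f t κ ξ (pz c s1 s) * (pz c s1 s / t + κ * (cexp (ξ + pz c s1 s) - 1))))
        (pz c s1 s) := (hm _).mul (hasDerivAt_f t κ ξ _)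
    have h3 := hg.comp s hz
    have e : I * gi c s1 (fun h => m' h + m h * (h / t + κ * (cexp (ξ + h) - 1))) κ ξ t s =
        (m' (pz c s1 s) * f t κ ξ (pz c s1 s) +
        m (pz c s1 s) * (f t κ ξ (pz c s1 s) * (pz c s1 s / t + κ * (cexp (ξ + pz c s1 s) - 1)))) *
        (I * pv c s1 s) := by
      simp only [gi]
      ring
    rw [e]
    exact h3
  · exact hint.const_mul I
  all_goals
    have hb0 : 0 < (c * s1 / δ - |κ.im|) / 2 := by linarith
    have hnorm : ∀ s, |s| ≥ s1 → ‖m (pz c s1 s) * f t κ ξ (pz c s1 s)‖ ≤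
        domC c s1 δ K 0 κ ξ * Real.exp (-((c * s1 / δ - |κ.im|) / 2) * |s|) := by
      intro s hs'
      have h1 := norm_gi_le hc hs hcs hδ le_rfl κ ξ (t0_inv hδ) hk hmW s
      have hv : pv c s1 s = 1 := by
        unfold pv
        rw [if_neg (not_lt.2 hs')]
      unfold gi at h1
      rwa [hv, one_mul] at h1
  · refine squeeze_zero_norm' ?_ (tendsto_exp_abs_top hb0 (domC c s1 δ K 0 κ ξ))
    filter_upwards [eventually_ge_atTop s1] with s hs'
    exact hnorm s (hs'.trans (le_abs_self s))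
  · refine squeeze_zero_norm' ?_ (tendsto_exp_abs_bot hb0 (domC c s1 δ K 0 κ ξ))
    filter_upwards [eventually_le_atBot (-s1)] with s hs'
    exact hnorm s ((by linarith : s1 ≤ -s).trans (neg_le_abs s))

end SokalPG
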